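import Mathlib

set_option autoImplicit false

namespace Pool.Agent.Work.MP_34725c_ag

open IsLocalRing Ideal RingTheory.Sequence Pointwise

universe u v

/-- Exchange of a generator. -/
theorem exchange {S : Type u} [CommRing S] [IsLocalRing S] (xs : List S) :
    ∀ x ∈ ofList xs, x ∉ maximalIdeal S * ofList xs →
      ∃ xs' : List S, xs'.length + 1 = xs.length ∧ ofList (x :: xs') = ofList xs := by
  induction xs with
  | nil =>
    intro x hx hx'
    rw [ofList_nil] at hx hx'
    rw [Ideal.mem_bot.1 hx] at hx'
    exact absurd (zero_mem _) hx'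
  | cons a l ih =>
    intro x hx hx'
    rw [ofList_cons] at hx hx'
    obtain ⟨_, h1, x', h2, rfl⟩ := Submodule.mem_sup.1 hx
    obtain ⟨c, rfl⟩ := Ideal.mem_span_singleton'.1 h1
    by_cases hc : IsUnit c
    · refine ⟨l, rfl, ?_⟩
      rw [ofList_cons, ofList_cons]
      refine le_antisymm (sup_le ?_ le_sup_right) (sup_le ?_ le_sup_right)
      · rw [Ideal.span_singleton_le_iff_mem]
        exact hx
      · rw [Ideal.span_singleton_le_iff_mem]
        obtain ⟨d, hd⟩ := hc.exists_left_inv
        have : a = d * (c * a + x') - d * x' := by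
          rw [mul_add, ← mul_assoc, hd]; ring
        have h4 : d * (c * a + x') - d * x' ∈ span {c * a + x'} ⊔ ofList l :=
          sub_mem (Ideal.mul_mem_left _ _ (Ideal.mem_sup_left (Ideal.mem_span_singleton_self _)))
            (Ideal.mul_mem_left _ _ (Ideal.mem_sup_right h2))
        rwa [← this] at h4
    · have h3 : x' ∉ maximalIdeal S * ofList l := fun h => hx' (add_mem
        (Ideal.mul_mem_mul hc (Ideal.mem_sup_left (Ideal.mem_span_singleton_self _)))
        (Ideal.mul_mono_right le_sup_right h))
      obtain ⟨l', hl1, hl2⟩ := ih x' h2 h3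
      refine ⟨a :: l', by simp [hl1], ?_⟩
      rw [ofList_cons, ofList_cons, ofList_cons, ← hl2, ofList_cons]
      refine le_antisymm (sup_le ?_ (sup_le le_sup_left (le_sup_of_le_right le_sup_right)))
        (sup_le (le_sup_of_le_right le_sup_left) (sup_le ?_ (le_sup_of_le_right le_sup_right)))
      · rw [Ideal.span_singleton_le_iff_mem]
        exact add_mem (Ideal.mem_sup_left h1)
          (Ideal.mem_sup_right (Ideal.mem_sup_left (Ideal.mem_span_singleton_self _)))
      · rw [Ideal.span_singleton_le_iff_mem]
        have : (c * a + x') - c * a = x' := by ring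
        have h4 : (c * a + x') - c * a ∈ span {c * a + x'} ⊔ (span {a} ⊔ ofList l') :=
          sub_mem (Ideal.mem_sup_left (Ideal.mem_span_singleton_self _))
            (Ideal.mem_sup_right (Ideal.mem_sup_left h1))
        rwa [this] at h4

theorem dim_le_length {S : Type u} [CommRing S] [IsLocalRing S] [IsNoetherianRing S]
    (xs : List S) (h : ofList xs = maximalIdeal S) : ringKrullDim S ≤ xs.length := by
  classical
  refine (ringKrullDim_le_spanFinrank_maximalIdeal S).trans ?_
  have h1 : (maximalIdeal S).spanFinrank ≤ xs.length := by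
    have e : maximalIdeal S = Submodule.span S (xs.toFinset : Set S) := by
      rw [← h, List.coe_toFinset]
    rw [e]
    refine (Submodule.spanFinrank_span_le_ncard_of_finite (Finset.finite_toSet _)).trans ?_
    rw [Set.ncard_coe_finset]
    exact List.toFinset_card_le xs
  exact_mod_cast h1

theorem quot_data {S : Type u} [CommRing S] [IsLocalRing S] [IsNoetherianRing S] {x : S}
    {xs : List S} (h : ofList (x :: xs) = maximalIdeal S)
    (hd : ((xs.length + 1 : ℕ) : WithBot ℕ∞) ≤ ringKrullDim S) :
    ∃ _ : IsLocalRing (S ⧸ span {x}),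
      ofList (xs.map (Ideal.Quotient.mk (span {x}))) = maximalIdeal (S ⧸ span {x}) ∧
      ((xs.length : ℕ) : WithBot ℕ∞) ≤ ringKrullDim (S ⧸ span {x}) := by
  have hx : x ∈ maximalIdeal S := by
    rw [← h, ofList_cons]
    exact Ideal.mem_sup_left (Ideal.mem_span_singleton_self _)
  have hne : span {x} ≠ (⊤ : Ideal S) := by
    rw [Ne, Ideal.span_singleton_eq_top]
    exact hx
  have : Nontrivial (S ⧸ span {x}) := Ideal.Quotient.nontrivial_iff.2 hne
  have hloc : IsLocalRing (S ⧸ span {x}) :=
    IsLocalRing.of_surjective' (Ideal.Quotient.mk _) Ideal.Quotient.mk_surjective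
  refine ⟨hloc, ?_, ?_⟩
  · rw [← IsLocalRing.map_maximalIdeal_of_surjective (Ideal.Quotient.mk (span {x}))
      Ideal.Quotient.mk_surjective, ← h, ofList_cons, Ideal.map_sup, Ideal.map_quotient_self,
      bot_sup_eq, map_ofList]
  · have h1 := ringKrullDim_le_ringKrullDim_quotient_add_card ({x} : Finset S) (by
      rw [IsLocalRing.ringJacobson_eq_maximalIdeal]
      simpa using hx)
    rw [Finset.coe_singleton, Finset.card_singleton] at h1
    have h2 := hd.trans h1
    rw [Nat.cast_add] at h2
    exact ENat.WithBot.add_le_add_natCast_right_iff.1 h2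

theorem isDomain_of_regular (d : ℕ) : ∀ (S : Type u) [CommRing S] [IsLocalRing S]
    [IsNoetherianRing S] (xs : List S), xs.length = d → ofList xs = maximalIdeal S →
      (d : WithBot ℕ∞) ≤ ringKrullDim S → IsDomain S := by
  induction d with
  | zero =>
    intro S _ _ _ xs hl h _
    rw [List.length_eq_zero_iff.1 hl, ofList_nil] at h
    exact (IsLocalRing.isField_iff_maximalIdeal_eq.2 h.symm).isDomain
  | succ d ih =>
    intro S _ _ _ xs hl h hd
    have hpos : ∀ p ∈ minimalPrimes S, ¬ maximalIdeal S ≤ p := by
      intro p hp hle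
      have hpp : p.IsPrime := hp.1.1
      have : p = maximalIdeal S := le_antisymm (le_maximalIdeal hpp.ne_top) hle
      rw [this, ← Ideal.height_eq_zero_iff] at hp
      rw [← IsLocalRing.maximalIdeal_height_eq_ringKrullDim, hp] at hd
      exact absurd hd (by norm_cast)
    have hsq : ¬ maximalIdeal S ≤ maximalIdeal S * maximalIdeal S := by
      intro hle
      have h0 : maximalIdeal S = ⊥ :=
        Submodule.eq_bot_of_le_smul_of_le_jacobson_bot (maximalIdeal S) (maximalIdeal S)
          (IsNoetherian.noetherian _) hle (IsLocalRing.maximalIdeal_le_jacobson _)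
      obtain ⟨p, hp, -⟩ := Ideal.exists_minimalPrimes_le (I := ⊥) (J := maximalIdeal S) bot_le
      exact hpos p hp (h0 ▸ bot_le)
    obtain ⟨x, hx1, hx2⟩ : ∃ x ∈ maximalIdeal S, x ∉ ⋃ p ∈ insert
        (maximalIdeal S * maximalIdeal S) (minimalPrimes S), (p : Set S) := by
      apply Set.not_subset.1
      rw [Ideal.subset_union_prime_finite
        ((minimalPrimes.finite_of_isNoetherianRing S).insert _) (maximalIdeal S * maximalIdeal S)
        (maximalIdeal S * maximalIdeal S) (f := fun p => p)]
      · rintro ⟨p, hp | hp, hle⟩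
        · exact hsq (hp ▸ hle)
        · exact hpos p hp hle
      · rintro p (hp | hp) h1 _
        · exact absurd hp h1
        · exact hp.1.1
    simp only [Set.mem_iUnion, not_exists] at hx2
    obtain ⟨xs', hl', h'⟩ := exchange xs x (h ▸ hx1) (by
      rw [h]; exact hx2 _ (Set.mem_insert _ _))
    obtain ⟨_, q1, q2⟩ := quot_data (h'.trans h) (by rw [hl', hl]; exact hd)
    have hlen : xs'.length = d := by omega
    have hdom := ih (S ⧸ span {x}) _ (by rw [List.length_map, hlen]) q1 (hlen ▸ q2)
    have hprime : (span {x} : Ideal S).IsPrime := (Ideal.Quotient.isDomain_iff_prime _).1 hdom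
    obtain ⟨p, hp, hle⟩ := Ideal.exists_minimalPrimes_le (I := ⊥) (J := span {x}) bot_le
    have hpp : p.IsPrime := hp.1.1
    have hxp : x ∉ p := hx2 p (Set.mem_insert_of_mem _ hp)
    have h0 : p = ⊥ := by
      refine Submodule.eq_bot_of_le_smul_of_le_jacobson_bot (maximalIdeal S) p
          (IsNoetherian.noetherian _) ?_ (IsLocalRing.maximalIdeal_le_jacobson _)
      intro a ha
      obtain ⟨b, rfl⟩ := Ideal.mem_span_singleton.1 (hle ha)
      exact Ideal.mul_mem_mul hx1 ((hpp.mem_or_mem ha).resolve_left hxp)
    rw [h0] at hpp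
    exact IsDomain.of_bot_isPrime S

theorem isWeaklyRegular_of_regular (d : ℕ) : ∀ (S : Type u) [CommRing S] [IsLocalRing S]
    [IsNoetherianRing S] (xs : List S), xs.length = d → ofList xs = maximalIdeal S →
      (d : WithBot ℕ∞) ≤ ringKrullDim S → IsWeaklyRegular S xs := by
  induction d with
  | zero =>
    intro S _ _ _ xs hl h _
    rw [List.length_eq_zero_iff.1 hl]
    exact IsWeaklyRegular.nil _ _
  | succ d ih =>
    intro S _ _ _ xs hl h hd
    have hdom := isDomain_of_regular _ S xs hl h hd
    obtain ⟨x, xs', rfl⟩ := List.exists_cons_of_length_eq_add_one hl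
    have hlen : xs'.length = d := by simpa using hl
    have hx0 : x ≠ 0 := by
      rintro rfl
      rw [ofList_cons, Ideal.span_singleton_eq_bot.2 rfl, bot_sup_eq] at h
      have := hd.trans (dim_le_length xs' h)
      rw [hlen] at this
      exact absurd this (by norm_cast; omega)
    obtain ⟨_, q1, q2⟩ := quot_data h (by rw [hlen]; exact hd)
    have h1 := ih (S ⧸ span {x}) _ (by rw [List.length_map, hlen]) q1 (hlen ▸ q2)
    have h2 : IsWeaklyRegular (S ⧸ span {x}) xs' :=
      (isWeaklyRegular_map_algebraMap_iff (S ⧸ span {x}) (S ⧸ span {x}) xs').1 h1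
    refine IsWeaklyRegular.cons (IsSMulRegular.of_ne_zero hx0) ?_
    have e : (span {x} : Ideal S) = x • (⊤ : Submodule S S) := by
      rw [← Submodule.ideal_span_singleton_smul, smul_eq_mul, Ideal.mul_top]
    exact ((Submodule.quotEquivOfEq _ _ e).isWeaklyRegular_congr xs').1 h2

end Pool.Agent.Work.MP_34725c_ag
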