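import Mathlib
import Pool.Agent.Work.MP_34725c_ag.Regular

-- merged part: Pool.Agent.Work.MP_34725c_ag.Cent
section
set_option autoImplicit false

namespace Pool.Agent.Work.MP_34725c_ag

open Module LinearMap

universe u v w
variable {k : Type u} [Field k]

section defs
variable {V : Type v} [AddCommGroup V] [Module k V]

/-- The common centralizer of two endomorphisms. -/
def cent (y z : End k V) : Submodule k (End k V) where
  carrier := {a | y * a = a * y ∧ z * a = a * z}
  add_mem' := by
    rintro a b ⟨h1, h2⟩ ⟨h3, h4⟩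
    exact ⟨by rw [mul_add, add_mul, h1, h3], by rw [mul_add, add_mul, h2, h4]⟩
  zero_mem' := by simp
  smul_mem' := by
    rintro c a ⟨h1, h2⟩
    exact ⟨by rw [mul_smul_comm, smul_mul_assoc, h1], by rw [mul_smul_comm, smul_mul_assoc, h2]⟩

theorem mem_cent {y z a : End k V} : a ∈ cent y z ↔ y * a = a * y ∧ z * a = a * z := Iff.rfl

/-- The common kernel. -/
def soc (y z : End k V) : Submodule k V := ker y ⊓ ker z

theorem mem_soc {y z : End k V} {v : V} : v ∈ soc y z ↔ y v = 0 ∧ z v = 0 := Iff.rfl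

/-- The functionals killing both images. -/
def cosoc (y z : End k V) : Submodule k (Dual k V) := soc y.dualMap z.dualMap

theorem mem_cosoc {y z : End k V} {b : Dual k V} :
    b ∈ cosoc y z ↔ (∀ v, b (y v) = 0) ∧ ∀ v, b (z v) = 0 := by
  unfold cosoc
  rw [mem_soc]
  constructor
  · rintro ⟨h1, h2⟩
    exact ⟨fun v => by simpa using LinearMap.congr_fun h1 v,
      fun v => by simpa using LinearMap.congr_fun h2 v⟩
  · rintro ⟨h1, h2⟩
    exact ⟨by ext v; simpa using h1 v, by ext v; simpa using h2 v⟩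

theorem cent_comm (y z : End k V) : cent y z = cent z y := by
  ext a; simp only [mem_cent]; tauto

theorem cent_shift (y z : End k V) (c d : k) :
    cent (y - c • (1 : End k V)) (z - d • (1 : End k V)) = cent y z := by
  ext a
  simp only [mem_cent, sub_mul, mul_sub, smul_mul_assoc, mul_smul_comm, one_mul, mul_one,
    sub_left_inj]

end defs

/-- Semicontinuity of the nullity along a pencil. -/
theorem pencil {U : Type v} {U' : Type w} [AddCommGroup U] [Module k U] [AddCommGroup U']
    [Module k U'] [FiniteDimensional k U] (Φ Ψ : U →ₗ[k] U') :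
    {t : k | finrank k (ker Φ) < finrank k (ker (Φ + t • Ψ))}.Finite := by
  obtain ⟨U1, hU1⟩ := Submodule.exists_isCompl (ker Φ)
  have hinj : ker (Φ ∘ₗ U1.subtype) = ⊥ := by
    rw [eq_bot_iff]
    intro x hx
    have h1 : (x : U) ∈ ker Φ := by simpa using hx
    have h2 : (x : U) ∈ ker Φ ⊓ U1 := ⟨h1, x.2⟩
    rw [hU1.inf_eq_bot] at h2
    simpa using h2
  obtain ⟨β, hβ⟩ := (Φ ∘ₗ U1.subtype).exists_leftInverse_of_injective hinj
  set N : End k U1 := β ∘ₗ Ψ ∘ₗ U1.subtype with hN
  refine ((Module.End.finite_spectrum N).image (fun c => -c⁻¹)).subset ?_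
  intro t ht
  change finrank k (ker Φ) < finrank k (ker (Φ + t • Ψ)) at ht
  have ht0 : t ≠ 0 := by
    rintro rfl
    rw [zero_smul, add_zero] at ht
    exact lt_irrefl _ ht
  refine ⟨-t⁻¹, ?_, by simp⟩
  rw [← Module.End.hasEigenvalue_iff_mem_spectrum]
  have hne : ker (Φ + t • Ψ) ⊓ U1 ≠ ⊥ := by
    intro h
    have h1 := Submodule.finrank_sup_add_finrank_inf_eq (ker (Φ + t • Ψ)) U1
    have h2 := Submodule.finrank_add_eq_of_isCompl hU1
    have h3 := Submodule.finrank_le (ker (Φ + t • Ψ) ⊔ U1)
    rw [h, finrank_bot] at h1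
    omega
  obtain ⟨x, ⟨hx1, hx2⟩, hx0⟩ := (Submodule.ne_bot_iff _).1 hne
  have hx1' : Φ x + t • Ψ x = 0 := by simpa using hx1
  have h4 : β (Φ x) = ⟨x, hx2⟩ := by
    have := LinearMap.congr_fun hβ ⟨x, hx2⟩
    simpa using this
  have h5 : (⟨x, hx2⟩ : U1) + t • β (Ψ x) = 0 := by
    rw [← h4, ← map_smul, ← map_add, hx1', map_zero]
  refine Module.End.hasEigenvalue_of_hasEigenvector (x := ⟨x, hx2⟩) ⟨?_, ?_⟩
  · rw [Module.End.mem_eigenspace_iff]
    have h6 : N ⟨x, hx2⟩ = β (Ψ x) := by simp [hN]
    rw [h6]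
    have h7 : (⟨x, hx2⟩ : U1) = -(t • β (Ψ x)) := eq_neg_of_add_eq_zero_left h5
    rw [h7, smul_neg, smul_smul, neg_mul, inv_mul_cancel₀ ht0, neg_smul, one_smul, neg_neg]
  · intro h
    exact hx0 (by simpa using congrArg Subtype.val h)

section
variable {V : Type v} [AddCommGroup V] [Module k V]

/-- Semicontinuity for the centralizer. -/
theorem pencil_cent [FiniteDimensional k V] (y z π : End k V) :
    {t : k | finrank k (cent y z) < finrank k (cent y (z + t • π))}.Finite := by
  let ad : End k V → (End k V →ₗ[k] End k V) := fun x =>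
    LinearMap.mulLeft k x - LinearMap.mulRight k x
  have key : ∀ t : k, ker ((ad y).prod (ad z) + t • (0 : End k V →ₗ[k] End k V).prod (ad π))
      = cent y (z + t • π) := by
    intro t
    ext a
    have e : ((ad y).prod (ad z) + t • (0 : End k V →ₗ[k] End k V).prod (ad π)) a =
        (y * a - a * y, (z + t • π) * a - a * (z + t • π)) := by
      change ((y * a - a * y, z * a - a * z) : End k V × End k V) + t • (0, π * a - a * π) = _
      simp only [Prod.smul_mk, Prod.mk_add_mk, smul_zero, add_zero, add_mul, mul_add,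
        smul_mul_assoc, mul_smul_comm, smul_sub, Prod.mk.injEq, true_and]
      abel
    rw [mem_ker, e, mem_cent, Prod.mk_eq_zero, sub_eq_zero, sub_eq_zero]
  have h0 : ker ((ad y).prod (ad z)) = cent y z := by
    have := key 0
    rwa [zero_smul, add_zero, zero_smul, add_zero] at this
  refine (pencil ((ad y).prod (ad z)) ((0 : End k V →ₗ[k] End k V).prod (ad π))).subset ?_
  intro t ht
  change finrank k (ker _) < finrank k (ker _)
  rw [key, h0]
  exact ht

/-- Centralizers of the two summands embed in the centralizer. -/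
theorem cent_split [FiniteDimensional k V] {V0 V1 : Type v} [AddCommGroup V0] [Module k V0]
    [AddCommGroup V1] [Module k V1] [FiniteDimensional k V0] [FiniteDimensional k V1]
    (y z : End k V) (y0 z0 : End k V0) (y1 z1 : End k V1)
    (i0 : V0 →ₗ[k] V) (p0 : V →ₗ[k] V0) (i1 : V1 →ₗ[k] V) (p1 : V →ₗ[k] V1)
    (h00 : ∀ v, p0 (i0 v) = v) (h11 : ∀ v, p1 (i1 v) = v)
    (h01 : ∀ v, p0 (i1 v) = 0) (h10 : ∀ v, p1 (i0 v) = 0)
    (yi0 : ∀ v, y (i0 v) = i0 (y0 v)) (zi0 : ∀ v, z (i0 v) = i0 (z0 v))
    (yi1 : ∀ v, y (i1 v) = i1 (y1 v)) (zi1 : ∀ v, z (i1 v) = i1 (z1 v))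
    (yp0 : ∀ v, p0 (y v) = y0 (p0 v)) (zp0 : ∀ v, p0 (z v) = z0 (p0 v))
    (yp1 : ∀ v, p1 (y v) = y1 (p1 v)) (zp1 : ∀ v, p1 (z v) = z1 (p1 v)) :
    finrank k (cent y0 z0) + finrank k (cent y1 z1) ≤ finrank k (cent y z) := by
  let F : (cent y0 z0 × cent y1 z1) →ₗ[k] cent y z :=
    { toFun := fun ab => ⟨i0 ∘ₗ (ab.1 : End k V0) ∘ₗ p0 + i1 ∘ₗ (ab.2 : End k V1) ∘ₗ p1, by
        obtain ⟨⟨a, ha1, ha2⟩, ⟨b, hb1, hb2⟩⟩ := ab
        have ha1' : ∀ v, y0 (a v) = a (y0 v) := fun v => LinearMap.congr_fun ha1 v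
        have ha2' : ∀ v, z0 (a v) = a (z0 v) := fun v => LinearMap.congr_fun ha2 v
        have hb1' : ∀ v, y1 (b v) = b (y1 v) := fun v => LinearMap.congr_fun hb1 v
        have hb2' : ∀ v, z1 (b v) = b (z1 v) := fun v => LinearMap.congr_fun hb2 v
        constructor
        · ext v
          simp [yi0, yi1, yp0, yp1, ha1', hb1']
        · ext v
          simp [zi0, zi1, zp0, zp1, ha2', hb2']⟩
      map_add' := by
        intro a b
        ext v
        simp only [Prod.fst_add, Prod.snd_add, Submodule.coe_add, LinearMap.add_apply,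
          LinearMap.comp_apply, map_add]
        abel
      map_smul' := by
        intro c a
        ext v
        simp }
  have hF : Function.Injective F := by
    rw [injective_iff_map_eq_zero]
    rintro ⟨⟨a, ha⟩, ⟨b, hb⟩⟩ h
    have h' : ∀ v, i0 (a (p0 v)) + i1 (b (p1 v)) = 0 := fun v =>
      LinearMap.congr_fun (congrArg Subtype.val h) v
    have ha0 : a = 0 := by
      ext v
      have := congrArg p0 (h' (i0 v))
      simpa [h00, h01, h10] using this
    have hb0 : b = 0 := by
      ext v
      have := congrArg p1 (h' (i1 v))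
      simpa [h11, h01, h10] using this
    subst ha0 hb0
    rfl
  have := LinearMap.finrank_le_finrank_of_injective hF
  rwa [Module.finrank_prod] at this

/-- The same for two complementary invariant subspaces. -/
theorem cent_isCompl [FiniteDimensional k V] (y z : End k V) (p q : Submodule k V)
    (h : IsCompl p q) (yp : ∀ x ∈ p, y x ∈ p) (zp : ∀ x ∈ p, z x ∈ p)
    (yq : ∀ x ∈ q, y x ∈ q) (zq : ∀ x ∈ q, z x ∈ q) :
    finrank k (cent (y.restrict yp) (z.restrict zp)) +
      finrank k (cent (y.restrict yq) (z.restrict zq)) ≤ finrank k (cent y z) := by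
  have key : ∀ (x : End k V) (xp : ∀ v ∈ p, x v ∈ p) (xq : ∀ v ∈ q, x v ∈ q) (v : V),
      p.projectionOnto q h (x v) = x.restrict xp (p.projectionOnto q h v) ∧
      q.projectionOnto p h.symm (x v) = x.restrict xq (q.projectionOnto p h.symm v) := by
    intro x xp xq v
    obtain ⟨a, b, rfl, -⟩ := Submodule.existsUnique_add_of_isCompl h v
    have e1 : x (a : V) = (x.restrict xp a : V) := rfl
    have e2 : x (b : V) = (x.restrict xq b : V) := rfl
    constructor
    · rw [map_add, e1, e2]
      simp only [map_add, Submodule.projectionOnto_apply_left, Submodule.projectionOnto_apply_right,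
        add_zero]
    · rw [map_add, e1, e2]
      simp only [map_add, Submodule.projectionOnto_apply_left, Submodule.projectionOnto_apply_right,
        zero_add]
  refine cent_split y z _ _ _ _ p.subtype (p.projectionOnto q h) q.subtype
    (q.projectionOnto p h.symm) (by simp) (by simp) (by simp) (by simp)
    (fun v => rfl) (fun v => rfl) (fun v => rfl) (fun v => rfl)
    (fun v => (key y yp yq v).1) (fun v => (key z zp zq v).1)
    (fun v => (key y yp yq v).2) (fun v => (key z zp zq v).2)

/-- Transposition. -/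
theorem cent_dual [FiniteDimensional k V] (y z : End k V) :
    finrank k (cent y.dualMap z.dualMap) = finrank k (cent y z) := by
  let T : End k V →ₗ[k] End k (Dual k V) := Module.Dual.transpose (R := k)
  have hT : ∀ a : End k V, T a = a.dualMap := fun a => rfl
  have hinj : Function.Injective T := by
    rw [injective_iff_map_eq_zero]
    intro a ha
    ext v
    refine (Module.forall_dual_apply_eq_zero_iff k (a v)).1 fun φ => ?_
    have := LinearMap.congr_fun (LinearMap.congr_fun ha φ) v
    simpa [hT] using this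
  have hsurj : Function.Surjective T := by
    have hd : finrank k (End k V) = finrank k (End k (Dual k V)) := by
      simp [Module.finrank_linearMap]
    rw [← LinearMap.range_eq_top]
    refine Submodule.eq_top_of_finrank_eq (K := k) (V := End k (Dual k V)) ?_
    rw [LinearMap.finrank_range_of_inj hinj, hd]
  have hm : ∀ a b : End k V, T (a * b) = T b * T a := by
    intro a b; ext φ v; simp [hT]
  have : cent y.dualMap z.dualMap = (cent y z).map T := by
    ext b
    obtain ⟨a, rfl⟩ := hsurj b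
    rw [mem_cent, ← hT, ← hT, ← hm, ← hm, ← hm, ← hm, hinj.eq_iff, hinj.eq_iff]
    constructor
    · rintro ⟨h1, h2⟩
      exact ⟨a, ⟨h1.symm, h2.symm⟩, rfl⟩
    · rintro ⟨a', ⟨h1, h2⟩, h3⟩
      obtain rfl := hinj h3
      exact ⟨h1.symm, h2.symm⟩
  rw [this]
  exact (LinearEquiv.finrank_eq (Submodule.equivMapOfInjective _ hinj _)).symm

theorem cosoc_dual [FiniteDimensional k V] (y z : End k V) :
    finrank k (cosoc y.dualMap z.dualMap) = finrank k (soc y z) := by
  have : cosoc y.dualMap z.dualMap = (soc y z).map (Module.evalEquiv k V).toLinearMap := by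
    ext b
    obtain ⟨v, rfl⟩ := (Module.evalEquiv k V).surjective b
    rw [mem_cosoc]
    simp only [Submodule.mem_map_equiv, LinearEquiv.symm_apply_apply, mem_soc]
    simp only [Module.evalEquiv_apply, Module.Dual.eval_apply, LinearMap.dualMap_apply]
    rw [Module.forall_dual_apply_eq_zero_iff k (y v), Module.forall_dual_apply_eq_zero_iff k (z v)]
  rw [this, LinearEquiv.finrank_map_eq]

end

end Pool.Agent.Work.MP_34725c_ag
end

-- merged part: Pool.Agent.Work.MP_34725c_ag.Trace
section
set_option autoImplicit false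

namespace Pool.Agent.Work.MP_34725c_ag

open Module LinearMap Polynomial

universe u v w
variable {k : Type u} [Field k] {V : Type v} [AddCommGroup V] [Module k V]

theorem ker_pow_le_range {y : End k V} {j : ℕ} (h : ker y ≤ range (y ^ j)) :
    ∀ i ≤ j, ∀ v, (y ^ i) v = 0 → v ∈ range y := by
  intro i
  induction i with
  | zero =>
    intro _ v hv
    have : v = 0 := by simpa using hv
    simp [this]
  | succ i ih =>
    intro hi v hv
    have h1 : (y ^ i) v ∈ ker y := by
      rw [mem_ker, ← Module.End.mul_apply, ← pow_succ']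
      exact hv
    obtain ⟨w, hw⟩ := h h1
    obtain ⟨c, rfl⟩ := Nat.exists_eq_add_of_le hi
    have h2 : (y ^ i) (v - y ((y ^ c) w)) = 0 := by
      rw [map_sub, ← hw, sub_eq_zero, pow_add, pow_succ]
      simp
    have h3 := ih (by omega) _ h2
    have h4 : v = (v - y ((y ^ c) w)) + y ((y ^ c) w) := by abel
    rw [h4]
    exact add_mem h3 ⟨_, rfl⟩

theorem aeval_apply_split (y : End k V) (g : k[X]) (v : V) :
    aeval y g v = y (aeval y g.divX v) + g.coeff 0 • v := by
  conv_lhs => rw [← Polynomial.X_mul_divX_add g]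
  rw [map_add, map_mul, aeval_X, aeval_C, LinearMap.add_apply, Module.End.mul_apply,
    Module.algebraMap_end_apply]

/-- The trace identity over the truncated polynomial ring. -/
theorem trace_identity [FiniteDimensional k V] {y z a : End k V} (hy : IsNilpotent y) {j : ℕ}
    (h : ker y ≤ range (y ^ j)) (hz : y * z = z * y) (ha : y * a = a * y) (β : Dual k V)
    (hβ : ∀ v, β (y v) = 0) (e : V) (hc : ∀ v, z (a v) - a (z v) = β v • (y ^ j) e) :
    β e = 0 := by
  classical
  obtain ⟨F0, hF0⟩ := Submodule.exists_isCompl (range y)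
  let b := Module.finBasis k F0
  set m := finrank k F0
  let f : Fin m → V := fun i => (b i : V)
  have hspan : ∀ v : V, ∃ (c : Fin m → k) (w : V), v = ∑ i, c i • f i + y w := by
    intro v
    obtain ⟨⟨_, w, rfl⟩, u, rfl, -⟩ := Submodule.existsUnique_add_of_isCompl hF0 v
    refine ⟨fun i => b.repr u i, w, ?_⟩
    have := congrArg Subtype.val (b.sum_repr u)
    simp only [AddSubmonoidClass.coe_finset_sum, SetLike.val_smul] at this
    rw [this, add_comm]
  have hind : ∀ c : Fin m → k, ∑ i, c i • f i ∈ range y → ∀ i, c i = 0 := by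
    intro c hc
    have h1 : ((∑ i, c i • b i : F0) : V) ∈ range y ⊓ F0 := by
      refine ⟨?_, Subtype.property _⟩
      have : ((∑ i, c i • b i : F0) : V) = ∑ i, c i • f i := by
        simp only [AddSubmonoidClass.coe_finset_sum, SetLike.val_smul, f]
      rw [this]
      exact hc
    rw [hF0.inf_eq_bot] at h1
    have h2 : (∑ i, c i • b i : F0) = 0 := Subtype.ext h1
    exact Fintype.linearIndependent_iff.1 b.linearIndependent c h2
  let ev : (Fin m → k[X]) → V := fun x => ∑ i, aeval y (x i) (f i)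
  have ev_add : ∀ x x', ev (x + x') = ev x + ev x' := by
    intro x x'
    simp [ev, Finset.sum_add_distrib]
  have ev_sub : ∀ x x', ev (x - x') = ev x - ev x' := by
    intro x x'
    simp [ev, Finset.sum_sub_distrib]
  have ev_smul : ∀ (g : k[X]) x, ev (g • x) = aeval y g (ev x) := by
    intro g x
    simp [ev, map_sum]
  have ev_split : ∀ x, ev x = y (ev fun i => (x i).divX) + ∑ i, (x i).coeff 0 • f i := by
    intro x
    simp only [ev, map_sum, ← Finset.sum_add_distrib]
    exact Finset.sum_congr rfl fun i _ => aeval_apply_split y _ _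
  have ev_surj : ∀ v, ∃ x, ev x = v := by
    have : ∀ N : ℕ, ∀ v, ∃ x u, v = ev x + (y ^ N) u := by
      intro N
      induction N with
      | zero => intro v; exact ⟨0, v, by simp [ev]⟩
      | succ N ih =>
        intro v
        obtain ⟨x, u, rfl⟩ := ih v
        obtain ⟨c, w, rfl⟩ := hspan u
        refine ⟨x + (X ^ N : k[X]) • fun i => C (c i), w, ?_⟩
        rw [ev_add, ev_smul, map_add, pow_succ, add_assoc]
        simp [ev, Module.algebraMap_end_apply]
    obtain ⟨N, hN⟩ := hy
    intro v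
    obtain ⟨x, u, rfl⟩ := this N v
    exact ⟨x, by simp [hN]⟩
  have ev_ker : ∀ x, ev x = 0 → ∀ i, X ^ (j + 1) ∣ x i := by
    intro x hx
    have : ∀ l ≤ j + 1, ∃ x', x = (X ^ l : k[X]) • x' := by
      intro l
      induction l with
      | zero => intro _; exact ⟨x, by simp⟩
      | succ l ih =>
        intro hl
        obtain ⟨x', rfl⟩ := ih (by omega)
        rw [ev_smul] at hx
        have h1 : ev x' ∈ range y := ker_pow_le_range h l (by omega) _ (by simpa using hx)
        have h2 : ∑ i, (x' i).coeff 0 • f i ∈ range y := by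
          have h3 : ∑ i, (x' i).coeff 0 • f i = ev x' - y (ev fun i => (x' i).divX) := by
            rw [ev_split x']; abel
          rw [h3]
          exact sub_mem h1 ⟨_, rfl⟩
        have h4 := hind _ h2
        refine ⟨fun i => (x' i).divX, ?_⟩
        funext i
        have h5 := Polynomial.X_mul_divX_add (x' i)
        rw [h4 i, map_zero, add_zero] at h5
        simp only [Pi.smul_apply, smul_eq_mul]
        rw [pow_succ, mul_assoc, h5]
    obtain ⟨x', rfl⟩ := this (j + 1) le_rfl
    intro i
    exact ⟨x' i, rfl⟩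
  have hlift : ∀ c : End k V, y * c = c * y → ∃ A : Matrix (Fin m) (Fin m) k[X],
      ∀ x, ev (A.mulVec x) = c (ev x) := by
    intro c hc
    choose col hcol using fun l => ev_surj (c (f l))
    refine ⟨Matrix.of fun i l => col l i, fun x => ?_⟩
    have h1 : (Matrix.of fun i l => col l i).mulVec x = ∑ l, x l • col l := by
      funext i
      simp [Matrix.mulVec, dotProduct, mul_comm]
    have hcomm : ∀ g : k[X], aeval y g * c = c * aeval y g := by
      intro g
      induction g using Polynomial.induction_on' with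
      | add p q hp hq => rw [map_add, add_mul, mul_add, hp, hq]
      | monomial n r =>
        have : Commute y c := hc
        rw [aeval_monomial, mul_assoc, (this.pow_left n).eq, ← mul_assoc, ← mul_assoc,
          Algebra.commutes]
    have h2 : ∀ s : Finset (Fin m), ev (∑ l ∈ s, x l • col l) =
        ∑ l ∈ s, c (aeval y (x l) (f l)) := by
      intro s
      induction s using Finset.induction_on with
      | empty => simp [ev]
      | insert l s hl ih =>
        rw [Finset.sum_insert hl, Finset.sum_insert hl, ev_add, ih, ev_smul, hcol]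
        congr 1
        exact LinearMap.congr_fun (hcomm (x l)) (f l)
    rw [h1, h2]
    simp [ev, map_sum]
  obtain ⟨A, hA⟩ := hlift a ha
  obtain ⟨Z, hZ⟩ := hlift z hz
  obtain ⟨E, rfl⟩ := ev_surj e
  have hdiag : ∀ l, X ^ (j + 1) ∣ (Z * A - A * Z) l l - (C (β (f l)) * X ^ j) * E l := by
    intro l
    have h1 : ev (Pi.single l 1) = f l := by
      simp only [ev]
      rw [Finset.sum_eq_single l]
      · simp
      · intro i _ hi
        simp [Pi.single_eq_of_ne hi]
      · simp
    have h2 : ev ((Z * A - A * Z).mulVec (Pi.single l 1) - (C (β (f l)) * X ^ j : k[X]) • E) = 0 := by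
      rw [ev_sub, Matrix.sub_mulVec, ev_sub, ← Matrix.mulVec_mulVec, ← Matrix.mulVec_mulVec,
        hZ, hA, hA, hZ, h1, hc, ev_smul]
      simp [Module.algebraMap_end_apply]
    have h3 := ev_ker _ h2 l
    simpa using h3
  have hsum := Finset.dvd_sum (s := Finset.univ) fun l _ => hdiag l
  rw [Finset.sum_sub_distrib] at hsum
  have htr : ∑ l, (Z * A - A * Z) l l = 0 := by
    have : Matrix.trace (Z * A - A * Z) = 0 := by
      rw [Matrix.trace_sub, Matrix.trace_mul_comm, sub_self]
    exact this
  rw [htr, zero_sub, dvd_neg] at hsum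
  have h5 : ∑ l, C (β (f l)) * X ^ j * E l = X ^ j * ∑ l, C (β (f l)) * E l := by
    rw [Finset.mul_sum]
    exact Finset.sum_congr rfl fun l _ => by ring
  rw [h5, pow_succ, mul_dvd_mul_iff_left (pow_ne_zero j X_ne_zero), X_dvd_iff] at hsum
  rw [ev_split E, map_add, hβ, zero_add, map_sum, ← hsum, finset_sum_coeff]
  exact Finset.sum_congr rfl fun l _ => by simp [mul_comm]

end Pool.Agent.Work.MP_34725c_ag
end

-- merged part: Pool.Agent.Work.MP_34725c_ag.Lift
section
set_option autoImplicit false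

namespace Pool.Agent.Work.MP_34725c_ag

open Module LinearMap

universe u v w
variable {k : Type u} [Field k]

theorem finrank_map_add_inf_ker {E : Type v} {F : Type w} [AddCommGroup E] [Module k E]
    [AddCommGroup F] [Module k F] [FiniteDimensional k E] (Φ : E →ₗ[k] F) (P : Submodule k E) :
    finrank k (P.map Φ) + finrank k (P ⊓ ker Φ : Submodule k E) = finrank k P := by
  have h := (Φ.domRestrict P).finrank_range_add_finrank_ker
  rw [LinearMap.range_domRestrict, LinearMap.ker_domRestrict] at h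
  rw [← h]
  congr 1
  have e : (ker Φ).comap P.subtype = (P ⊓ ker Φ).comap P.subtype := by
    ext x; simp
  rw [e]
  exact (LinearEquiv.finrank_eq (Submodule.comapSubtypeEquivOfLe inf_le_left)).symm

theorem finrank_map_inj {E : Type v} {F : Type w} [AddCommGroup E] [Module k E]
    [AddCommGroup F] [Module k F] (Φ : E →ₗ[k] F) (h : Function.Injective Φ)
    (P : Submodule k E) : finrank k (P.map Φ) = finrank k P :=
  (LinearEquiv.finrank_eq (Submodule.equivMapOfInjective _ h _)).symm

variable {V : Type v} [AddCommGroup V] [Module k V] {W : Type w} [AddCommGroup W] [Module k W]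

/-- The rank one maps onto a fixed vector. -/
def rk1 (s : V) : Dual k V →ₗ[k] End k V where
  toFun β := β.smulRight s
  map_add' a b := by ext v; simp [add_smul]
  map_smul' a b := by ext v; simp [mul_smul]

theorem rk1_apply (s : V) (β : Dual k V) (v : V) : rk1 s β v = β v • s := rfl

theorem rk1_inj {s : V} (hs : s ≠ 0) : Function.Injective (rk1 (k := k) s) := by
  rw [injective_iff_map_eq_zero]
  intro β h
  ext v
  have := LinearMap.congr_fun h v
  rw [rk1_apply] at this
  simpa [hs] using this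

theorem exists_rk1 {s : V} (hs : s ≠ 0) (c : End k V) (hc : ∀ v, ∃ r : k, c v = r • s) :
    ∃ β : Dual k V, ∀ v, c v = β v • s := by
  obtain ⟨φ, hφ⟩ := Module.Projective.exists_dual_eq_one k hs
  refine ⟨φ ∘ₗ c, fun v => ?_⟩
  obtain ⟨r, hr⟩ := hc v
  simp [hr, hφ]

theorem lift_count [FiniteDimensional k V] [FiniteDimensional k W] {y z : End k V}
    (g : V →ₗ[k] W) (hg : Function.Surjective g) {s : V} (hs : s ≠ 0) (hgs : g s = 0)
    (hys : y s = 0) (hzs : z s = 0) (L : Submodule k (End k W))
    (hL : ∀ a' ∈ L, ∃ a ∈ cent y z, ∀ v, g (a v) = a' (g v)) :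
    finrank k L + finrank k (cosoc y z) ≤ finrank k (cent y z) := by
  let Φ : End k V →ₗ[k] (V →ₗ[k] W) := LinearMap.llcomp k V V W g
  let Θ : End k W →ₗ[k] (V →ₗ[k] W) := LinearMap.lcomp k W g
  have hΘ : Function.Injective Θ := by
    rw [injective_iff_map_eq_zero]
    intro a h
    ext w
    obtain ⟨v, rfl⟩ := hg w
    exact LinearMap.congr_fun h v
  have h1 : L.map Θ ≤ (cent y z).map Φ := by
    rintro _ ⟨a', ha', rfl⟩
    obtain ⟨a, ha, h⟩ := hL a' ha'
    exact ⟨a, ha, LinearMap.ext h⟩
  have h2 : (cosoc y z).map (rk1 s) ≤ cent y z ⊓ ker Φ := by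
    rintro _ ⟨β, hβ, rfl⟩
    obtain ⟨b1, b2⟩ := mem_cosoc.1 hβ
    refine ⟨⟨?_, ?_⟩, ?_⟩
    · ext v; simp [rk1_apply, hys, b1]
    · ext v; simp [rk1_apply, hzs, b2]
    · ext v
      change g (β v • s) = 0
      simp [hgs]
  have h3 := finrank_map_add_inf_ker Φ (cent y z)
  have h4 := Submodule.finrank_mono h1
  have h5 := Submodule.finrank_mono h2
  rw [finrank_map_inj _ hΘ] at h4
  rw [finrank_map_inj (rk1 s) (rk1_inj (k := k) hs) (cosoc y z)] at h5
  omega

/-- The key inequality when the socle element sits at the bottom of a smallest block. -/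
theorem case_one [FiniteDimensional k V] [FiniteDimensional k W] {y z : End k V}
    {y' z' : End k W} (hyz : y * z = z * y) (hy : IsNilpotent y) {j : ℕ}
    (h : ker y ≤ range (y ^ j)) (g : V →ₗ[k] W) (hg : Function.Surjective g) {s : V}
    (hs : s ∉ range (y ^ (j + 1))) (hker : ∀ v, g v = 0 ↔ ∃ r : k, v = r • s)
    (hys : y s = 0) (hzs : z s = 0) (gy : ∀ v, g (y v) = y' (g v))
    (gz : ∀ v, g (z v) = z' (g v)) :
    finrank k (cent y' z') + 1 ≤ finrank k (cent y z) := by
  have hs0 : s ≠ 0 := by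
    rintro rfl
    exact hs (zero_mem _)
  have hgs : g s = 0 := (hker s).2 ⟨1, by simp⟩
  obtain ⟨e, he⟩ := h (show s ∈ ker y from hys)
  let Φ : End k V →ₗ[k] (V →ₗ[k] W) := LinearMap.llcomp k V V W g
  let Θ : End k W →ₗ[k] (V →ₗ[k] W) := LinearMap.lcomp k W g
  have hΘ : Function.Injective Θ := by
    rw [injective_iff_map_eq_zero]
    intro a h
    ext w
    obtain ⟨v, rfl⟩ := hg w
    exact LinearMap.congr_fun h v
  let E : Submodule k (End k V) := cent y y ⊓ ((cent y' z').map Θ).comap Φ
  let U : Submodule k (Dual k V) := ker y.dualMap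
  have memU : ∀ β : Dual k V, β ∈ U ↔ ∀ v, β (y v) = 0 := fun β =>
    ⟨fun hβ v => LinearMap.congr_fun hβ v, fun hβ => LinearMap.ext hβ⟩
  -- lifting
  have h1 : (cent y' z').map Θ ≤ E.map Φ := by
    rintro _ ⟨a', ha', rfl⟩
    obtain ⟨σ, hσ⟩ := g.exists_rightInverse_of_surjective (LinearMap.range_eq_top.2 hg)
    have hσ' : ∀ w, g (σ w) = w := fun w => LinearMap.congr_fun hσ w
    let a0 : End k V := σ ∘ₗ a' ∘ₗ g
    have ha0 : ∀ v, g (a0 v) = a' (g v) := fun v => hσ' _
    have hya' : ∀ w, y' (a' w) = a' (y' w) := fun w => LinearMap.congr_fun ha'.1 w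
    obtain ⟨α, hα⟩ := exists_rk1 hs0 (y * a0 - a0 * y) (fun v => (hker _).1 (by
      simp [gy, ha0, hya']))
    have hα' : ∀ v, y (a0 v) = a0 (y v) + α v • s := by
      intro v
      rw [← hα]; simp
    have hpow : ∀ i : ℕ, ∀ v, (y ^ (i + 1)) (a0 v) = a0 ((y ^ (i + 1)) v) + α ((y ^ i) v) • s := by
      intro i
      induction i with
      | zero => intro v; simpa using hα' v
      | succ i ih =>
        intro v
        rw [pow_succ' y (i + 1), Module.End.mul_apply, ih, map_add, map_smul, hys, smul_zero,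
          add_zero, hα', Module.End.mul_apply]
    have hαker : ker y ≤ ker α := by
      intro v hv
      obtain ⟨w, rfl⟩ := h hv
      have h2 : (y ^ (j + 1)) w = 0 := by
        rw [pow_succ', Module.End.mul_apply]; exact hv
      have h3 := hpow j w
      rw [h2, map_zero, zero_add] at h3
      by_contra hne
      apply hs
      refine ⟨(α ((y ^ j) w))⁻¹ • a0 w, ?_⟩
      rw [map_smul, h3, smul_smul, inv_mul_cancel₀ hne, one_smul]
    obtain ⟨γ, hγ⟩ : α ∈ range y.dualMap := by
      rw [LinearMap.range_dualMap_eq_dualAnnihilator_ker, Submodule.mem_dualAnnihilator]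
      exact hαker
    have hγ' : ∀ v, γ (y v) = α v := fun v => LinearMap.congr_fun hγ v
    have hcomm : y * (a0 + rk1 s γ) = (a0 + rk1 s γ) * y := by
      ext v
      simp [rk1_apply, hys, hα', hγ']
    have hΦ : Φ (a0 + rk1 s γ) = Θ a' := by
      ext v
      change g (a0 v + γ v • s) = a' (g v)
      simp [hgs, ha0]
    exact ⟨a0 + rk1 s γ, ⟨⟨hcomm, hcomm⟩, ⟨a', ha', hΦ.symm⟩⟩, hΦ⟩
  have h2 : U.map (rk1 s) ≤ E ⊓ ker Φ := by
    rintro _ ⟨β, hβ, rfl⟩
    have b1 := (memU β).1 hβ
    have hc : y * rk1 s β = rk1 s β * y := by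
      ext v; simp [rk1_apply, hys, b1]
    have h0 : Φ (rk1 s β) = 0 := by
      ext v
      change g (β v • s) = 0
      simp [hgs]
    refine ⟨⟨⟨hc, hc⟩, ?_⟩, h0⟩
    change Φ (rk1 s β) ∈ (cent y' z').map Θ
    rw [h0]
    exact zero_mem _
  let Ψ : End k V →ₗ[k] End k V := LinearMap.mulLeft k z - LinearMap.mulRight k z
  have hΨ : ∀ a, Ψ a = z * a - a * z := fun a => rfl
  let U0 : Submodule k (Dual k V) := U ⊓ ker (Module.Dual.eval k V e)
  have h3 : E.map Ψ ≤ U0.map (rk1 s) := by
    rintro _ ⟨a, ⟨⟨ha, -⟩, ⟨a', ha', haa⟩⟩, rfl⟩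
    have ha0 : ∀ v, g (a v) = a' (g v) := fun v => (LinearMap.congr_fun haa v).symm
    have hza' : ∀ w, z' (a' w) = a' (z' w) := fun w => LinearMap.congr_fun ha'.2 w
    obtain ⟨β, hβ⟩ := exists_rk1 hs0 (z * a - a * z) (fun v => (hker _).1 (by
      simp [gz, ha0, hza']))
    have hya : ∀ v, y (a v) = a (y v) := fun v => LinearMap.congr_fun ha v
    have hyz' : ∀ v, y (z v) = z (y v) := fun v => LinearMap.congr_fun hyz v
    have b1 : ∀ v, β (y v) = 0 := by
      intro v
      have e1 := hβ (y v)
      have e2 := congrArg y (hβ v)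
      simp only [LinearMap.sub_apply, Module.End.mul_apply, map_sub, map_smul, hys, smul_zero,
        hya, hyz'] at e1 e2
      rw [e2] at e1
      simpa [hs0] using e1.symm
    have b2 : β e = 0 := trace_identity hy h hyz ha β b1 e (fun v => by
      rw [he, ← hβ]; rfl)
    exact ⟨β, ⟨(memU β).2 b1, b2⟩, LinearMap.ext fun v => (hβ v).symm⟩
  have h4 : E ⊓ ker Ψ ≤ cent y z := by
    rintro a ⟨⟨⟨ha, -⟩, -⟩, hb⟩
    exact ⟨ha, sub_eq_zero.1 hb⟩
  have h5 : U0 < U := by
    refine lt_of_le_of_ne inf_le_left fun hEq => ?_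
    have he' : e ∉ range y := by
      rintro ⟨w, rfl⟩
      exact hs ⟨w, by rw [pow_succ, Module.End.mul_apply, he]⟩
    obtain ⟨φ, hφ1, hφ2⟩ := (range y).exists_dual_map_eq_bot_of_notMem he' inferInstance
    have hφU : φ ∈ U := (memU φ).2 fun v => by
      have : φ (y v) ∈ (range y).map φ := ⟨y v, ⟨v, rfl⟩, rfl⟩
      rwa [hφ2] at this
    rw [← hEq] at hφU
    exact hφ1 hφU.2
  have k1 := finrank_map_add_inf_ker Φ E
  have k2 := finrank_map_add_inf_ker Ψ E
  have k3 := Submodule.finrank_mono h1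
  have k4 := Submodule.finrank_mono h2
  have k5 := Submodule.finrank_mono h3
  have k6 := Submodule.finrank_mono h4
  have k7 := Submodule.finrank_lt_finrank_of_lt h5
  rw [finrank_map_inj _ hΘ] at k3
  rw [finrank_map_inj (rk1 s) (rk1_inj (k := k) hs0) U] at k4
  rw [finrank_map_inj (rk1 s) (rk1_inj (k := k) hs0) U0] at k5
  omega

/-- If the socle is at most a line, the algebra generated by the pair is as large as the space. -/
theorem finrank_le_adjoin [FiniteDimensional k W] {y z : End k W} (hyz : y * z = z * y)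
    (hy : IsNilpotent y) (hz : IsNilpotent z) (hν : finrank k (soc y z) ≤ 1) :
    finrank k W ≤ finrank k (Subalgebra.toSubmodule (Algebra.adjoin k {y, z})) := by
  set A := Algebra.adjoin k ({y, z} : Set (End k W))
  have hyA : y ∈ A := Algebra.subset_adjoin (by simp)
  have hzA : z ∈ A := Algebra.subset_adjoin (by simp)
  obtain ⟨φ, hφ⟩ : ∃ φ : Dual k W, ∀ v ∈ soc y z, φ v = 0 → v = 0 := by
    obtain ⟨⟨s, hs⟩, h⟩ := finrank_le_one_iff.1 hν
    by_cases hs0 : s = 0
    · refine ⟨0, fun v hv _ => ?_⟩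
      obtain ⟨r, hr⟩ := h ⟨v, hv⟩
      have := congrArg Subtype.val hr
      simpa [hs0] using this.symm
    · obtain ⟨φ, hφ⟩ := Module.Projective.exists_dual_eq_one k hs0
      refine ⟨φ, fun v hv h0 => ?_⟩
      obtain ⟨r, hr⟩ := h ⟨v, hv⟩
      have h1 : r • s = v := congrArg Subtype.val hr
      rw [← h1, map_smul, hφ, smul_eq_mul, mul_one] at h0
      rw [← h1, h0, zero_smul]
  let F : W →ₗ[k] Dual k (Subalgebra.toSubmodule A) :=
    { toFun := fun v => φ ∘ₗ (LinearMap.applyₗ v) ∘ₗ (Subalgebra.toSubmodule A).subtype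
      map_add' := by intro a b; ext x; simp
      map_smul' := by intro a b; ext x; simp }
  have hF : Function.Injective F := by
    rw [injective_iff_map_eq_zero]
    intro v hv
    have hv' : ∀ a ∈ A, φ (a v) = 0 := fun a ha => LinearMap.congr_fun hv ⟨a, ha⟩
    by_contra hne
    -- descend to the socle
    obtain ⟨N, hN⟩ := hy
    obtain ⟨M, hM⟩ := hz
    have step : ∀ (x : End k W) (n : ℕ), x ^ n = 0 → ∀ u, u ≠ 0 →
        ∃ i, (x ^ i) u ≠ 0 ∧ x ((x ^ i) u) = 0 := by
      intro x n hn u hu
      by_contra hcon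
      push Not at hcon
      have : ∀ i, (x ^ i) u ≠ 0 := by
        intro i
        induction i with
        | zero => simpa using hu
        | succ i ih => rw [pow_succ', Module.End.mul_apply]; exact hcon i ih
      exact this n (by simp [hn])
    obtain ⟨i, hi1, hi2⟩ := step y N hN v hne
    obtain ⟨l, hl1, hl2⟩ := step z M hM _ hi1
    have hc : Commute y z := hyz
    refine hl1 (hφ _ ⟨?_, hl2⟩ ?_)
    · change y ((z ^ l) ((y ^ i) v)) = 0
      rw [← Module.End.mul_apply, (hc.pow_right l).eq, Module.End.mul_apply, hi2, map_zero]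
    · exact hv' (z ^ l * y ^ i) (mul_mem (pow_mem hzA l) (pow_mem hyA i))
  have := LinearMap.finrank_le_finrank_of_injective hF
  rwa [Subspace.dual_finrank_eq] at this

theorem adjoin_lift {y z : End k V} {y' z' : End k W} (hyz : y * z = z * y) (g : V →ₗ[k] W)
    (gy : ∀ v, g (y v) = y' (g v)) (gz : ∀ v, g (z v) = z' (g v)) (a' : End k W)
    (ha' : a' ∈ Algebra.adjoin k ({y', z'} : Set (End k W))) :
    ∃ a ∈ cent y z, ∀ v, g (a v) = a' (g v) := by
  induction ha' using Algebra.adjoin_induction with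
  | mem x hx =>
    rcases hx with rfl | rfl
    · exact ⟨y, ⟨rfl, hyz.symm⟩, gy⟩
    · exact ⟨z, ⟨hyz, rfl⟩, gz⟩
  | algebraMap r =>
    refine ⟨algebraMap k _ r, ⟨(Algebra.commutes r y).symm, (Algebra.commutes r z).symm⟩, ?_⟩
    intro v
    simp [Module.algebraMap_end_apply]
  | add a b _ _ ha hb =>
    obtain ⟨a, ha1, ha2⟩ := ha
    obtain ⟨b, hb1, hb2⟩ := hb
    exact ⟨a + b, add_mem ha1 hb1, fun v => by simp [ha2, hb2]⟩
  | mul a b _ _ ha hb =>
    obtain ⟨a, ha1, ha2⟩ := ha
    obtain ⟨b, hb1, hb2⟩ := hb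
    refine ⟨a * b, ⟨?_, ?_⟩, fun v => by simp [ha2, hb2]⟩
    · rw [← mul_assoc, ha1.1, mul_assoc, hb1.1, mul_assoc]
    · rw [← mul_assoc, ha1.2, mul_assoc, hb1.2, mul_assoc]

end Pool.Agent.Work.MP_34725c_ag
end

-- merged part: Pool.Agent.Work.MP_34725c_ag.Deform
section
set_option autoImplicit false

namespace Pool.Agent.Work.MP_34725c_ag

open Module LinearMap

universe u v w
variable {k : Type u} [Field k]
variable {V : Type v} [AddCommGroup V] [Module k V] {W : Type w} [AddCommGroup W] [Module k W]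

theorem isNilpotent_of_semiconj {x : End k V} {x' : End k W} (g : V →ₗ[k] W)
    (hg : Function.Surjective g) (h : ∀ v, g (x v) = x' (g v)) (hx : IsNilpotent x) :
    IsNilpotent x' := by
  obtain ⟨n, hn⟩ := hx
  have : ∀ i : ℕ, ∀ v, g ((x ^ i) v) = (x' ^ i) (g v) := by
    intro i
    induction i with
    | zero => intro v; simp
    | succ i ih => intro v; rw [pow_succ', pow_succ', Module.End.mul_apply, h, ih]; rfl
  refine ⟨n, LinearMap.ext fun w => ?_⟩
  obtain ⟨v, rfl⟩ := hg w
  rw [← this, hn]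
  simp

theorem exists_block {y : End k V} (hy : IsNilpotent y) {s : V} (hs : s ≠ 0) (hys : y s = 0) :
    ∃ j : ℕ, ker y ≤ range (y ^ j) ∧ ¬ ker y ≤ range (y ^ (j + 1)) := by
  by_contra hcon
  push Not at hcon
  have : ∀ j : ℕ, ker y ≤ range (y ^ j) := by
    intro j
    induction j with
    | zero => intro v _; exact ⟨v, by simp⟩
    | succ j ih => exact hcon j ih
  obtain ⟨n, hn⟩ := hy
  obtain ⟨w, hw⟩ := this n (show s ∈ ker y from hys)
  rw [hn] at hw
  exact hs (by simpa using hw.symm)

theorem exists_pi_aux (y ρ : End k V) (j : ℕ) : ∃ π : End k V,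
    y * π - π * y = y ^ (j + 1) * ρ - ρ * y ^ (j + 1) ∧
    (∀ s, y s = 0 → ρ s = 0 → π s = 0) ∧ ∀ v, π v - ρ ((y ^ j) v) ∈ range y := by
  induction j with
  | zero => exact ⟨ρ, by simp, fun s _ h => h, fun v => by simp⟩
  | succ j ih =>
    obtain ⟨π, h1, h2, h3⟩ := ih
    refine ⟨y * π + ρ * y ^ (j + 1), ?_, ?_, ?_⟩
    · have : y * (y * π + ρ * y ^ (j + 1)) - (y * π + ρ * y ^ (j + 1)) * y =
        y * (y * π - π * y) + y * (ρ * y ^ (j + 1)) - ρ * y ^ (j + 1) * y := by noncomm_ring
      rw [this, h1, pow_succ' y (j + 1), mul_assoc ρ, ← pow_succ, pow_succ' y (j + 1)]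
      noncomm_ring
    · intro s hs hρ
      simp [h2 s hs hρ, pow_succ, hs]
    · intro v
      exact ⟨π v, by simp⟩

/-- The deformation direction: a projection onto a smallest block. -/
theorem exists_pi [FiniteDimensional k V] {y : End k V} {j : ℕ} (h1 : ker y ≤ range (y ^ j))
    (h2 : ¬ ker y ≤ range (y ^ (j + 1))) : ∃ π : End k V, y * π = π * y ∧
    (∀ s, y s = 0 → s ∈ range (y ^ (j + 1)) → π s = 0) ∧
    (∀ v, π v ∈ range y ⊔ ker (y ^ (j + 1))) ∧
    ∀ z : End k V, y * z = z * y → IsNilpotent z → ∀ t : k, t ≠ 0 →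
      ¬ IsNilpotent (z + t • π) := by
  obtain ⟨s0, hs1, hs2⟩ := Set.not_subset.1 h2
  obtain ⟨e, rfl⟩ := h1 hs1
  obtain ⟨φ0, hφ1, hφ2⟩ := (range (y ^ (j + 1))).exists_dual_map_eq_bot_of_notMem hs2 inferInstance
  let φ : Dual k V := (φ0 ((y ^ j) e))⁻¹ • φ0
  have hφe : φ ((y ^ j) e) = 1 := inv_mul_cancel₀ hφ1
  have hφ0 : ∀ v ∈ range (y ^ (j + 1)), φ v = 0 := by
    intro v hv
    have : φ0 v ∈ (range (y ^ (j + 1))).map φ0 := ⟨v, hv, rfl⟩
    rw [hφ2, Submodule.mem_bot] at this
    simp [φ, this]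
  have he : (y ^ (j + 1)) e = 0 := by
    rw [pow_succ', Module.End.mul_apply]; exact hs1
  obtain ⟨π, p1, p2, p3⟩ := exists_pi_aux y (rk1 e φ) j
  refine ⟨π, ?_, ?_, ?_, ?_⟩
  · rw [← sub_eq_zero, p1]
    ext v
    simp [rk1_apply, he, hφ0 _ ⟨v, rfl⟩]
  · intro s hs hs'
    exact p2 s hs (by simp [rk1_apply, hφ0 s hs'])
  · intro v
    have : π v = (π v - rk1 e φ ((y ^ j) v)) + φ ((y ^ j) v) • e := by
      simp [rk1_apply]
    rw [this]
    exact Submodule.add_mem_sup (p3 v) (Submodule.smul_mem _ _ he)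
  · intro z hz hzn t ht hn
    have hyz : ∀ v, y (z v) = z (y v) := fun v => LinearMap.congr_fun hz v
    let zb : End k (V ⧸ range y) := (range y).mapQ (range y) z (by
      rintro _ ⟨v, rfl⟩
      exact ⟨z v, hyz v⟩)
    let μ : Dual k (V ⧸ range y) := (range y).liftQ (φ ∘ₗ (y ^ j)) (by
      rintro _ ⟨v, rfl⟩
      exact hφ0 _ ⟨v, by rw [pow_succ, Module.End.mul_apply]⟩)
    have hzb : IsNilpotent zb :=
      isNilpotent_of_semiconj (range y).mkQ (range y).mkQ_surjective (fun v => rfl) hzn
    have hwb : IsNilpotent (zb + t • μ.smulRight ((range y).mkQ e)) := by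
      refine isNilpotent_of_semiconj (range y).mkQ (range y).mkQ_surjective (fun v => ?_) hn
      have h3 : (range y).mkQ (π v) = φ ((y ^ j) v) • (range y).mkQ e := by
        rw [← map_smul]
        exact (Submodule.Quotient.eq _).2 (p3 v)
      rw [LinearMap.add_apply, LinearMap.smul_apply, map_add, map_smul, h3]
      rfl
    have t1 := (LinearMap.isNilpotent_trace_of_isNilpotent hzb).eq_zero
    have t2 := (LinearMap.isNilpotent_trace_of_isNilpotent hwb).eq_zero
    rw [map_add, map_smul, t1, LinearMap.trace_smulRight, zero_add] at t2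
    have t3 : μ ((range y).mkQ e) = 1 := hφe
    rw [t3, smul_eq_mul, mul_one] at t2
    exact ht t2

/-- Fitting decomposition for an operator commuting with the pair. -/
theorem fitting [FiniteDimensional k V] {y z w : End k V} (hy : y * w = w * y)
    (hz : z * w = w * z) (hw : ¬ IsNilpotent w) :
    ∃ (p q : Submodule k V), IsCompl p q ∧ (∀ x ∈ p, y x ∈ p) ∧ (∀ x ∈ p, z x ∈ p) ∧
      (∀ x ∈ q, y x ∈ q) ∧ (∀ x ∈ q, z x ∈ q) ∧ ker w ≤ p ∧ q ≤ range w ∧ q ≠ ⊥ := by
  obtain ⟨N, hN⟩ := Filter.eventually_atTop.1 (LinearMap.eventually_isCompl_ker_pow_range_pow w)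
  have hy' : ∀ v, y ((w ^ (N + 1)) v) = (w ^ (N + 1)) (y v) := fun v =>
    LinearMap.congr_fun ((show Commute y w from hy).pow_right (N + 1)).eq v
  have hz' : ∀ v, z ((w ^ (N + 1)) v) = (w ^ (N + 1)) (z v) := fun v =>
    LinearMap.congr_fun ((show Commute z w from hz).pow_right (N + 1)).eq v
  refine ⟨ker (w ^ (N + 1)), range (w ^ (N + 1)), hN _ (by omega), ?_, ?_, ?_, ?_, ?_, ?_, ?_⟩
  · intro x hx
    rw [mem_ker] at hx ⊢
    rw [← hy', hx, map_zero]
  · intro x hx
    rw [mem_ker] at hx ⊢
    rw [← hz', hx, map_zero]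
  · rintro _ ⟨v, rfl⟩
    exact ⟨y v, (hy' v).symm⟩
  · rintro _ ⟨v, rfl⟩
    exact ⟨z v, (hz' v).symm⟩
  · intro x hx
    rw [mem_ker] at hx ⊢
    rw [pow_succ, Module.End.mul_apply, hx, map_zero]
  · rintro _ ⟨v, rfl⟩
    exact ⟨(w ^ N) v, by rw [pow_succ', Module.End.mul_apply]⟩
  · intro h
    exact hw ⟨N + 1, LinearMap.range_eq_bot.1 h⟩

theorem restrict_comm {y z : End k V} (h : y * z = z * y) {p : Submodule k V}
    (yp : ∀ x ∈ p, y x ∈ p) (zp : ∀ x ∈ p, z x ∈ p) :
    y.restrict yp * z.restrict zp = z.restrict zp * y.restrict yp := by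
  ext v
  exact LinearMap.congr_fun h v

theorem exists_common_eigenvector [IsAlgClosed k] [FiniteDimensional k V] [Nontrivial V]
    {y z : End k V} (h : y * z = z * y) :
    ∃ (c d : k) (s : V), s ≠ 0 ∧ (y - c • (1 : End k V)) s = 0 ∧ (z - d • (1 : End k V)) s = 0 := by
  obtain ⟨c, hc⟩ := Module.End.exists_eigenvalue y
  have hz : ∀ x ∈ y.eigenspace c, z x ∈ y.eigenspace c := by
    intro x hx
    rw [Module.End.mem_eigenspace_iff] at hx ⊢
    have := LinearMap.congr_fun h x
    simp only [Module.End.mul_apply] at this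
    rw [this, hx, map_smul]
  have : Nontrivial (y.eigenspace c) := Submodule.nontrivial_iff_ne_bot.2 hc
  obtain ⟨d, hd⟩ := Module.End.exists_eigenvalue (z.restrict hz : End k (y.eigenspace c))
  obtain ⟨⟨s, hs⟩, hs1, hs2⟩ := hd.exists_hasEigenvector
  rw [Module.End.mem_eigenspace_iff] at hs1
  refine ⟨c, d, s, fun h0 => hs2 (Subtype.ext h0), ?_, ?_⟩
  · rw [Module.End.mem_eigenspace_iff] at hs
    simp [hs]
  · have : z s = d • s := congrArg Subtype.val hs1
    simp [this]

end Pool.Agent.Work.MP_34725c_ag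
end

-- merged part: Pool.Agent.Work.MP_34725c_ag.Pair
section
set_option autoImplicit false

namespace Pool.Agent.Work.MP_34725c_ag

open Module LinearMap

universe u
variable {k : Type u} [Field k]

theorem exists_quot {V : Type u} [AddCommGroup V] [Module k V] [FiniteDimensional k V]
    {y z : End k V} (hyz : y * z = z * y) {s : V} (hs : s ≠ 0) (hys : y s = 0) (hzs : z s = 0) :
    ∃ (W : Type u) (_ : AddCommGroup W) (_ : Module k W) (_ : FiniteDimensional k W)
      (y' z' : End k W) (g : V →ₗ[k] W), Function.Surjective g ∧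
      (∀ v, g v = 0 ↔ ∃ r : k, v = r • s) ∧ (∀ v, g (y v) = y' (g v)) ∧
      (∀ v, g (z v) = z' (g v)) ∧ y' * z' = z' * y' ∧ finrank k W + 1 = finrank k V := by
  have hy : (k ∙ s) ≤ (k ∙ s).comap y := by
    rw [Submodule.span_singleton_le_iff_mem, Submodule.mem_comap, hys]; exact zero_mem _
  have hz : (k ∙ s) ≤ (k ∙ s).comap z := by
    rw [Submodule.span_singleton_le_iff_mem, Submodule.mem_comap, hzs]; exact zero_mem _
  refine ⟨V ⧸ (k ∙ s), inferInstance, inferInstance, inferInstance,
    (k ∙ s).mapQ (k ∙ s) y hy, (k ∙ s).mapQ (k ∙ s) z hz, (k ∙ s).mkQ, (k ∙ s).mkQ_surjective,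
    ?_, fun v => rfl, fun v => rfl, ?_, ?_⟩
  · intro v
    rw [Submodule.mkQ_apply, Submodule.Quotient.mk_eq_zero, Submodule.mem_span_singleton]
    exact ⟨fun ⟨r, hr⟩ => ⟨r, hr.symm⟩, fun ⟨r, hr⟩ => ⟨r, hr.symm⟩⟩
  · refine LinearMap.ext fun w => ?_
    obtain ⟨v, rfl⟩ := (k ∙ s).mkQ_surjective w
    exact congrArg (k ∙ s).mkQ (LinearMap.congr_fun hyz v)
  · rw [← Submodule.finrank_quotient_add_finrank (k ∙ s), finrank_span_singleton hs]

theorem exists_good_t [Infinite k] {V : Type u} [AddCommGroup V] [Module k V]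
    [FiniteDimensional k V] (y z π : End k V) :
    ∃ t : k, t ≠ 0 ∧ finrank k (cent y (z + t • π)) ≤ finrank k (cent y z) := by
  obtain ⟨t, ht⟩ := ((pencil_cent y z π).insert 0).exists_notMem
  rw [Set.mem_insert_iff, not_or] at ht
  exact ⟨t, ht.1, not_lt.1 ht.2⟩

/-- The centralizer of a commuting pair is at least as large as the space. -/
theorem thmA [IsAlgClosed k] (n : ℕ) : ∀ (V : Type u) [AddCommGroup V] [Module k V]
    [FiniteDimensional k V], finrank k V = n → ∀ y z : End k V, y * z = z * y →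
      finrank k V ≤ finrank k (cent y z) := by
  induction n using Nat.strong_induction_on with
  | _ n ih =>
  intro V _ _ _ hn
  have split : ∀ (y z w : End k V), y * z = z * y → y * w = w * y → z * w = w * z →
      ¬ IsNilpotent w → ∀ s : V, s ≠ 0 → w s = 0 → finrank k V ≤ finrank k (cent y z) := by
    intro y z w hyz hy hz hw s hs hws
    obtain ⟨p, q, hc, yp, zp, yq, zq, h1, -, h2⟩ := fitting hy hz hw
    have e := Submodule.finrank_add_eq_of_isCompl hc
    have hp : p ≠ ⊥ := fun h => hs (by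
      have : s ∈ p := h1 hws
      rwa [h] at this)
    have hp' : 0 < finrank k p := by
      have := Submodule.nontrivial_iff_ne_bot.2 hp
      exact finrank_pos
    have hq' : 0 < finrank k q := by
      have := Submodule.nontrivial_iff_ne_bot.2 h2
      exact finrank_pos
    have a1 := ih _ (by omega) p rfl _ _ (restrict_comm hyz yp zp)
    have a2 := ih _ (by omega) q rfl _ _ (restrict_comm hyz yq zq)
    have a3 := cent_isCompl y z p q hc yp zp yq zq
    omega
  have main : ∀ (y z : End k V), y * z = z * y → ∀ s : V, s ≠ 0 → y s = 0 → z s = 0 →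
      finrank k V ≤ finrank k (cent y z) := by
    intro y z hyz s hs hys hzs
    by_cases hy : IsNilpotent y
    swap
    · exact split y z y hyz rfl hyz.symm hy s hs hys
    by_cases hz : IsNilpotent z
    swap
    · exact split y z z hyz hyz rfl hz s hs hzs
    obtain ⟨j, h1, h2⟩ := exists_block hy hs hys
    by_cases hsj : s ∈ range (y ^ (j + 1))
    · obtain ⟨π, p1, p2, -, p4⟩ := exists_pi h1 h2
      obtain ⟨t, ht, hle⟩ := exists_good_t y z π
      have hc : y * (z + t • π) = (z + t • π) * y := by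
        rw [mul_add, add_mul, hyz, mul_smul_comm, smul_mul_assoc, p1]
      refine le_trans (split y _ _ hc hc rfl (p4 z hyz hz t ht) s hs ?_) hle
      simp [hzs, p2 s hys hsj]
    · obtain ⟨W, _, _, _, y', z', g, g1, g2, g3, g4, g5, g6⟩ := exists_quot hyz hs hys hzs
      have a1 := case_one hyz hy h1 g g1 hsj g2 hys hzs g3 g4
      have a2 := ih _ (by omega) W rfl y' z' g5
      omega
  intro y z hyz
  rcases subsingleton_or_nontrivial V with hV | hV
  · rw [finrank_zero_of_subsingleton]; exact Nat.zero_le _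
  obtain ⟨c, d, s, hs, h1, h2⟩ := exists_common_eigenvector hyz
  rw [← cent_shift y z c d]
  refine main _ _ ?_ s hs h1 h2
  simp only [sub_mul, mul_sub, smul_mul_assoc, mul_smul_comm, one_mul, mul_one, hyz, smul_sub,
    smul_smul, mul_comm c d]
  abel

theorem thmA' [IsAlgClosed k] {V : Type u} [AddCommGroup V] [Module k V] [FiniteDimensional k V]
    {y z : End k V} (h : y * z = z * y) : finrank k V ≤ finrank k (cent y z) :=
  thmA _ V rfl y z h

/-- The step of the main induction which passes to the quotient by a socle element. -/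
theorem stepB [IsAlgClosed k] {V : Type u} [AddCommGroup V] [Module k V] [FiniteDimensional k V]
    (ih : ∀ (W : Type u) [AddCommGroup W] [Module k W] [FiniteDimensional k W],
      finrank k W < finrank k V → ∀ y z : End k W, y * z = z * y → 2 ≤ finrank k (soc y z) →
        2 ≤ finrank k (cosoc y z) → finrank k W + 1 ≤ finrank k (cent y z))
    {y z : End k V} (hyz : y * z = z * y) (hy : IsNilpotent y) (hz : IsNilpotent z)
    (hμ : 2 ≤ finrank k (cosoc y z)) {j : ℕ} (h1 : ker y ≤ range (y ^ j)) {s : V}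
    (hs : s ∈ soc y z) (hsj : s ∉ range (y ^ (j + 1))) :
    finrank k V + 1 ≤ finrank k (cent y z) := by
  have hs0 : s ≠ 0 := by
    rintro rfl
    exact hsj (zero_mem _)
  obtain ⟨hys, hzs⟩ := mem_soc.1 hs
  obtain ⟨W, _, _, _, y', z', g, g1, g2, g3, g4, g5, g6⟩ := exists_quot hyz hs0 hys hzs
  have hgs : g s = 0 := (g2 s).2 ⟨1, by simp⟩
  by_cases hsplit : ∃ φ ∈ cosoc y z, φ s ≠ 0
  · obtain ⟨φ0, hφ0, hφs⟩ := hsplit
    obtain ⟨b1, b2⟩ := mem_cosoc.1 (Submodule.smul_mem _ (φ0 s)⁻¹ hφ0)
    set φ := (φ0 s)⁻¹ • φ0 with hφ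
    have hφ1 : φ s = 1 := inv_mul_cancel₀ hφs
    obtain ⟨σ, hσ⟩ := g.exists_rightInverse_of_surjective (LinearMap.range_eq_top.2 g1)
    have hσ' : ∀ w, g (σ w) = w := fun w => LinearMap.congr_fun hσ w
    let ι : W →ₗ[k] V := (1 - rk1 s φ) ∘ₗ σ
    have hι : ∀ v, ι (g v) = v - φ v • s := by
      intro v
      obtain ⟨r, hr⟩ := (g2 (σ (g v) - v)).1 (by rw [map_sub, hσ', sub_self])
      have : σ (g v) = v + r • s := by rw [← hr]; abel
      change σ (g v) - φ (σ (g v)) • s = _
      rw [this, map_add, map_smul, hφ1, smul_eq_mul, mul_one, add_smul]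
      abel
    have hgι : ∀ w, g (ι w) = w := by
      intro w
      obtain ⟨v, rfl⟩ := g1 w
      rw [hι, map_sub, map_smul, hgs, smul_zero, sub_zero]
    have hyι : ∀ w, y (ι w) = ι (y' w) := by
      intro w
      obtain ⟨v, rfl⟩ := g1 w
      rw [← g3, hι, hι, map_sub, map_smul, hys, b1, smul_zero, zero_smul]
    have hzι : ∀ w, z (ι w) = ι (z' w) := by
      intro w
      obtain ⟨v, rfl⟩ := g1 w
      rw [← g4, hι, hι, map_sub, map_smul, hzs, b2, smul_zero, zero_smul]
    have a1 := lift_count g g1 hs0 hgs hys hzs (cent y' z') (fun a' ha' => by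
      have c1 : ∀ w, y' (a' w) = a' (y' w) := fun w => LinearMap.congr_fun ha'.1 w
      have c2 : ∀ w, z' (a' w) = a' (z' w) := fun w => LinearMap.congr_fun ha'.2 w
      refine ⟨ι ∘ₗ a' ∘ₗ g, ⟨?_, ?_⟩, fun v => hgι _⟩
      · ext v
        simp [hyι, g3, c1]
      · ext v
        simp [hzι, g4, c2])
    have a2 := thmA' g5
    omega
  by_cases hν : finrank k (soc y' z') ≤ 1
  · have a1 := lift_count g g1 hs0 hgs hys hzs
      (Subalgebra.toSubmodule (Algebra.adjoin k {y', z'}))
      (fun a' ha' => adjoin_lift hyz g g3 g4 a' ha')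
    have a2 := finrank_le_adjoin g5 (isNilpotent_of_semiconj g g1 g3 hy)
      (isNilpotent_of_semiconj g g1 g4 hz) hν
    omega
  · push Not at hsplit
    have hle : cosoc y z ≤ (cosoc y' z').map g.dualMap := by
      intro φ hφ
      obtain ⟨b1, b2⟩ := mem_cosoc.1 hφ
      obtain ⟨ψ, hψ⟩ : φ ∈ range g.dualMap := by
        rw [LinearMap.range_dualMap_eq_dualAnnihilator_ker, Submodule.mem_dualAnnihilator]
        intro v hv
        obtain ⟨r, rfl⟩ := (g2 v).1 hv
        rw [map_smul, hsplit φ hφ, smul_zero]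
      have hψ' : ∀ v, ψ (g v) = φ v := fun v => LinearMap.congr_fun hψ v
      refine ⟨ψ, mem_cosoc.2 ⟨fun w => ?_, fun w => ?_⟩, hψ⟩
      · obtain ⟨v, rfl⟩ := g1 w
        rw [← g3, hψ', b1]
      · obtain ⟨v, rfl⟩ := g1 w
        rw [← g4, hψ', b2]
    have a0 := (Submodule.finrank_mono hle).trans (Submodule.finrank_map_le _ _)
    have a1 := case_one hyz hy h1 g g1 hsj g2 hys hzs g3 g4
    have a2 := ih W (by omega) y' z' g5 (by omega) (by omega)
    omega

/-- A commuting pair which is neither cyclic nor cocyclic at the origin has a centralizer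
strictly larger than the space. -/
theorem thmB [IsAlgClosed k] (n : ℕ) : ∀ (V : Type u) [AddCommGroup V] [Module k V]
    [FiniteDimensional k V], finrank k V = n → ∀ y z : End k V, y * z = z * y →
      2 ≤ finrank k (soc y z) → 2 ≤ finrank k (cosoc y z) →
        finrank k V + 1 ≤ finrank k (cent y z) := by
  induction n using Nat.strong_induction_on with
  | _ n ih =>
  intro V _ _ _ hn
  have split : ∀ (y z w : End k V), y * z = z * y → y * w = w * y → z * w = w * z →
      ¬ IsNilpotent w → 2 ≤ finrank k (soc y z) → 2 ≤ finrank k (cosoc y z) →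
      soc y z ≤ ker w → (∀ φ ∈ cosoc y z, ∀ v, φ (w v) = 0) →
      finrank k V + 1 ≤ finrank k (cent y z) := by
    intro y z w hyz hy hz hw hν hμ hsw hcw
    obtain ⟨p, q, hc, yp, zp, yq, zq, h1, h3, h2⟩ := fitting hy hz hw
    have e := Submodule.finrank_add_eq_of_isCompl hc
    have hq' : 0 < finrank k q := by
      have := Submodule.nontrivial_iff_ne_bot.2 h2
      exact finrank_pos
    have b1 : soc y z ≤ (soc (y.restrict yp) (z.restrict zp)).map p.subtype := by
      intro s hs
      exact ⟨⟨s, h1 (hsw hs)⟩, ⟨Subtype.ext hs.1, Subtype.ext hs.2⟩, rfl⟩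
    have b2 := (Submodule.finrank_mono b1).trans (Submodule.finrank_map_le _ _)
    have b3 : (cosoc y z).map p.subtype.dualMap ≤ cosoc (y.restrict yp) (z.restrict zp) := by
      rintro _ ⟨φ, hφ, rfl⟩
      obtain ⟨c1, c2⟩ := mem_cosoc.1 hφ
      exact mem_cosoc.2 ⟨fun v => c1 v, fun v => c2 v⟩
    have b4 : cosoc y z ⊓ ker p.subtype.dualMap = ⊥ := by
      rw [eq_bot_iff]
      rintro φ ⟨hφ, hφ'⟩
      rw [Submodule.mem_bot]
      ext v
      obtain ⟨a, b, rfl, -⟩ := Submodule.existsUnique_add_of_isCompl hc v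
      have d1 : φ a = 0 := LinearMap.congr_fun hφ' a
      obtain ⟨u, hu⟩ := h3 b.2
      rw [map_add, d1, ← hu, hcw φ hφ]
      simp
    have b5 := finrank_map_add_inf_ker p.subtype.dualMap (cosoc y z)
    rw [b4, finrank_bot] at b5
    have b6 := Submodule.finrank_mono b3
    have a1 := ih _ (by omega) p rfl _ _ (restrict_comm hyz yp zp) (by omega) (by omega)
    have a2 := thmA' (restrict_comm hyz yq zq)
    have a3 := cent_isCompl y z p q hc yp zp yq zq
    omega
  intro y z hyz hν hμ
  by_cases hy : IsNilpotent y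
  swap
  · exact split y z y hyz rfl hyz.symm hy hν hμ inf_le_left fun φ hφ => (mem_cosoc.1 hφ).1
  by_cases hz : IsNilpotent z
  swap
  · exact split y z z hyz hyz rfl hz hν hμ inf_le_right fun φ hφ => (mem_cosoc.1 hφ).2
  have : Nontrivial (soc y z) := Module.nontrivial_of_finrank_pos (R := k) (by omega)
  obtain ⟨⟨s0, hs0⟩, hs1⟩ := exists_ne (0 : soc y z)
  obtain ⟨j, h1, h2⟩ := exists_block hy (s := s0) (fun h => hs1 (Subtype.ext h)) hs0.1
  by_cases c1 : ∃ s ∈ soc y z, s ∉ range (y ^ (j + 1))
  · obtain ⟨s, hs, hsj⟩ := c1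
    exact stepB (fun W _ _ _ hW => ih _ (by omega) W rfl) hyz hy hz hμ h1 hs hsj
  by_cases c2 : ∃ φ ∈ cosoc y z, ∃ v, (y ^ (j + 1)) v = 0 ∧ φ v ≠ 0
  · obtain ⟨φ, hφ, v, hv1, hv2⟩ := c2
    have hpow : ∀ (x : End k V) (i : ℕ), (x.dualMap : End k (Dual k V)) ^ i = (x ^ i).dualMap := by
      intro x i
      induction i with
      | zero => ext; simp
      | succ i ih => rw [pow_succ', ih, pow_succ]; ext; simp
    have hnil : ∀ x : End k V, IsNilpotent x → IsNilpotent (x.dualMap : End k (Dual k V)) := by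
      rintro x ⟨N, hN⟩
      exact ⟨N, by rw [hpow, hN]; ext; simp⟩
    have hd : finrank k (Dual k V) = finrank k V := Subspace.dual_finrank_eq
    have := stepB (V := Dual k V) (fun W _ _ _ hW => ih _ (by omega) W rfl)
      (y := y.dualMap) (z := z.dualMap) (j := j) (s := φ) ?_ (hnil y hy) (hnil z hz)
      (by rw [cosoc_dual]; exact hν) ?_ hφ ?_
    · rwa [cent_dual, hd] at this
    · ext ψ v
      exact congrArg ψ (LinearMap.congr_fun hyz v).symm
    · intro ψ hψ
      rw [hpow, LinearMap.range_dualMap_eq_dualAnnihilator_ker, Submodule.mem_dualAnnihilator]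
      intro w hw
      obtain ⟨u, rfl⟩ := ker_pow_le_range h1 j le_rfl w hw
      exact LinearMap.congr_fun hψ u
    · rw [hpow, LinearMap.range_dualMap_eq_dualAnnihilator_ker, Submodule.mem_dualAnnihilator]
      intro h
      exact hv2 (h v hv1)
  push Not at c1 c2
  obtain ⟨π, p1, p2, p3, p4⟩ := exists_pi h1 h2
  obtain ⟨t, ht, hle⟩ := exists_good_t y z π
  have hc : y * (z + t • π) = (z + t • π) * y := by
    rw [mul_add, add_mul, hyz, mul_smul_comm, smul_mul_assoc, p1]
  have d1 : soc y z ≤ soc y (z + t • π) := by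
    intro s hs
    refine ⟨hs.1, ?_⟩
    change z s + t • π s = 0
    rw [hs.2, p2 s hs.1 (c1 s hs), smul_zero, add_zero]
  have d2 : cosoc y z ≤ cosoc y (z + t • π) := by
    intro φ hφ
    obtain ⟨b1, b2⟩ := mem_cosoc.1 hφ
    refine mem_cosoc.2 ⟨b1, fun v => ?_⟩
    obtain ⟨_, ⟨a, rfl⟩, b, hb, hab⟩ := Submodule.mem_sup.1 (p3 v)
    change φ (z v + t • π v) = 0
    rw [map_add, map_smul, b2, ← hab, map_add, b1, c2 φ hφ b hb]
    simp
  have e1 := Submodule.finrank_mono d1
  have e2 := Submodule.finrank_mono d2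
  refine le_trans (split y _ _ hc hc rfl (p4 z hyz hz t ht) (by omega) (by omega) inf_le_right
    fun φ hφ => (mem_cosoc.1 hφ).2) hle

end Pool.Agent.Work.MP_34725c_ag
end

-- merged part: Pool.Agent.Work.MP_34725c_ag.BaseChange
section
set_option autoImplicit false

namespace Pool.Agent.Work.MP_34725c_ag

open Module LinearMap TensorProduct

universe u

theorem finrank_ker_baseChange {k K : Type*} [Field k] [Field K] [Algebra k K]
    {M₂ M₃ N₂ N₃ : Type*} [AddCommGroup M₂] [AddCommGroup M₃] [AddCommGroup N₂] [AddCommGroup N₃]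
    [Module k M₂] [Module k M₃] [Module k N₂] [Module k N₃] [Module K N₂] [Module K N₃]
    [IsScalarTower k K N₂] [IsScalarTower k K N₃] (h₂ : M₂ →ₗ[k] N₂) (h₃ : M₃ →ₗ[k] N₃)
    (g : M₂ →ₗ[k] M₃) (g' : N₂ →ₗ[K] N₃) (comm : ∀ x, h₃ (g x) = g' (h₂ x))
    (b₂ : IsBaseChange K h₂) (b₃ : IsBaseChange K h₃) :
    finrank K (ker g') = finrank k (ker g) := by
  let h₁ : ker g →ₗ[k] ker g' :=
    { toFun := fun x => ⟨h₂ x, by
        rw [mem_ker, ← comm, show g x = 0 from x.2, map_zero]⟩
      map_add' := fun a b => Subtype.ext (by simp)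
      map_smul' := fun a b => Subtype.ext (by simp) }
  have b₁ : IsBaseChange K h₁ :=
    IsBaseChange.of_left_exact K h₁ h₂ h₃ (f := (ker g).subtype) (g := g) (f' := (ker g').subtype)
      (g' := g') (LinearMap.ext fun x => rfl) (LinearMap.ext comm) b₂ b₃
      (LinearMap.exact_subtype_ker_map g) (Submodule.injective_subtype _)
      (LinearMap.exact_subtype_ker_map g') (Submodule.injective_subtype _)
  rw [← b₁.equiv.finrank_eq, Module.finrank_baseChange]

theorem soc_eq_ker {k V : Type*} [Field k] [AddCommGroup V] [Module k V] (y z : End k V) :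
    soc y z = ker (y.prod z) := by
  rw [LinearMap.ker_prod]; rfl

theorem cent_eq_ker {k V : Type*} [Field k] [AddCommGroup V] [Module k V] (y z : End k V) :
    cent y z = ker ((LinearMap.mulLeft k y - LinearMap.mulRight k y).prod
      (LinearMap.mulLeft k z - LinearMap.mulRight k z)) := by
  ext a
  rw [LinearMap.ker_prod, mem_cent, ← sub_eq_zero, ← sub_eq_zero (a := z * a)]
  rfl

theorem exists_baseChange {k K : Type*} [Field k] [Field K] [Algebra k K] {V W : Type*}
    [AddCommGroup V] [Module k V] [FiniteDimensional k V] [AddCommGroup W] [Module k W]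
    [Module K W] [IsScalarTower k K W] {α : V →ₗ[k] W} (j : IsBaseChange K α)
    {y z : End k V} (hyz : y * z = z * y) : ∃ y' z' : End K W, y' * z' = z' * y' ∧
      finrank K (soc y' z') = finrank k (soc y z) ∧
      finrank K (cosoc y' z') = finrank k (cosoc y z) ∧
      finrank K (cent y' z') = finrank k (cent y z) := by
  obtain ⟨T, hT, bT⟩ : ∃ T : End k V →ₗ[k] End K W, (∀ a v, T a (α v) = α (a v)) ∧
      IsBaseChange K T := ⟨j.endHom, fun a v => j.endHom_comp_apply a v, j.end⟩
  have hmul : ∀ a b, T (a * b) = T a * T b := by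
    intro a b
    refine j.algHom_ext _ _ fun v => ?_
    rw [Module.End.mul_apply, hT, hT, hT, Module.End.mul_apply]
  refine ⟨T y, T z, by rw [← hmul, ← hmul, hyz], ?_, ?_, ?_⟩
  · rw [soc_eq_ker, soc_eq_ker]
    refine finrank_ker_baseChange _ _ _ _ (fun v => ?_) j (IsBaseChange.prodMap _ _ j j)
    exact Prod.ext (hT y v).symm (hT z v).symm
  · rw [cosoc, cosoc, soc_eq_ker, soc_eq_ker]
    have hd : ∀ (a : End k V) (φ : Dual k V), j.toDual (a.dualMap φ) =
        (T a).dualMap (j.toDual φ) := by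
      intro a φ
      refine j.algHom_ext _ _ fun v => ?_
      rw [LinearMap.dualMap_apply, hT, j.toDual_comp_apply, j.toDual_comp_apply,
        LinearMap.dualMap_apply]
    refine finrank_ker_baseChange _ _ _ _ (fun φ => ?_) j.dual
      (IsBaseChange.prodMap _ _ j.dual j.dual)
    exact Prod.ext (hd y φ) (hd z φ)
  · rw [cent_eq_ker, cent_eq_ker]
    have hd : ∀ a b : End k V, T (a * b - b * a) = T a * T b - T b * T a := by
      intro a b
      rw [map_sub, hmul, hmul]
    refine finrank_ker_baseChange (M₂ := End k V) (M₃ := End k V × End k V) (N₂ := End K W)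
      (N₃ := End K W × End K W) T (T.prodMap T) _ _ (fun a => ?_) bT
      (IsBaseChange.prodMap T T bT bT)
    exact Prod.ext (hd y a) (hd z a)

/-- The main theorem on commuting pairs over an arbitrary field. -/
theorem commuting_pair {k : Type u} [Field k] {V : Type u} [AddCommGroup V] [Module k V]
    [FiniteDimensional k V] {y z : End k V} (hyz : y * z = z * y)
    (hν : 2 ≤ finrank k (soc y z)) (hμ : 2 ≤ finrank k (cosoc y z)) :
    finrank k V + 1 ≤ finrank k (cent y z) := by
  obtain ⟨y', z', h, e1, e2, e3⟩ :=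
    exists_baseChange (TensorProduct.isBaseChange k V (AlgebraicClosure k)) hyz
  have := thmB _ (AlgebraicClosure k ⊗[k] V) rfl y' z' h (by omega) (by omega)
  rwa [e3, Module.finrank_baseChange] at this

end Pool.Agent.Work.MP_34725c_ag
end

-- merged part: Pool.Agent.Work.MP_34725c_ag.Socle
section
set_option autoImplicit false

namespace Pool.Agent.Work.MP_34725c_ag

open IsLocalRing Ideal RingTheory.Sequence Pointwise

universe u v

/-- The socle is generated by one element. -/
def SocCyc (S : Type u) [CommRing S] [IsLocalRing S] (N : Type v) [AddCommGroup N]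
    [Module S N] : Prop :=
  ∃ s : N, (∀ r ∈ maximalIdeal S, r • s = 0) ∧
    ∀ v : N, (∀ r ∈ maximalIdeal S, r • v = 0) → ∃ c : S, v = c • s

variable {S : Type u} [CommRing S] [IsLocalRing S]

theorem SocCyc.of_equiv {N N' : Type*} [AddCommGroup N] [Module S N] [AddCommGroup N']
    [Module S N'] (e : N ≃ₗ[S] N') (h : SocCyc S N) : SocCyc S N' := by
  obtain ⟨s, h1, h2⟩ := h
  refine ⟨e s, fun r hr => by rw [← map_smul, h1 r hr, map_zero], fun v hv => ?_⟩
  obtain ⟨c, hc⟩ := h2 (e.symm v) fun r hr => by rw [← map_smul, hv r hr, map_zero]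
  exact ⟨c, by rw [← map_smul, ← hc, e.apply_symm_apply]⟩

omit [IsLocalRing S] in
theorem quotSMulTop_eq_zero {N : Type v} [AddCommGroup N] [Module S N] (a : S) (v : N) :
    (Submodule.Quotient.mk v : QuotSMulTop a N) = 0 ↔ ∃ u, a • u = v := by
  rw [Submodule.Quotient.mk_eq_zero, Submodule.mem_smul_pointwise_iff_exists]
  simp

theorem SocCyc.swap {N : Type v} [AddCommGroup N] [Module S N] {a b : S}
    (ha : a ∈ maximalIdeal S) (hb : b ∈ maximalIdeal S) (ra : IsSMulRegular N a)
    (rb : IsSMulRegular N b) (h : SocCyc S (QuotSMulTop a N)) : SocCyc S (QuotSMulTop b N) := by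
  obtain ⟨s, h1, h2⟩ := h
  obtain ⟨s, rfl⟩ := Submodule.Quotient.mk_surjective _ s
  have h1' : ∀ r ∈ maximalIdeal S, ∃ u, a • u = r • s := fun r hr =>
    (quotSMulTop_eq_zero a _).1 (by rw [Submodule.Quotient.mk_smul]; exact h1 r hr)
  obtain ⟨t, ht⟩ := h1' b hb
  refine ⟨Submodule.Quotient.mk t, fun r hr => ?_, fun v hv => ?_⟩
  · obtain ⟨u, hu⟩ := h1' r hr
    rw [← Submodule.Quotient.mk_smul, quotSMulTop_eq_zero]
    refine ⟨u, ra ?_⟩
    change a • b • u = a • r • t
    rw [smul_comm a b, hu, smul_comm a r, ht, smul_comm]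
  · obtain ⟨v, rfl⟩ := Submodule.Quotient.mk_surjective _ v
    have hv' : ∀ r ∈ maximalIdeal S, ∃ u, b • u = r • v := fun r hr =>
      (quotSMulTop_eq_zero b _).1 (by rw [Submodule.Quotient.mk_smul]; exact hv r hr)
    obtain ⟨v', hv2⟩ := hv' a ha
    obtain ⟨c, hc⟩ := h2 (Submodule.Quotient.mk v') fun r hr => by
      obtain ⟨u, hu⟩ := hv' r hr
      rw [← Submodule.Quotient.mk_smul, quotSMulTop_eq_zero]
      refine ⟨u, rb ?_⟩
      change b • a • u = b • r • v'
      rw [smul_comm b a, hu, smul_comm b r, hv2, smul_comm]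
    rw [← Submodule.Quotient.mk_smul, ← sub_eq_zero, ← Submodule.Quotient.mk_sub,
      quotSMulTop_eq_zero] at hc
    obtain ⟨u, hu⟩ := hc
    refine ⟨c, ?_⟩
    rw [← Submodule.Quotient.mk_smul, ← sub_eq_zero, ← Submodule.Quotient.mk_sub,
      quotSMulTop_eq_zero]
    refine ⟨u, ra ?_⟩
    change a • b • u = a • (v - c • t)
    rw [smul_comm a b, hu, smul_sub, smul_sub, hv2, smul_comm a c, ht, smul_comm b c]

theorem exists_common_regular [IsNoetherianRing S] {N N' : Type v} [AddCommGroup N] [Module S N]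
    [AddCommGroup N'] [Module S N'] [Module.Finite S N] [Module.Finite S N'] {a b : S}
    (ha : a ∈ maximalIdeal S) (hb : b ∈ maximalIdeal S) (ra : IsSMulRegular N a)
    (rb : IsSMulRegular N' b) :
    ∃ w ∈ maximalIdeal S, IsSMulRegular N w ∧ IsSMulRegular N' w := by
  have hann : Module.annihilator S (S ⧸ maximalIdeal S) = maximalIdeal S :=
    Ideal.annihilator_quotient
  have s1 := IsSMulRegular.linearMap_subsingleton_of_mem_annihilator (N := S ⧸ maximalIdeal S)
    ra (hann.symm ▸ ha)
  have s2 := IsSMulRegular.linearMap_subsingleton_of_mem_annihilator (N := S ⧸ maximalIdeal S)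
    rb (hann.symm ▸ hb)
  have s3 : Subsingleton ((S ⧸ maximalIdeal S) →ₗ[S] N × N') :=
    (LinearMap.prodEquiv S).symm.toEquiv.subsingleton
  obtain ⟨w, hw, hr⟩ := IsSMulRegular.subsingleton_linearMap_iff.1 s3
  refine ⟨w, hann ▸ hw, fun x y h => ?_, fun x y h => ?_⟩
  · have : w • ((x, 0) : N × N') = w • ((y, 0) : N × N') := Prod.ext h rfl
    exact congrArg Prod.fst (hr this)
  · have : w • ((0, x) : N × N') = w • ((0, y) : N × N') := Prod.ext rfl h
    exact congrArg Prod.snd (hr this)

theorem SocCyc.regular_seq [IsNoetherianRing S] (c : ℕ) : ∀ (N : Type v) [AddCommGroup N]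
    [Module S N] [Module.Finite S N] (g h : List S), g.length = c → h.length = c →
    (∀ r ∈ g, r ∈ maximalIdeal S) → (∀ r ∈ h, r ∈ maximalIdeal S) →
    IsWeaklyRegular N g → IsWeaklyRegular N h →
    SocCyc S (N ⧸ (ofList h • ⊤ : Submodule S N)) →
    SocCyc S (N ⧸ (ofList g • ⊤ : Submodule S N)) := by
  induction c with
  | zero =>
    intro N _ _ _ g h lg lh _ _ _ _ H
    rw [List.length_eq_zero_iff.1 lg]
    rwa [List.length_eq_zero_iff.1 lh] at H
  | succ c ih =>
    intro N _ _ _ g h lg lh mg mh rg rh H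
    obtain ⟨a, g', rfl⟩ := List.exists_cons_of_length_eq_add_one lg
    obtain ⟨b, h', rfl⟩ := List.exists_cons_of_length_eq_add_one lh
    have ha := mg a (by simp)
    have hb := mh b (by simp)
    have mg' : ∀ r ∈ g', r ∈ maximalIdeal S := fun r hr => mg r (by simp [hr])
    have mh' : ∀ r ∈ h', r ∈ maximalIdeal S := fun r hr => mh r (by simp [hr])
    have g1 := IsLocalRing.isWeaklyRegular_of_perm_of_subset_maximalIdeal rg
      (List.perm_append_singleton a g').symm mg
    have h1 := IsLocalRing.isWeaklyRegular_of_perm_of_subset_maximalIdeal rh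
      (List.perm_append_singleton b h').symm mh
    rw [isWeaklyRegular_append_iff, isWeaklyRegular_singleton_iff] at g1 h1
    obtain ⟨w, hw, w1, w2⟩ := exists_common_regular ha hb g1.2 h1.2
    have key : ∀ l : List S, (∀ r ∈ l, r ∈ maximalIdeal S) → IsWeaklyRegular N l →
        IsSMulRegular (N ⧸ (ofList l • ⊤ : Submodule S N)) w →
        IsWeaklyRegular (QuotSMulTop w N) l := by
      intro l ml rl rw'
      have e1 : IsWeaklyRegular N (l ++ [w]) := by
        rw [isWeaklyRegular_append_iff, isWeaklyRegular_singleton_iff]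
        exact ⟨rl, rw'⟩
      have e2 := IsLocalRing.isWeaklyRegular_of_perm_of_subset_maximalIdeal e1
        (List.perm_append_singleton w l) (fun r hr => by
          rcases List.mem_append.1 hr with h | h
          · exact ml r h
          · rwa [List.mem_singleton.1 h])
      exact ((isWeaklyRegular_cons_iff N w l).1 e2).2
    have H1 := (H.of_equiv (Submodule.quotOfListConsSMulTopEquivQuotSMulTopOuter N b h')).swap
      hb hw h1.2 w2
    have H2 := (H1.of_equiv
      (Submodule.quotOfListConsSMulTopEquivQuotSMulTopOuter N w h').symm).of_equiv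
      (Submodule.quotOfListConsSMulTopEquivQuotSMulTopInner N w h')
    have H3 := ih (QuotSMulTop w N) g' h' (by simpa using lg) (by simpa using lh) mg' mh'
      (key g' mg' g1.1 w1) (key h' mh' h1.1 w2) H2
    have H4 := (H3.of_equiv
      (Submodule.quotOfListConsSMulTopEquivQuotSMulTopInner N w g').symm).of_equiv
      (Submodule.quotOfListConsSMulTopEquivQuotSMulTopOuter N w g')
    exact (H4.swap hw ha w1 g1.2).of_equiv
      (Submodule.quotOfListConsSMulTopEquivQuotSMulTopOuter N a g').symm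

/-- A regular local ring modulo a maximal regular sequence has a simple socle. -/
theorem socCyc_of_regular [IsNoetherianRing S]
    (hS : (((maximalIdeal S).spanFinrank : ℕ) : WithBot ℕ∞) = ringKrullDim S) (g : List S)
    (hg : IsRegular S g) (hdim : ringKrullDim (S ⧸ ofList g) = 0) :
    ∃ s : S, (∀ r ∈ maximalIdeal S, r * s ∈ ofList g) ∧
      ∀ v : S, (∀ r ∈ maximalIdeal S, r * v ∈ ofList g) → ∃ c : S, v - c * s ∈ ofList g := by
  obtain ⟨t, ht1, ht2⟩ := Submodule.FG.exists_span_finset_card_eq_spanFinrank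
    (IsNoetherian.noetherian (maximalIdeal S))
  have hx : ofList t.toList = maximalIdeal S := by
    rw [← ht2]
    have : {r | r ∈ t.toList} = (t : Set S) := by ext x; simp
    rw [ofList, this]
  have hlen : t.toList.length = (maximalIdeal S).spanFinrank := by
    rw [Finset.length_toList, ht1]
  have hreg := isWeaklyRegular_of_regular _ S t.toList hlen hx hS.le
  have hl := ringKrullDim_add_length_eq_ringKrullDim_of_isRegular g hg
  rw [hdim, zero_add, ← hS] at hl
  have hl' : g.length = (maximalIdeal S).spanFinrank := by exact_mod_cast hl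
  have mg : ∀ r ∈ g, r ∈ maximalIdeal S := by
    intro r hr
    refine IsLocalRing.le_maximalIdeal (J := ofList g) ?_ (Ideal.subset_span hr)
    intro h
    exact hg.top_ne_smul (by rw [h, Submodule.top_smul])
  have H : SocCyc S (S ⧸ (ofList t.toList • ⊤ : Submodule S S)) := by
    refine ⟨Submodule.Quotient.mk 1, fun r hr => ?_, fun v _ => ?_⟩
    · rw [← Submodule.Quotient.mk_smul, Submodule.Quotient.mk_eq_zero, hx]
      exact Submodule.smul_mem_smul hr trivial
    · obtain ⟨v, rfl⟩ := Submodule.Quotient.mk_surjective _ v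
      exact ⟨v, by rw [← Submodule.Quotient.mk_smul]; simp⟩
  obtain ⟨s, h1, h2⟩ := SocCyc.regular_seq _ S g t.toList hl' hlen mg
    (fun r hr => hx ▸ Ideal.subset_span hr) hg.toIsWeaklyRegular hreg H
  have e : (ofList g • ⊤ : Submodule S S) = ofList g := by rw [smul_eq_mul, Ideal.mul_top]
  obtain ⟨s, rfl⟩ := Submodule.Quotient.mk_surjective _ s
  refine ⟨s, fun r hr => ?_, fun v hv => ?_⟩
  · have := h1 r hr
    rwa [← Submodule.Quotient.mk_smul, Submodule.Quotient.mk_eq_zero, e] at this
  · obtain ⟨c, hc⟩ := h2 (Submodule.Quotient.mk v) fun r hr => by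
      rw [← Submodule.Quotient.mk_smul, Submodule.Quotient.mk_eq_zero, e]
      exact hv r hr
    rw [← Submodule.Quotient.mk_smul, Submodule.Quotient.eq, e] at hc
    exact ⟨c, hc⟩

end Pool.Agent.Work.MP_34725c_ag
end

-- merged part: Pool.Agent.Work.MP_34725c_ag.Coef
section
set_option autoImplicit false

namespace Pool.Agent.Work.MP_34725c_ag

open Polynomial IsLocalRing

universe u

/-- Coefficient fields for extensions whose kernel is killed by Frobenius. -/
theorem section_of_frobenius {A k : Type*} [CommRing A] [Field k] (p : ℕ) [hp : Fact p.Prime]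
    [CharP A p] (π : A →+* k) (hs : Function.Surjective π) (hk : ∀ x, π x = 0 → x ^ p = 0) :
    ∃ σ : k →+* A, ∀ x, π (σ x) = x := by
  have : Nontrivial A := π.domain_nontrivial
  have hunit : ∀ a : A, π a ≠ 0 → IsUnit a := by
    intro a ha
    obtain ⟨b, hb⟩ := hs (π a)⁻¹
    have h1 : IsNilpotent (1 - a * b) := ⟨p, hk _ (by simp [hb, ha])⟩
    have h2 := h1.isUnit_one_sub
    rw [sub_sub_cancel] at h2
    exact isUnit_of_mul_isUnit_left h2
  let S : Set (Subring A) := {F | (∀ a, a ^ p ∈ F) ∧ ∀ x ∈ F, x ≠ 0 → ∃ y ∈ F, x * y = 1}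
  have h0 : (frobenius A p).range ∈ S := by
    refine ⟨fun a => ⟨a, rfl⟩, ?_⟩
    rintro _ ⟨a, rfl⟩ ha
    obtain ⟨b, hb⟩ := (hunit a fun h => ha (hk a h)).exists_right_inv
    exact ⟨frobenius A p b, ⟨b, rfl⟩, by rw [← map_mul, hb, map_one]⟩
  obtain ⟨F, -, hF⟩ := zorn_le_nonempty₀ S (fun c hc hchain F0 hF0 => by
    refine ⟨sSup c, ⟨fun a => le_sSup hF0 ((hc hF0).1 a), fun x hx hx0 => ?_⟩,
      fun z hz => le_sSup hz⟩
    obtain ⟨G, hG, hxG⟩ := (Subring.mem_sSup_of_directedOn ⟨F0, hF0⟩ hchain.directedOn).1 hx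
    obtain ⟨y, hy, hxy⟩ := (hc hG).2 x hxG hx0
    exact ⟨y, le_sSup hG hy, hxy⟩) _ h0
  have hfield : IsField F :=
    { exists_pair_ne := exists_pair_ne F
      mul_comm := mul_comm
      mul_inv_cancel := fun {x} hx => by
        obtain ⟨y, hy, hxy⟩ := hF.prop.2 x x.2 fun h => hx (Subtype.ext h)
        exact ⟨⟨y, hy⟩, Subtype.ext hxy⟩ }
  let := hfield.toField
  have hsurj : Function.Surjective (π.comp F.subtype) := by
    intro α
    obtain ⟨a, rfl⟩ := hs α
    by_contra hcon
    let c : F := ⟨a ^ p, hF.prop.1 a⟩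
    have hc : ∀ b : F, b ^ p ≠ c := by
      intro b hb
      have h1 : (b : A) ^ p = a ^ p := congrArg Subtype.val hb
      have h2 : ((b : A) - a) ^ p = 0 := by rw [sub_pow_char, h1, sub_self]
      have h3 : π ((b : A) - a) = 0 := by
        have := congrArg π h2
        rw [map_pow, map_zero] at this
        exact (pow_eq_zero_iff hp.out.ne_zero).1 this
      exact hcon ⟨b, by rw [map_sub, sub_eq_zero] at h3; exact h3⟩
    have : Fact (Irreducible (X ^ p - C c : F[X])) := ⟨X_pow_sub_C_irreducible_of_prime hp.out hc⟩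
    let ψ : AdjoinRoot (X ^ p - C c : F[X]) →+* A := AdjoinRoot.lift F.subtype a (by
      simp [c])
    have hle : F ≤ ψ.range := fun x hx =>
      ⟨AdjoinRoot.of _ ⟨x, hx⟩, by simp [ψ]⟩
    have hmem : ψ.range ∈ S := by
      refine ⟨fun a => hle (hF.prop.1 a), ?_⟩
      rintro _ ⟨x, rfl⟩ hx
      have hx0 : x ≠ 0 := fun h => hx (by rw [h, map_zero])
      exact ⟨ψ x⁻¹, ⟨_, rfl⟩, by rw [← map_mul, mul_inv_cancel₀ hx0, map_one]⟩
    have ha : a ∈ F := hF.le_of_ge hmem hle ⟨AdjoinRoot.root _, by simp [ψ]⟩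
    exact hcon ⟨⟨a, ha⟩, rfl⟩
  let e := RingEquiv.ofBijective (π.comp F.subtype) ⟨(π.comp F.subtype).injective, hsurj⟩
  exact ⟨F.subtype.comp e.symm.toRingHom, fun x => e.apply_symm_apply x⟩

theorem formallySmooth_charP (k : Type u) [Field k] (p : ℕ) [hp : Fact p.Prime]
    [Algebra (ZMod p) k] : Algebra.FormallySmooth (ZMod p) k := by
  let f : MvPolynomial k (ZMod p) →ₐ[ZMod p] k := MvPolynomial.aeval id
  have hf : Function.Surjective f := fun x => ⟨MvPolynomial.X x, by simp [f]⟩
  have hs : Function.Surjective f.kerSquareLift := by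
    intro x
    obtain ⟨y, rfl⟩ := hf x
    exact ⟨Ideal.Quotient.mk _ y, rfl⟩
  have : Nontrivial (MvPolynomial k (ZMod p) ⧸ RingHom.ker f.toRingHom ^ 2) :=
    f.kerSquareLift.toRingHom.domain_nontrivial
  have : CharP (MvPolynomial k (ZMod p) ⧸ RingHom.ker f.toRingHom ^ 2) p :=
    charP_of_injective_algebraMap (algebraMap (ZMod p) _).injective p
  obtain ⟨σ, hσ⟩ := section_of_frobenius p f.kerSquareLift.toRingHom hs (fun x hx => by
    obtain ⟨y, rfl⟩ := Ideal.Quotient.mk_surjective x
    have hy : y ∈ RingHom.ker f.toRingHom := hx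
    obtain ⟨q, hq⟩ := Nat.exists_eq_add_of_le hp.out.two_le
    have h2 : (Ideal.Quotient.mk (RingHom.ker f.toRingHom ^ 2) y) ^ 2 = 0 := by
      rw [← map_pow, Ideal.Quotient.eq_zero_iff_mem]
      exact Ideal.pow_mem_pow hy 2
    exact pow_eq_zero_of_le hp.out.two_le h2)
  refine Algebra.FormallySmooth.of_split f
    { σ with commutes' := fun r => ?_ } (AlgHom.ext hσ)
  exact RingHom.congr_fun (RingHom.ext_zmod (σ.comp (algebraMap (ZMod p) k)) (algebraMap _ _)) r

theorem formallySmooth_charZero (k : Type u) [Field k] [CharZero k] :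
    Algebra.FormallySmooth ℤ k := by
  obtain ⟨s, hs⟩ := exists_isTranscendenceBasis ℚ k
  have := hs.isAlgebraic_field
  have : Algebra.FormallySmooth ℚ k :=
    Algebra.FormallySmooth.of_algebraicIndependent_of_isSeparable hs.1
  have : Algebra.FormallySmooth ℤ ℚ := Algebra.FormallySmooth.of_isLocalization (nonZeroDivisors ℤ)
  exact Algebra.FormallySmooth.comp ℤ ℚ k

/-- An equicharacteristic local ring with nilpotent maximal ideal has a coefficient field. -/
theorem exists_coefficient_field (B : Type u) [CommRing B] [IsLocalRing B]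
    (hnil : IsNilpotent (maximalIdeal B)) (hchar : ((ringChar (ResidueField B) : ℕ) : B) = 0) :
    ∃ σ : ResidueField B →+* B, ∀ x, residue B (σ x) = x := by
  rcases CharP.char_is_prime_or_zero (ResidueField B) (ringChar (ResidueField B)) with hp | h0
  · set p := ringChar (ResidueField B)
    have : Fact p.Prime := ⟨hp⟩
    have : CharP B p := (CharP.charP_iff_prime_eq_zero hp).2 hchar
    let : Algebra (ZMod p) B := ZMod.algebra B p
    let : Algebra (ZMod p) (ResidueField B) := ZMod.algebra _ p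
    have := formallySmooth_charP (ResidueField B) p
    let g : B →ₐ[ZMod p] ResidueField B :=
      { residue B with
        commutes' := fun r => RingHom.congr_fun
          (RingHom.ext_zmod ((residue B).comp (algebraMap (ZMod p) B)) (algebraMap _ _)) r }
    have hg : Function.Surjective g := residue_surjective
    have hk : IsNilpotent (RingHom.ker g) := by
      have : RingHom.ker g = maximalIdeal B := ker_residue
      rwa [this]
    exact ⟨(Algebra.FormallySmooth.liftOfSurjective (AlgHom.id _ _) g hg hk).toRingHom,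
      fun x => Algebra.FormallySmooth.liftOfSurjective_apply (AlgHom.id _ _) g hg hk x⟩
  · have : CharP (ResidueField B) 0 := by
      rw [← h0]; infer_instance
    have : CharZero (ResidueField B) := CharP.charP_to_charZero _
    have := formallySmooth_charZero (ResidueField B)
    obtain ⟨σ, hσ⟩ := Algebra.FormallySmooth.exists_lift (R := ℤ) (A := ResidueField B)
      (maximalIdeal B) hnil (RingHom.id _).toIntAlgHom
    exact ⟨σ.toRingHom, fun x => AlgHom.congr_fun hσ x⟩

end Pool.Agent.Work.MP_34725c_ag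
end

-- merged part: Pool.Agent.Work.MP_34725c_ag.Artin
section
set_option autoImplicit false

namespace Pool.Agent.Work.MP_34725c_ag

open IsLocalRing Module

universe u

section
variable {K B : Type u} [Field K] [CommRing B] [IsLocalRing B] [Algebra K B]

theorem length_coef (hres : ∀ b : B, ∃ c : K, b - algebraMap K B c ∈ maximalIdeal B)
    (W : Type*) [AddCommGroup W] [Module B W] [Module K W] [IsScalarTower K B W] :
    Module.length K W = Module.length B W := by
  rw [IsLocalRing.length_restrictScalars K B W]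
  have hs : Function.Surjective (algebraMap (ResidueField K) (ResidueField B)) := by
    intro x
    obtain ⟨b, rfl⟩ := residue_surjective x
    obtain ⟨c, hc⟩ := hres b
    refine ⟨residue K c, ?_⟩
    change residue B (algebraMap K B c) = residue B b
    rw [eq_comm, ← sub_eq_zero, ← map_sub, residue_eq_zero_iff]
    exact hc
  rw [Module.length_eq_of_surjective hs,
    Module.length_eq_one (R := ResidueField B) (M := ResidueField B), mul_one]

theorem subalgebra_eq_top (hres : ∀ b : B, ∃ c : K, b - algebraMap K B c ∈ maximalIdeal B)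
    (hnil : IsNilpotent (maximalIdeal B)) {y z : B} (hm : maximalIdeal B = Ideal.span {y, z})
    (T : Subalgebra K B) (hy : y ∈ T) (hz : z ∈ T) (b : B) : b ∈ T := by
  have hym : y ∈ maximalIdeal B := hm ▸ Ideal.subset_span (by simp)
  have hzm : z ∈ maximalIdeal B := hm ▸ Ideal.subset_span (by simp)
  have h1 : ∀ n : ℕ, ∀ b ∈ maximalIdeal B ^ n, ∃ t ∈ T, b - t ∈ maximalIdeal B ^ (n + 1) := by
    intro n
    induction n with
    | zero =>
      intro b _
      obtain ⟨c, hc⟩ := hres b
      exact ⟨_, T.algebraMap_mem c, by simpa using hc⟩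
    | succ n ih =>
      intro b hb
      rw [pow_succ] at hb
      refine Submodule.mul_induction_on hb (fun u hu r hr => ?_) ?_
      · rw [hm, Ideal.mem_span_pair] at hr
        obtain ⟨α, β, rfl⟩ := hr
        obtain ⟨t1, ht1, e1⟩ := ih (u * α) (Ideal.mul_mem_right _ _ hu)
        obtain ⟨t2, ht2, e2⟩ := ih (u * β) (Ideal.mul_mem_right _ _ hu)
        refine ⟨t1 * y + t2 * z, add_mem (mul_mem ht1 hy) (mul_mem ht2 hz), ?_⟩
        have : u * (α * y + β * z) - (t1 * y + t2 * z) = (u * α - t1) * y + (u * β - t2) * z := by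
          ring
        rw [this, pow_succ]
        exact add_mem (Ideal.mul_mem_mul e1 hym) (Ideal.mul_mem_mul e2 hzm)
      · rintro a a' ⟨t1, ht1, e1⟩ ⟨t2, ht2, e2⟩
        refine ⟨t1 + t2, add_mem ht1 ht2, ?_⟩
        have : a + a' - (t1 + t2) = (a - t1) + (a' - t2) := by ring
        rw [this]
        exact add_mem e1 e2
  have h2 : ∀ n : ℕ, ∃ t ∈ T, b - t ∈ maximalIdeal B ^ n := by
    intro n
    induction n with
    | zero => exact ⟨0, zero_mem _, by simp⟩
    | succ n ih =>
      obtain ⟨t, ht, e⟩ := ih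
      obtain ⟨t', ht', e'⟩ := h1 n _ e
      exact ⟨t + t', add_mem ht ht', by rwa [← sub_sub]⟩
  obtain ⟨N, hN⟩ := hnil
  obtain ⟨t, ht, e⟩ := h2 N
  rw [hN] at e
  have : b = t := sub_eq_zero.1 e
  rwa [this]

omit [IsLocalRing B] in
theorem exists_functional {y z : B} (hy : IsNilpotent y) (hz : IsNilpotent z)
    (W : Type*) [AddCommGroup W] [Module B W] [Module K W] [IsScalarTower K B W]
    (hs : ∃ s : W, ∀ v : W, y • v = 0 → z • v = 0 → ∃ c : K, v = c • s) :
    ∃ φ : Dual K W, ∀ v : W, (∀ b : B, φ (b • v) = 0) → v = 0 := by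
  obtain ⟨s, hs⟩ := hs
  obtain ⟨φ, hφ⟩ : ∃ φ : Dual K W, ∀ v : W, y • v = 0 → z • v = 0 → φ v = 0 → v = 0 := by
    by_cases hs0 : s = 0
    · refine ⟨0, fun v h1 h2 _ => ?_⟩
      obtain ⟨c, hc⟩ := hs v h1 h2
      rw [hc, hs0, smul_zero]
    · obtain ⟨φ, hφ⟩ := Module.Projective.exists_dual_eq_one K hs0
      refine ⟨φ, fun v h1 h2 h0 => ?_⟩
      obtain ⟨c, rfl⟩ := hs v h1 h2
      rw [map_smul, hφ, smul_eq_mul, mul_one] at h0
      rw [h0, zero_smul]
  refine ⟨φ, fun v hv => ?_⟩
  by_contra hne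
  have step : ∀ (x : B), IsNilpotent x → ∀ u : W, u ≠ 0 →
      ∃ i : ℕ, (x ^ i) • u ≠ 0 ∧ x • (x ^ i) • u = 0 := by
    rintro x ⟨n, hn⟩ u hu
    by_contra hcon
    push Not at hcon
    have : ∀ i : ℕ, (x ^ i) • u ≠ 0 := by
      intro i
      induction i with
      | zero => simpa using hu
      | succ i ih => rw [pow_succ', mul_smul]; exact hcon i ih
    exact this n (by simp [hn])
  obtain ⟨i, hi1, hi2⟩ := step y hy v hne
  obtain ⟨l, hl1, hl2⟩ := step z hz _ hi1
  refine hl1 (hφ _ ?_ hl2 ?_)
  · rw [smul_comm y, hi2, smul_zero]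
  · rw [← mul_smul]; exact hv _

theorem artin_cyclic_coef [IsArtinianRing B]
    (hres : ∀ b : B, ∃ c : K, b - algebraMap K B c ∈ maximalIdeal B)
    {y z : B} (hm : maximalIdeal B = Ideal.span {y, z}) (hsoc : SocCyc B B)
    (V : Type u) [AddCommGroup V] [Module B V] [Module K V] [IsScalarTower K B V]
    [Module.Finite B V] (h1 : Module.length B (End B V) ≤ Module.length B V)
    (h2 : Module.length B V = Module.length B B) : ∃ v : V, ∀ w : V, ∃ b : B, w = b • v := by
  have hnil : IsNilpotent (maximalIdeal B) := by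
    rw [← IsLocalRing.jacobson_eq_maximalIdeal ⊥ bot_ne_top]
    exact IsArtinianRing.isNilpotent_jacobson_bot
  have hym : y ∈ maximalIdeal B := hm ▸ Ideal.subset_span (by simp)
  have hzm : z ∈ maximalIdeal B := hm ▸ Ideal.subset_span (by simp)
  have hnil' : ∀ x ∈ maximalIdeal B, IsNilpotent x := by
    intro x hx
    obtain ⟨N, hN⟩ := hnil
    have := Ideal.pow_mem_pow hx N
    rw [hN] at this
    exact ⟨N, this⟩
  have hfin : FiniteDimensional K B := by
    have : Module.length K B ≠ ⊤ := by
      rw [length_coef hres B]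
      exact Module.length_ne_top
    rw [Module.length_ne_top_iff, isFiniteLength_iff_isNoetherian_isArtinian] at this
    have := this.1
    infer_instance
  have hfinV : FiniteDimensional K V := Module.Finite.trans B V
  let L : B →ₐ[K] End K V := Algebra.lsmul K K V
  have hL : ∀ b v, L b v = b • v := fun b v => rfl
  let ρ : End B V →ₗ[K] End K V := LinearMap.restrictScalarsₗ K B V V K
  have hρ : Function.Injective ρ := LinearMap.restrictScalars_injective K
  have hfinE : FiniteDimensional K (End B V) := FiniteDimensional.of_injective ρ hρ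
  have hcent : cent (L y) (L z) ≤ LinearMap.range ρ := by
    intro a ha
    let T : Subalgebra K B := (Subalgebra.centralizer K {a}).comap L
    have hT : ∀ b, b ∈ T ↔ a * L b = L b * a := by
      intro b
      simp [T, Subalgebra.mem_centralizer_iff]
    have hall := subalgebra_eq_top hres hnil hm T ((hT y).2 ha.1.symm) ((hT z).2 ha.2.symm)
    exact ⟨{ toFun := a
             map_add' := a.map_add
             map_smul' := fun b v => LinearMap.congr_fun ((hT b).1 (hall b)) v }, rfl⟩
  have d1 : finrank K (cent (L y) (L z)) ≤ finrank K V := by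
    refine (Submodule.finrank_mono hcent).trans ((LinearMap.finrank_range_le ρ).trans ?_)
    rw [← length_coef hres, ← length_coef hres, Module.length_eq_finrank,
      Module.length_eq_finrank] at h1
    exact_mod_cast h1
  have d2 : finrank K V = finrank K B := by
    rw [← length_coef hres, ← length_coef hres, Module.length_eq_finrank,
      Module.length_eq_finrank] at h2
    exact_mod_cast h2
  have hcomm : L y * L z = L z * L y := by rw [← map_mul, ← map_mul, mul_comm]
  by_cases hμ : finrank K (cosoc (L y) (L z)) ≤ 1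
  · let P : Submodule K V := LinearMap.range (L y) ⊔ LinearMap.range (L z)
    have e : cosoc (L y) (L z) = P.dualAnnihilator := by
      ext φ
      rw [mem_cosoc, Submodule.mem_dualAnnihilator]
      constructor
      · rintro ⟨b1, b2⟩ w hw
        obtain ⟨_, ⟨a, rfl⟩, _, ⟨b, rfl⟩, rfl⟩ := Submodule.mem_sup.1 hw
        rw [map_add, b1, b2, add_zero]
      · intro h
        exact ⟨fun v => h _ (Submodule.mem_sup_left ⟨v, rfl⟩),
          fun v => h _ (Submodule.mem_sup_right ⟨v, rfl⟩)⟩
    rw [e, ← (Submodule.dualQuotEquivDualAnnihilator P).finrank_eq, Subspace.dual_finrank_eq,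
      finrank_le_one_iff] at hμ
    obtain ⟨v, hv⟩ := hμ
    obtain ⟨v, rfl⟩ := Submodule.Quotient.mk_surjective _ v
    have hle : (⊤ : Submodule B V) ≤ Submodule.span B {v} ⊔ maximalIdeal B • ⊤ := by
      intro w _
      obtain ⟨c, hc⟩ := hv (Submodule.Quotient.mk w)
      rw [← Submodule.Quotient.mk_smul, eq_comm, Submodule.Quotient.eq] at hc
      obtain ⟨_, ⟨a, rfl⟩, _, ⟨b, rfl⟩, hab⟩ := Submodule.mem_sup.1 hc
      have : w = algebraMap K B c • v + (y • a + z • b) := by
        rw [algebraMap_smul, ← hL, ← hL, hab]; abel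
      rw [this]
      exact Submodule.add_mem_sup (Submodule.smul_mem _ _ (Submodule.mem_span_singleton_self v))
        (add_mem (Submodule.smul_mem_smul hym trivial) (Submodule.smul_mem_smul hzm trivial))
    have := Submodule.le_of_le_smul_of_le_jacobson_bot Module.Finite.fg_top
      (IsLocalRing.maximalIdeal_le_jacobson ⊥) hle
    refine ⟨v, fun w => ?_⟩
    obtain ⟨b, hb⟩ := Submodule.mem_span_singleton.1 (this (Submodule.mem_top (x := w)))
    exact ⟨b, hb.symm⟩
  have hν : finrank K (soc (L y) (L z)) ≤ 1 := by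
    by_contra hcon
    have := commuting_pair hcomm (by omega) (by omega)
    omega
  obtain ⟨φ, hφ⟩ := exists_functional (K := K) (hnil' y hym) (hnil' z hzm) V (by
    obtain ⟨s, hs⟩ := finrank_le_one_iff.1 hν
    refine ⟨s, fun v a b => ?_⟩
    obtain ⟨c, hc⟩ := hs ⟨v, a, b⟩
    exact ⟨c, (congrArg Subtype.val hc).symm⟩)
  obtain ⟨θ, hθ⟩ := exists_functional (K := K) (hnil' y hym) (hnil' z hzm) B (by
    obtain ⟨s, s1, s2⟩ := hsoc
    refine ⟨s, fun v a b => ?_⟩
    obtain ⟨c, hc⟩ := s2 v (fun r hr => by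
      rw [hm, Ideal.mem_span_pair] at hr
      obtain ⟨α, β, rfl⟩ := hr
      rw [add_smul, mul_smul, mul_smul, a, b, smul_zero, smul_zero, add_zero])
    obtain ⟨c0, hc0⟩ := hres c
    refine ⟨c0, ?_⟩
    have := s1 _ hc0
    rw [sub_smul, sub_eq_zero, algebraMap_smul] at this
    rw [hc, this])
  have emb : ∀ (W : Type u) [AddCommGroup W] [Module B W] [Module K W] [IsScalarTower K B W]
      [FiniteDimensional K W] (ψ : Dual K W), (∀ v : W, (∀ b : B, ψ (b • v) = 0) → v = 0) →
      finrank K W = finrank K B → ∃ F : W →ₗ[K] Dual K B, Function.Bijective F ∧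
        ∀ v b, F v b = ψ (b • v) := by
    intro W _ _ _ _ _ ψ hψ hd
    let F : W →ₗ[K] Dual K B :=
      { toFun := fun v => ψ ∘ₗ (LinearMap.toSpanSingleton B W v).restrictScalars K
        map_add' := by intro a b; ext x; simp
        map_smul' := by intro a b; ext x; simp [smul_comm x a b] }
    have hF : Function.Injective F := by
      rw [injective_iff_map_eq_zero]
      intro v hv
      exact hψ v fun b => LinearMap.congr_fun hv b
    refine ⟨F, ⟨hF, ?_⟩, fun v b => rfl⟩
    rw [← LinearMap.range_eq_top]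
    refine Submodule.eq_top_of_finrank_eq (K := K) (V := Dual K B) ?_
    rw [LinearMap.finrank_range_of_inj hF, hd, Subspace.dual_finrank_eq]
  obtain ⟨F, hF, eF⟩ := emb V φ hφ d2
  obtain ⟨G, hG, eG⟩ := emb B θ hθ rfl
  obtain ⟨v0, hv0⟩ := hF.2 θ
  refine ⟨v0, fun w => ?_⟩
  obtain ⟨b, hb⟩ := hG.2 (F w)
  refine ⟨b, hF.1 ?_⟩
  ext b'
  rw [← hb, eG, eF, ← mul_smul, ← eF, hv0, smul_eq_mul]
end

/-- The Artinian form of the main theorem. -/
theorem artin_cyclic {B : Type u} [CommRing B] [IsLocalRing B] [IsArtinianRing B]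
    (hchar : ((ringChar (ResidueField B) : ℕ) : B) = 0)
    {y z : B} (hm : maximalIdeal B = Ideal.span {y, z}) (hsoc : SocCyc B B)
    (V : Type u) [AddCommGroup V] [Module B V]
    [Module.Finite B V] (h1 : Module.length B (End B V) ≤ Module.length B V)
    (h2 : Module.length B V = Module.length B B) : ∃ v : V, ∀ w : V, ∃ b : B, w = b • v := by
  have hnil : IsNilpotent (maximalIdeal B) := by
    rw [← IsLocalRing.jacobson_eq_maximalIdeal ⊥ bot_ne_top]
    exact IsArtinianRing.isNilpotent_jacobson_bot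
  obtain ⟨σ, hσ⟩ := exists_coefficient_field B hnil hchar
  let : Algebra (ResidueField B) B := σ.toAlgebra
  let : Module (ResidueField B) V := Module.compHom V σ
  have : IsScalarTower (ResidueField B) B V := ⟨fun c b v => mul_smul (σ c) b v⟩
  refine artin_cyclic_coef (K := ResidueField B) (fun b => ⟨residue B b, ?_⟩) hm hsoc V h1 h2
  rw [← residue_eq_zero_iff, map_sub, sub_eq_zero]
  exact (hσ _).symm

end Pool.Agent.Work.MP_34725c_ag
end

-- merged part: Pool.Agent.Work.MP_34725c_ag.CISocle
section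
set_option autoImplicit false

namespace Pool.Agent.Work.MP_34725c_ag

open IsLocalRing Ideal RingTheory.Sequence Pointwise

universe u

theorem socle_of_ci {R T S : Type u} [CommRing R] [IsLocalRing R] [CommRing T] [IsLocalRing T]
    [Algebra R T] [Module.Flat R T] [IsLocalHom (algebraMap R T)]
    (hmax : maximalIdeal T = (maximalIdeal R).map (algebraMap R T))
    (hres : ∀ c : T, ∃ c0 : R, c - algebraMap R T c0 ∈ maximalIdeal T)
    [CommRing S] [IsLocalRing S] [IsNoetherianRing S]
    (hS : (((maximalIdeal S).spanFinrank : ℕ) : WithBot ℕ∞) = ringKrullDim S)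
    (φ : S →+* T) (hφ : Function.Surjective φ) (rs : List S)
    (hker : RingHom.ker φ = ofList rs) (hrs : IsRegular S rs) {x : R} (hx : x ∈ maximalIdeal R)
    (hreg : IsSMulRegular R x) {N : ℕ} (hN : maximalIdeal R ^ N ≤ span {x}) :
    ∃ s : R, (∀ r ∈ maximalIdeal R, r * s ∈ span {x}) ∧
      ∀ v : R, (∀ r ∈ maximalIdeal R, r * v ∈ span {x}) → ∃ c : R, v - c * s ∈ span {x} := by
  have hff : Module.FaithfullyFlat R T := Module.FaithfullyFlat.of_flat_of_isLocalHom
  obtain ⟨x', hx'⟩ := hφ (algebraMap R T x)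
  have hregT : IsSMulRegular T (algebraMap R T x) := hreg.of_flat
  have hJ : ofList (rs ++ [x']) = (span {algebraMap R T x}).comap φ := by
    rw [ofList_append, ofList_singleton, ← hx', ← Set.image_singleton, ← Ideal.map_span,
      Ideal.comap_map_of_surjective φ hφ, ← RingHom.ker_eq_comap_bot, hker, sup_comm]
  have hmap : (maximalIdeal S).map φ = maximalIdeal T :=
    IsLocalRing.map_maximalIdeal_of_surjective φ hφ
  have hxT : algebraMap R T x ∈ maximalIdeal T := hmax ▸ Ideal.mem_map_of_mem _ hx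
  have hJne : ofList (rs ++ [x']) ≠ ⊤ := by
    rw [hJ]
    refine Ideal.comap_ne_top _ ?_
    rw [Ne, Ideal.span_singleton_eq_top]
    exact hxT
  have hg : IsRegular S (rs ++ [x']) := by
    refine ⟨?_, ?_⟩
    · rw [isWeaklyRegular_append_iff, isWeaklyRegular_singleton_iff]
      refine ⟨hrs.toIsWeaklyRegular, ?_⟩
      rw [isSMulRegular_quotient_iff_mem_of_smul_mem, smul_eq_mul, Ideal.mul_top, ← hker]
      intro v hv
      rw [RingHom.mem_ker] at hv ⊢
      apply hregT
      change algebraMap R T x • φ v = algebraMap R T x • (0 : T)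
      rw [smul_zero, smul_eq_mul, ← hx', ← map_mul]
      exact hv
    · rw [smul_eq_mul, Ideal.mul_top]
      exact hJne.symm
  have hpow : maximalIdeal S ^ N ≤ ofList (rs ++ [x']) := by
    rw [hJ, ← Ideal.map_le_iff_le_comap, Ideal.map_pow, hmap, hmax, ← Ideal.map_pow,
      ← Set.image_singleton, ← Ideal.map_span]
    exact Ideal.map_mono hN
  have hdim : ringKrullDim (S ⧸ ofList (rs ++ [x'])) = 0 := by
    have : Nontrivial (S ⧸ ofList (rs ++ [x'])) := Ideal.Quotient.nontrivial_iff.2 hJne
    rw [← ringKrullDimZero_iff_ringKrullDim_eq_zero, Ring.krullDimLE_zero_iff]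
    intro P hP
    have h1 : maximalIdeal S ≤ P.comap (Ideal.Quotient.mk _) := by
      refine Ideal.IsPrime.le_of_pow_le (n := N) (hpow.trans fun a ha => ?_)
      rw [Ideal.mem_comap, Ideal.Quotient.eq_zero_iff_mem.2 ha]
      exact zero_mem _
    have h2 : P.comap (Ideal.Quotient.mk _) = maximalIdeal S :=
      le_antisymm (le_maximalIdeal (Ideal.comap_ne_top _ hP.ne_top)) h1
    have h3 := Ideal.map_eq_top_or_isMaximal_of_surjective (Ideal.Quotient.mk (ofList (rs ++ [x'])))
      Ideal.Quotient.mk_surjective (maximalIdeal.isMaximal S)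
    rw [← h2, Ideal.map_comap_of_surjective _ Ideal.Quotient.mk_surjective] at h3
    exact h3.resolve_left hP.ne_top
  obtain ⟨s, s1, s2⟩ := socCyc_of_regular hS _ hg hdim
  rw [hJ] at s1 s2
  have hcontr : ∀ a : R, algebraMap R T a ∈ span {algebraMap R T x} → a ∈ span {x} := by
    intro a ha
    rw [← Ideal.comap_map_eq_self_of_faithfullyFlat (B := T) (span {x}), Ideal.mem_comap,
      Ideal.map_span, Set.image_singleton]
    exact ha
  have hsocT : ∀ v : R, (∀ r ∈ maximalIdeal R, r * v ∈ span {x}) →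
      ∀ r ∈ maximalIdeal T, r * algebraMap R T v ∈ span {algebraMap R T x} := by
    intro v hv r hr
    have : maximalIdeal T ≤ (span {algebraMap R T x}).colon {algebraMap R T v} := by
      rw [hmax, Ideal.map_le_iff_le_comap]
      intro a ha
      rw [Ideal.mem_comap, Submodule.mem_colon_singleton, smul_eq_mul, ← map_mul,
        ← Set.image_singleton, ← Ideal.map_span]
      exact Ideal.mem_map_of_mem _ (hv a ha)
    have := this hr
    rwa [Submodule.mem_colon_singleton, smul_eq_mul] at this
  have hcoef : ∀ v : R, (∀ r ∈ maximalIdeal R, r * v ∈ span {x}) →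
      ∃ c : T, algebraMap R T v - c * φ s ∈ span {algebraMap R T x} := by
    intro v hv
    obtain ⟨v', hv'⟩ := hφ (algebraMap R T v)
    obtain ⟨c, hc⟩ := s2 v' fun r hr => by
      rw [Ideal.mem_comap, map_mul, hv']
      exact hsocT v hv _ (hmap ▸ Ideal.mem_map_of_mem _ hr)
    rw [Ideal.mem_comap, map_sub, map_mul, hv'] at hc
    exact ⟨_, hc⟩
  by_cases hex : ∃ u : R, (∀ r ∈ maximalIdeal R, r * u ∈ span {x}) ∧ u ∉ span {x}
  · obtain ⟨u, hu, hu'⟩ := hex
    refine ⟨u, hu, fun v hv => ?_⟩
    obtain ⟨c1, e1⟩ := hcoef u hu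
    obtain ⟨c2, e2⟩ := hcoef v hv
    have hc1 : IsUnit c1 := by
      by_contra hnu
      obtain ⟨c', rfl⟩ := hφ c1
      have h1 : c' ∈ maximalIdeal S := fun h => hnu (h.map φ)
      have h2 := s1 c' h1
      rw [Ideal.mem_comap, map_mul] at h2
      exact hu' (hcontr u (by simpa using add_mem e1 h2))
    obtain ⟨d, hd⟩ := hc1.exists_left_inv
    obtain ⟨c0, hc0⟩ := hres (c2 * d)
    refine ⟨c0, hcontr _ ?_⟩
    have : algebraMap R T (v - c0 * u) = (algebraMap R T v - c2 * φ s) -
        (c2 * d) * (algebraMap R T u - c1 * φ s) +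
        (c2 * d - algebraMap R T c0) * algebraMap R T u := by
      rw [map_sub, map_mul]
      linear_combination (-c2 * φ s) * hd
    rw [this]
    exact add_mem (sub_mem e2 (Ideal.mul_mem_left _ _ e1)) (hsocT u hu _ hc0)
  · push Not at hex
    exact ⟨0, fun r _ => by simp, fun v hv => ⟨0, by simpa using hex v hv⟩⟩

end Pool.Agent.Work.MP_34725c_ag
end

-- merged part: Pool.Agent.Work.MP_34725c_ag.Main
section
set_option autoImplicit false

namespace Pool.Agent.Work.MP_34725c_ag

open IsLocalRing Ideal RingTheory.Sequence Pointwise Module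

universe u v

section
variable {R : Type u} [CommRing R] [IsDomain R] [IsNoetherianRing R] [Ring.KrullDimLE 1 R]

theorem isArtinianRing_quot {x : R} (hx : x ≠ 0) : IsArtinianRing (R ⧸ span {x}) := by
  have h := isFiniteLength_quotient_span_singleton R (mem_nonZeroDivisors_of_ne_zero hx)
  rw [isFiniteLength_iff_isNoetherian_isArtinian] at h
  have := h.2
  exact isArtinian_of_tower R this

theorem length_quotSMulTop_ne_top {x : R} (hx : x ≠ 0) (L : Type v) [AddCommGroup L]
    [Module R L] [Module.Finite R L] : Module.length R (QuotSMulTop x L) ≠ ⊤ := by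
  have := isArtinianRing_quot hx
  have : Module.Finite (R ⧸ span {x}) (QuotSMulTop x L) :=
    Module.Finite.of_restrictScalars_finite R _ _
  rw [Module.length_eq_of_surjective (R := R ⧸ span {x}) Ideal.Quotient.mk_surjective]
  exact Module.length_ne_top

theorem length_rank_one {x : R} (L : Type v) [AddCommGroup L] [Module R L] [Module.Finite R L]
    [NoZeroSMulDivisors R L] (hx : x ≠ 0) {m : L} (hm : m ≠ 0)
    (hr : ∀ u : L, ∃ a b : R, a ≠ 0 ∧ a • u = b • m) :
    Module.length R (QuotSMulTop x L) = Module.length R (R ⧸ span {x}) := by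
  have htf : ∀ (a : R) (u : L), a ≠ 0 → a • u = 0 → u = 0 := fun a u ha h =>
    (eq_zero_or_eq_zero_of_smul_eq_zero h).resolve_left ha
  let N : Submodule R L := R ∙ m
  let P : Submodule R L := R ∙ (x • m)
  have hfin : Module.length R (L ⧸ N) ≠ ⊤ := by
    have htor : Module.IsTorsion R (L ⧸ N) := by
      intro q
      obtain ⟨u, rfl⟩ := Submodule.Quotient.mk_surjective _ q
      obtain ⟨a, b, ha, hab⟩ := hr u
      refine ⟨⟨a, mem_nonZeroDivisors_of_ne_zero ha⟩, ?_⟩
      change a • (Submodule.Quotient.mk u : L ⧸ N) = 0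
      rw [← Submodule.Quotient.mk_smul, Submodule.Quotient.mk_eq_zero, hab]
      exact Submodule.smul_mem _ _ (Submodule.mem_span_singleton_self m)
    obtain ⟨r, hr1, hr2⟩ := Submodule.annihilator_top_inter_nonZeroDivisors htor
    have hle : r • (⊤ : Submodule R L) ≤ N := by
      intro u hu
      obtain ⟨w, -, rfl⟩ := (Submodule.mem_smul_pointwise_iff_exists _ _ _).1 hu
      rw [← Submodule.Quotient.mk_eq_zero, Submodule.Quotient.mk_smul]
      exact Submodule.mem_annihilator.1 hr1 _ trivial
    have := Module.length_le_of_surjective (Submodule.factor hle) (Submodule.factor_surjective hle)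
    exact ne_top_of_le_ne_top (length_quotSMulTop_ne_top (nonZeroDivisors.ne_zero hr2) L) this
  have hPN : P ≤ N := by
    rw [Submodule.span_singleton_le_iff_mem]
    exact Submodule.smul_mem _ _ (Submodule.mem_span_singleton_self m)
  have hPx : P ≤ x • (⊤ : Submodule R L) := by
    rw [Submodule.span_singleton_le_iff_mem]
    exact Submodule.smul_mem_pointwise_smul _ _ _ trivial
  let f1 : (L ⧸ N) →ₗ[R] L ⧸ P := N.mapQ P (LinearMap.lsmul R L x) (by
    rw [Submodule.span_singleton_le_iff_mem]
    exact Submodule.mem_span_singleton_self _)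
  let f2 : (R ⧸ span {x}) →ₗ[R] L ⧸ P :=
    Submodule.mapQ (span {x}) P (LinearMap.toSpanSingleton R L m) (by
      rw [Ideal.span_singleton_le_iff_mem]
      exact Submodule.mem_span_singleton_self _)
  have e1 := Module.length_eq_add_of_exact f1 (Submodule.factor hPx) (by
      rw [injective_iff_map_eq_zero]
      intro q hq
      obtain ⟨u, rfl⟩ := Submodule.Quotient.mk_surjective _ q
      have : x • u ∈ P := (Submodule.Quotient.mk_eq_zero _).1 hq
      obtain ⟨c, hc⟩ := Submodule.mem_span_singleton.1 this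
      rw [Submodule.Quotient.mk_eq_zero, Submodule.mem_span_singleton]
      refine ⟨c, sub_eq_zero.1 (htf x _ hx ?_)⟩
      rw [smul_sub, smul_comm, hc, sub_self])
    (Submodule.factor_surjective hPx) (by
      intro q
      obtain ⟨u, rfl⟩ := Submodule.Quotient.mk_surjective _ q
      constructor
      · intro h
        have : u ∈ x • (⊤ : Submodule R L) := (Submodule.Quotient.mk_eq_zero _).1 h
        obtain ⟨w, -, rfl⟩ := (Submodule.mem_smul_pointwise_iff_exists _ _ _).1 this
        exact ⟨Submodule.Quotient.mk w, rfl⟩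
      · rintro ⟨q, hq⟩
        obtain ⟨w, rfl⟩ := Submodule.Quotient.mk_surjective _ q
        rw [← hq]
        exact (Submodule.Quotient.mk_eq_zero _).2 (Submodule.smul_mem_pointwise_smul _ _ _ trivial))
  have e2 := Module.length_eq_add_of_exact f2 (Submodule.factor hPN) (by
      rw [injective_iff_map_eq_zero]
      intro q hq
      obtain ⟨u, rfl⟩ := Submodule.Quotient.mk_surjective _ q
      have : u • m ∈ P := (Submodule.Quotient.mk_eq_zero _).1 hq
      obtain ⟨c, hc⟩ := Submodule.mem_span_singleton.1 this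
      rw [Submodule.Quotient.mk_eq_zero, Ideal.mem_span_singleton']
      rw [smul_smul, ← sub_eq_zero, ← sub_smul] at hc
      exact ⟨c, sub_eq_zero.1 ((eq_zero_or_eq_zero_of_smul_eq_zero hc).resolve_right hm)⟩)
    (Submodule.factor_surjective hPN) (by
      intro q
      obtain ⟨u, rfl⟩ := Submodule.Quotient.mk_surjective _ q
      constructor
      · intro h
        have : u ∈ N := (Submodule.Quotient.mk_eq_zero _).1 h
        obtain ⟨c, rfl⟩ := Submodule.mem_span_singleton.1 this
        exact ⟨Submodule.Quotient.mk c, rfl⟩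
      · rintro ⟨q, hq⟩
        obtain ⟨w, rfl⟩ := Submodule.Quotient.mk_surjective _ q
        rw [← hq]
        exact (Submodule.Quotient.mk_eq_zero _).2
          (Submodule.smul_mem _ _ (Submodule.mem_span_singleton_self m)))
  rw [e1, add_comm] at e2
  exact WithTop.add_right_cancel hfin e2

end

theorem lift_of_rigid {R : Type} [CommRing R] {M : Type} [AddCommGroup M] [Module R M]
    [NoZeroSMulDivisors R M] {x : R} (hx : x ≠ 0)
    (hrig : ∀ (E : Type) [AddCommGroup E] [Module R E] (f : M →ₗ[R] E) (g : E →ₗ[R] M),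
      Function.Injective f → Function.Surjective g → Function.Exact f g →
        ∃ s : M →ₗ[R] E, g.comp s = LinearMap.id) :
    Function.Surjective (QuotSMulTop.map x : (M →ₗ[R] M) → _) := by
  intro a
  let q : M →ₗ[R] QuotSMulTop x M := Submodule.mkQ _
  let E : Submodule R (M × M) :=
    LinearMap.ker (q ∘ₗ LinearMap.fst R M M - a ∘ₗ q ∘ₗ LinearMap.snd R M M)
  have hE : ∀ p : M × M, p ∈ E ↔ q p.1 = a (q p.2) := fun p =>
    (sub_eq_zero (a := q p.1) (b := a (q p.2)))
  let f : M →ₗ[R] E := LinearMap.codRestrict E ((LinearMap.lsmul R M x).prod 0) (fun m => by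
    rw [hE]
    change q (x • m) = a (q 0)
    rw [map_zero, map_zero]
    exact (quotSMulTop_eq_zero x _).2 ⟨m, rfl⟩)
  let g : E →ₗ[R] M := LinearMap.snd R M M ∘ₗ E.subtype
  obtain ⟨s, hs⟩ := hrig E f g (by
      rw [injective_iff_map_eq_zero]
      intro m hm
      have : x • m = 0 := congrArg (fun p : E => p.1.1) hm
      exact (eq_zero_or_eq_zero_of_smul_eq_zero this).resolve_left hx) (by
      intro m
      obtain ⟨u, hu⟩ := Submodule.mkQ_surjective _ (a (q m))
      exact ⟨⟨(u, m), (hE _).2 hu⟩, rfl⟩) (by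
      rintro ⟨⟨u, m⟩, hp⟩
      constructor
      · intro h
        obtain rfl : m = 0 := h
        have h1 : q u = 0 := by simpa using (hE _).1 hp
        obtain ⟨w, rfl⟩ := (quotSMulTop_eq_zero x _).1 h1
        exact ⟨w, rfl⟩
      · rintro ⟨w, hw⟩
        rw [← hw]
        rfl)
  refine ⟨LinearMap.fst R M M ∘ₗ E.subtype ∘ₗ s, LinearMap.ext fun v => ?_⟩
  obtain ⟨m, rfl⟩ := Submodule.mkQ_surjective _ v
  have h1 := (hE _).1 (s m).2
  have h2 : (s m).1.2 = m := LinearMap.congr_fun hs m
  rw [h2] at h1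
  exact h1

/-- A rigid rank one module is cyclic when some parameter cuts out an equicharacteristic
Gorenstein ring of embedding dimension at most two. -/
theorem free_of_param {R : Type} [CommRing R] [IsDomain R] [IsNoetherianRing R] [IsLocalRing R]
    [Ring.KrullDimLE 1 R] {x y z : R} (hx : x ≠ 0) (hm : maximalIdeal R = ofList [x, y, z])
    (hchar : ((ringChar (ResidueField R) : ℕ) : R) ∈ span {x})
    (hsoc : ∃ s : R, (∀ r ∈ maximalIdeal R, r * s ∈ span {x}) ∧
      ∀ v : R, (∀ r ∈ maximalIdeal R, r * v ∈ span {x}) → ∃ c : R, v - c * s ∈ span {x})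
    {M : Type} [AddCommGroup M] [Module R M] [Module.Finite R M] [NoZeroSMulDivisors R M]
    (hrank : Module.rank R M ≤ 1)
    (hrig : ∀ (E : Type) [AddCommGroup E] [Module R E] (f : M →ₗ[R] E) (g : E →ₗ[R] M),
      Function.Injective f → Function.Surjective g → Function.Exact f g →
        ∃ s : M →ₗ[R] E, g.comp s = LinearMap.id) :
    Module.Free R M := by
  rcases subsingleton_or_nontrivial M with hM | hM
  · infer_instance
  obtain ⟨m, hm0⟩ := exists_ne (0 : M)
  have htf : ∀ (a : R) (u : M), a ≠ 0 → a • u = 0 → u = 0 := fun a u ha h =>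
    (eq_zero_or_eq_zero_of_smul_eq_zero h).resolve_left ha
  have hr : ∀ w : M, w ≠ 0 → ∀ u : M, ∃ a b : R, a ≠ 0 ∧ a • u = b • w := by
    intro w hw u
    have hli : ¬ LinearIndependent R ![u, w] := by
      intro h
      have := h.cardinal_lift_le_rank
      simp only [Cardinal.mk_fintype, Fintype.card_fin, Cardinal.lift_id] at this
      have := this.trans hrank
      norm_num at this
    rw [LinearIndependent.pair_iff] at hli
    push Not at hli
    obtain ⟨a, b, hab, hne⟩ := hli
    refine ⟨a, -b, ?_, by rw [neg_smul, eq_neg_iff_add_eq_zero, hab]⟩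
    rintro rfl
    rw [zero_smul, zero_add] at hab
    exact hw (htf b w (hne rfl) hab)
  have hxm : x ∈ maximalIdeal R := hm ▸ Ideal.subset_span (by simp)
  have hne : span {x} ≠ (⊤ : Ideal R) := by
    rw [Ne, Ideal.span_singleton_eq_top]
    exact hxm
  have : Nontrivial (R ⧸ span {x}) := Ideal.Quotient.nontrivial_iff.2 hne
  have hloc : IsLocalRing (R ⧸ span {x}) :=
    IsLocalRing.of_surjective' (Ideal.Quotient.mk _) Ideal.Quotient.mk_surjective
  have hart := isArtinianRing_quot hx
  have hmap : (maximalIdeal R).map (Ideal.Quotient.mk (span {x})) = maximalIdeal _ :=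
    IsLocalRing.map_maximalIdeal_of_surjective _ Ideal.Quotient.mk_surjective
  have hmB : maximalIdeal (R ⧸ span {x}) =
      span {Ideal.Quotient.mk (span {x}) y, Ideal.Quotient.mk (span {x}) z} := by
    rw [← hmap, hm, ofList_cons, Ideal.map_sup, Ideal.map_quotient_self, bot_sup_eq, map_ofList,
      List.map_cons, List.map_cons, List.map_nil, ofList_cons, ofList_singleton,
      Ideal.span_insert]
  have hcharB : ((ringChar (ResidueField (R ⧸ span {x})) : ℕ) : R ⧸ span {x}) = 0 := by
    have : IsLocalHom (Ideal.Quotient.mk (span {x})) :=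
      IsLocalHom.of_surjective _ Ideal.Quotient.mk_surjective
    have e : ringChar (ResidueField (R ⧸ span {x})) = ringChar (ResidueField R) := by
      have := charP_of_injective_ringHom
        (ResidueField.map (Ideal.Quotient.mk (span {x}))).injective (ringChar (ResidueField R))
      exact ringChar.eq _ _
    rw [e, ← map_natCast (Ideal.Quotient.mk (span {x})), Ideal.Quotient.eq_zero_iff_mem]
    exact hchar
  have hsocB : SocCyc (R ⧸ span {x}) (R ⧸ span {x}) := by
    obtain ⟨s, s1, s2⟩ := hsoc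
    refine ⟨Ideal.Quotient.mk _ s, fun r hr => ?_, fun v hv => ?_⟩
    · rw [← hmap] at hr
      obtain ⟨r, hr', rfl⟩ := (Ideal.mem_map_iff_of_surjective _ Ideal.Quotient.mk_surjective).1 hr
      rw [smul_eq_mul, ← map_mul, Ideal.Quotient.eq_zero_iff_mem]
      exact s1 r hr'
    · obtain ⟨v, rfl⟩ := Ideal.Quotient.mk_surjective v
      obtain ⟨c, hc⟩ := s2 v fun r hr => by
        rw [← Ideal.Quotient.eq_zero_iff_mem, map_mul]
        exact hv _ (hmap ▸ Ideal.mem_map_of_mem _ hr)
      exact ⟨Ideal.Quotient.mk _ c, by rw [smul_eq_mul, ← map_mul, Ideal.Quotient.eq]; exact hc⟩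
  have hfinV : Module.Finite (R ⧸ span {x}) (QuotSMulTop x M) :=
    Module.Finite.of_restrictScalars_finite R _ _
  have l1 := length_rank_one M hx hm0 (hr m hm0)
  have hNZ : NoZeroSMulDivisors R (M →ₗ[R] M) := ⟨fun {c f} h => by
    by_cases hc : c = 0
    · exact Or.inl hc
    · exact Or.inr (LinearMap.ext fun u => htf c _ hc (LinearMap.congr_fun h u))⟩
  have l2 := length_rank_one (M →ₗ[R] M) hx (m := LinearMap.id)
    (fun h => hm0 (LinearMap.congr_fun h m)) (fun f => by
      obtain ⟨a, b, ha, hab⟩ := hr m hm0 (f m)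
      refine ⟨a, b, ha, LinearMap.ext fun u => ?_⟩
      obtain ⟨c, d, hc, hcd⟩ := hr m hm0 u
      refine sub_eq_zero.1 (htf c _ hc ?_)
      change c • (a • f u - b • u) = 0
      rw [smul_sub, smul_comm c a, ← map_smul, hcd, map_smul, smul_comm a d, hab, smul_comm c b,
        hcd, smul_comm d b, sub_self])
  have l3 : Module.length R (QuotSMulTop x M →ₗ[R] QuotSMulTop x M) ≤
      Module.length R (QuotSMulTop x (M →ₗ[R] M)) := by
    refine Module.length_le_of_surjective
      ((x • (⊤ : Submodule R (M →ₗ[R] M))).liftQ (QuotSMulTop.map x) ?_) ?_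
    · intro f hf
      obtain ⟨w, -, rfl⟩ := (Submodule.mem_smul_pointwise_iff_exists _ _ _).1 hf
      rw [LinearMap.mem_ker, map_smul]
      refine LinearMap.ext fun v => ?_
      exact Module.mem_annihilator.1 (QuotSMulTop.mem_annihilator M x) _
    · intro a
      obtain ⟨f, hf⟩ := lift_of_rigid hx hrig a
      exact ⟨Submodule.Quotient.mk f, hf⟩
  have l4 : Module.length R (End (R ⧸ span {x}) (QuotSMulTop x M)) ≤
      Module.length R (QuotSMulTop x M →ₗ[R] QuotSMulTop x M) :=
    Module.length_le_of_injective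
      (LinearMap.restrictScalarsₗ R (R ⧸ span {x}) (QuotSMulTop x M) (QuotSMulTop x M) R)
      (LinearMap.restrictScalars_injective R)
  have hsurj : Function.Surjective (algebraMap R (R ⧸ span {x})) := Ideal.Quotient.mk_surjective
  obtain ⟨v, hv⟩ := artin_cyclic hcharB hmB hsocB (QuotSMulTop x M) (by
      rw [← Module.length_eq_of_surjective hsurj, ← Module.length_eq_of_surjective hsurj, l1, ← l2]
      exact l4.trans l3) (by
      rw [← Module.length_eq_of_surjective hsurj, ← Module.length_eq_of_surjective hsurj, l1])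
  obtain ⟨v, rfl⟩ := Submodule.Quotient.mk_surjective _ v
  have hle : (⊤ : Submodule R M) ≤ Submodule.span R {v} ⊔ maximalIdeal R • ⊤ := by
    intro w _
    obtain ⟨b, hb⟩ := hv (Submodule.Quotient.mk w)
    obtain ⟨b, rfl⟩ := hsurj b
    rw [algebraMap_smul, ← Submodule.Quotient.mk_smul, ← sub_eq_zero, ← Submodule.Quotient.mk_sub,
      quotSMulTop_eq_zero] at hb
    obtain ⟨u, hu⟩ := hb
    have : w = b • v + x • u := by rw [hu]; abel
    rw [this]
    exact Submodule.add_mem_sup (Submodule.smul_mem _ _ (Submodule.mem_span_singleton_self v))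
      (Submodule.smul_mem_smul hxm trivial)
  have htop := Submodule.le_of_le_smul_of_le_jacobson_bot Module.Finite.fg_top
    (IsLocalRing.maximalIdeal_le_jacobson ⊥) hle
  have hv0 : v ≠ 0 := by
    rintro rfl
    have := htop (Submodule.mem_top (x := m))
    rw [Submodule.span_zero_singleton] at this
    exact hm0 this
  refine Module.Free.of_equiv (LinearEquiv.ofBijective (LinearMap.toSpanSingleton R M v) ⟨?_, ?_⟩)
  · rw [injective_iff_map_eq_zero]
    intro a ha
    exact (eq_zero_or_eq_zero_of_smul_eq_zero ha).resolve_right hv0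
  · intro w
    exact Submodule.mem_span_singleton.1 (htop (Submodule.mem_top (x := w)))

theorem exists_param {R : Type u} [CommRing R] [IsDomain R] [IsNoetherianRing R] [IsLocalRing R]
    (hdim : ringKrullDim R = 1) (hemb : (maximalIdeal R).spanFinrank ≤ 3)
    (hunr : ((ringChar (ResidueField R) : ℕ) : R) ∈ maximalIdeal R ^ 2 →
      ((ringChar (ResidueField R) : ℕ) : R) = 0) :
    ∃ x y z : R, x ≠ 0 ∧ maximalIdeal R = ofList [x, y, z] ∧
      ((ringChar (ResidueField R) : ℕ) : R) ∈ span {x} := by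
  obtain ⟨t, ht1, ht2⟩ := Submodule.FG.exists_span_finset_card_eq_spanFinrank
    (IsNoetherian.noetherian (maximalIdeal R))
  have hx : ofList t.toList = maximalIdeal R := by
    rw [← ht2]
    have : {r | r ∈ t.toList} = (t : Set R) := by ext x; simp
    rw [ofList, this]
  have hlen : t.toList.length ≤ 3 := by rw [Finset.length_toList, ht1]; exact hemb
  have key : ∀ x ∈ maximalIdeal R, x ∉ maximalIdeal R ^ 2 →
      ∃ y z : R, maximalIdeal R = ofList [x, y, z] := by
    intro x h1 h2
    obtain ⟨l, hl1, hl2⟩ := exchange t.toList x (hx ▸ h1) (by rwa [hx, ← pow_two])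
    rw [hx] at hl2
    match l, hl1, hl2 with
    | [], _, h => exact ⟨0, 0, by rw [← h]; simp⟩
    | [y], _, h => exact ⟨y, 0, by rw [← h]; simp⟩
    | [y, z], _, h => exact ⟨y, z, h.symm⟩
    | _ :: _ :: _ :: _, h, _ => simp only [List.length_cons] at h; omega
  by_cases hp : ((ringChar (ResidueField R) : ℕ) : R) ∈ maximalIdeal R ^ 2
  · have hsq : ¬ maximalIdeal R ≤ maximalIdeal R ^ 2 := by
      intro hle
      rw [pow_two] at hle
      have h0 : maximalIdeal R = ⊥ :=
        Submodule.eq_bot_of_le_smul_of_le_jacobson_bot (maximalIdeal R) (maximalIdeal R)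
          (IsNoetherian.noetherian _) hle (IsLocalRing.maximalIdeal_le_jacobson _)
      have := ringKrullDim_eq_zero_of_isField (IsLocalRing.isField_iff_maximalIdeal_eq.2 h0)
      rw [hdim] at this
      exact one_ne_zero this
    obtain ⟨x, h1, h2⟩ := Set.not_subset.1 hsq
    obtain ⟨y, z, h⟩ := key x h1 h2
    refine ⟨x, y, z, ?_, h, ?_⟩
    · rintro rfl
      exact h2 (zero_mem _)
    · rw [hunr hp]
      exact zero_mem _
  · have h1 : ((ringChar (ResidueField R) : ℕ) : R) ∈ maximalIdeal R := by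
      rw [← residue_eq_zero_iff, map_natCast]
      exact ringChar.Nat.cast_ringChar
    obtain ⟨y, z, h⟩ := key _ h1 hp
    refine ⟨_, y, z, ?_, h, Ideal.mem_span_singleton_self _⟩
    intro h0
    exact hp (h0 ▸ zero_mem _)

theorem main (R : Type) [CommRing R] [IsDomain R] [IsNoetherianRing R] [IsLocalRing R]
    (hdim : ringKrullDim R = 1)
    (hci : ∃ (S : Type) (_ : CommRing S) (_ : IsLocalRing S) (_ : IsNoetherianRing S)
       (φ : S →+* AdicCompletion (IsLocalRing.maximalIdeal R) R) (rs : List S),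
       (((IsLocalRing.maximalIdeal S).spanFinrank : ℕ) : WithBot ℕ∞) = ringKrullDim S ∧
       Function.Surjective φ ∧
       RingHom.ker φ = Ideal.span {r | r ∈ rs} ∧
       RingTheory.Sequence.IsRegular S rs)
    (hemb : (maximalIdeal R).spanFinrank ≤ 3)
    (hunr : ((ringChar (ResidueField R) : ℕ) : R) ∈ maximalIdeal R ^ 2 →
      ((ringChar (ResidueField R) : ℕ) : R) = 0)
    (M : Type) [AddCommGroup M] [Module R M] [Module.Finite R M] [NoZeroSMulDivisors R M]
    (hrank : Module.rank R M ≤ 1)
    (hrig : ∀ (E : Type) [AddCommGroup E] [Module R E] (f : M →ₗ[R] E) (g : E →ₗ[R] M),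
      Function.Injective f → Function.Surjective g → Function.Exact f g →
        ∃ s : M →ₗ[R] E, g.comp s = LinearMap.id) :
    Module.Free R M := by
  have : Ring.KrullDimLE 1 R := by
    rw [Ring.krullDimLE_iff, hdim]
    exact le_rfl
  obtain ⟨x, y, z, hx, hm, hchar⟩ := exists_param hdim hemb hunr
  obtain ⟨S, _, _, _, φ, rs, hS, hφ, hker, hrs⟩ := hci
  have hxm : x ∈ maximalIdeal R := hm ▸ Ideal.subset_span (by simp)
  obtain ⟨N, hN⟩ : ∃ N : ℕ, maximalIdeal R ^ N ≤ span {x} := by
    have hart := isArtinianRing_quot hx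
    obtain ⟨N, hN⟩ := IsArtinianRing.isNilpotent_jacobson_bot (R := R ⧸ span {x})
    refine ⟨N, ?_⟩
    rw [← Ideal.mk_ker (I := span {x}), ← Ideal.map_eq_bot_iff_le_ker, Ideal.map_pow, eq_bot_iff,
      ← Ideal.zero_eq_bot, ← hN]
    refine Ideal.pow_right_mono ?_ N
    refine le_trans (Ideal.map_mono (IsLocalRing.maximalIdeal_le_jacobson (span {x}))) ?_
    rw [Ideal.map_jacobson_of_surjective Ideal.Quotient.mk_surjective (by simp),
      Ideal.map_quotient_self]
  refine free_of_param hx hm hchar ?_ hrank hrig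
  refine socle_of_ci AdicCompletion.maximalIdeal_eq_map (fun c => ?_) hS φ hφ rs hker hrs hxm
    (IsSMulRegular.of_ne_zero hx) hN
  obtain ⟨c0, hc0⟩ := (AdicCompletion.residueField_map_bijective R).2 (residue _ c)
  obtain ⟨c0, rfl⟩ := residue_surjective c0
  refine ⟨c0, ?_⟩
  rw [← residue_eq_zero_iff, map_sub, ← hc0, ResidueField.map_residue, sub_self]

end Pool.Agent.Work.MP_34725c_ag
end
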