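import Mathlib

-- merged part: Pool.Agent.Work.MP_34725c_ag.TwDd
section
/-! Divided differences of polynomials in two commuting operators, and a Herbrand quotient
argument. -/

set_option autoImplicit false

namespace Pool.Agent.Work.MP_34725c_ag.Tw

open Polynomial Finset

section dd

variable {S : Type*} [CommRing S] {W W' : Type*} [AddCommGroup W] [Module S W]
  [AddCommGroup W'] [Module S W']

/-- the divided difference of `q` at the operators `L`, `R` -/
noncomputable def dd (L R : Module.End S W) (q : S[X]) : Module.End S W :=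
  q.sum fun n c => c • ∑ j ∈ range n, L ^ j * R ^ (n - 1 - j)

theorem pow_inter {α : W →ₗ[S] W'} {L : Module.End S W} {L' : Module.End S W'}
    (h : ∀ w, α (L w) = L' (α w)) (n : ℕ) (w : W) : α ((L ^ n) w) = (L' ^ n) (α w) := by
  induction n generalizing w with
  | zero => simp
  | succ n ih => rw [pow_succ, pow_succ, Module.End.mul_apply, Module.End.mul_apply, ih, h]

theorem aeval_inter {α : W →ₗ[S] W'} {L : Module.End S W} {L' : Module.End S W'}
    (h : ∀ w, α (L w) = L' (α w)) (q : S[X]) (w : W) : α (aeval L q w) = aeval L' q (α w) := by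
  induction q using Polynomial.induction_on' with
  | add p q hp hq => simp [hp, hq]
  | monomial n c => simp [aeval_monomial, pow_inter h]

theorem dd_inter {α : W →ₗ[S] W'} {L R : Module.End S W} {L' R' : Module.End S W'}
    (hL : ∀ w, α (L w) = L' (α w)) (hR : ∀ w, α (R w) = R' (α w)) (q : S[X]) (w : W) :
    α (dd L R q w) = dd L' R' q (α w) := by
  simp only [dd, Polynomial.sum, LinearMap.sum_apply, LinearMap.smul_apply, map_sum, map_smul,
    Module.End.mul_apply, pow_inter hL, pow_inter hR]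

theorem sub_mul_dd {L R : Module.End S W} (h : Commute L R) (q : S[X]) :
    (L - R) * dd L R q = aeval L q - aeval R q := by
  simp only [dd, aeval_def, eval₂_eq_sum, Polynomial.sum, mul_sum, ← sum_sub_distrib]
  refine sum_congr rfl fun n _ => ?_
  rw [mul_smul_comm, h.mul_geom_sum₂, ← mul_sub, Algebra.smul_def]

theorem dd_mul_sub {L R : Module.End S W} (h : Commute L R) (q : S[X]) :
    dd L R q * (L - R) = aeval L q - aeval R q := by
  simp only [dd, aeval_def, eval₂_eq_sum, Polynomial.sum, sum_mul, ← sum_sub_distrib]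
  refine sum_congr rfl fun n _ => ?_
  rw [smul_mul_assoc, h.geom_sum₂_mul, ← mul_sub, Algebra.smul_def]

variable {E₁ E₂ : Type*} [AddCommGroup E₁] [Module S E₁] [AddCommGroup E₂] [Module S E₂]

/-- composition on the left -/
def lop (E₂ : Type*) [AddCommGroup E₂] [Module S E₂] (A : Module.End S E₁) :
    Module.End S (E₂ →ₗ[S] E₁) := LinearMap.llcomp S E₂ E₁ E₁ A

/-- composition on the right -/
def rop (E₁ : Type*) [AddCommGroup E₁] [Module S E₁] (B : Module.End S E₂) :
    Module.End S (E₂ →ₗ[S] E₁) := LinearMap.lcomp S E₁ B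

@[simp] theorem lop_apply (A : Module.End S E₁) (φ : E₂ →ₗ[S] E₁) (v : E₂) :
    lop E₂ A φ v = A (φ v) := rfl

@[simp] theorem rop_apply (B : Module.End S E₂) (φ : E₂ →ₗ[S] E₁) (v : E₂) :
    rop E₁ B φ v = φ (B v) := rfl

theorem lop_rop (A : Module.End S E₁) (B : Module.End S E₂) : Commute (lop E₂ A) (rop E₁ B) :=
  rfl

theorem lop_pow (A : Module.End S E₁) (n : ℕ) (φ : E₂ →ₗ[S] E₁) (v : E₂) :
    (lop E₂ A ^ n) φ v = (A ^ n) (φ v) :=
  pow_inter (α := LinearMap.applyₗ v) (L := lop E₂ A) (L' := A) (fun _ => rfl) n φ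

theorem rop_pow (B : Module.End S E₂) (n : ℕ) (φ : E₂ →ₗ[S] E₁) (v : E₂) :
    (rop E₁ B ^ n) φ v = φ ((B ^ n) v) := by
  induction n generalizing φ v with
  | zero => simp
  | succ n ih => rw [pow_succ, Module.End.mul_apply, ih, pow_succ', Module.End.mul_apply]; rfl

theorem aeval_lop (A : Module.End S E₁) (q : S[X]) (φ : E₂ →ₗ[S] E₁) (v : E₂) :
    aeval (lop E₂ A) q φ v = aeval A q (φ v) :=
  aeval_inter (α := LinearMap.applyₗ v) (L := lop E₂ A) (L' := A) (fun _ => rfl) q φ

theorem aeval_rop (B : Module.End S E₂) (q : S[X]) (φ : E₂ →ₗ[S] E₁) (v : E₂) :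
    aeval (rop E₁ B) q φ v = φ (aeval B q v) := by
  induction q using Polynomial.induction_on' with
  | add p q hp hq => simp [hp, hq]
  | monomial n c => simp [aeval_monomial, rop_pow]

/-- the relative trace -/
noncomputable def tr (A : Module.End S E₁) (B : Module.End S E₂) (q : S[X]) :
    Module.End S (E₂ →ₗ[S] E₁) := dd (lop E₂ A) (rop E₁ B) q

/-- the commutator -/
def cm (A : Module.End S E₁) (B : Module.End S E₂) : Module.End S (E₂ →ₗ[S] E₁) :=
  lop E₂ A - rop E₁ B

@[simp] theorem cm_apply (A : Module.End S E₁) (B : Module.End S E₂) (φ : E₂ →ₗ[S] E₁) (v : E₂) :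
    cm A B φ v = A (φ v) - φ (B v) := rfl

theorem tr_apply (A : Module.End S E₁) (B : Module.End S E₂) (q : S[X]) (φ : E₂ →ₗ[S] E₁)
    (v : E₂) : tr A B q φ v =
      ∑ n ∈ q.support, q.coeff n • ∑ j ∈ range n, (A ^ j) (φ ((B ^ (n - 1 - j)) v)) := by
  simp only [tr, dd, Polynomial.sum, LinearMap.sum_apply, LinearMap.smul_apply,
    Module.End.mul_apply, lop_pow, rop_pow]

theorem cm_tr {A : Module.End S E₁} {B : Module.End S E₂} {q : S[X]} (hA : aeval A q = 0)
    (hB : aeval B q = 0) (φ : E₂ →ₗ[S] E₁) : cm A B (tr A B q φ) = 0 := by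
  ext v
  have := LinearMap.congr_fun (LinearMap.congr_fun (sub_mul_dd (lop_rop A B) q) φ) v
  rw [LinearMap.sub_apply, LinearMap.sub_apply, aeval_lop, aeval_rop, hA, hB,
    LinearMap.zero_apply, LinearMap.zero_apply, map_zero, sub_zero] at this
  exact this

theorem tr_cm {A : Module.End S E₁} {B : Module.End S E₂} {q : S[X]} (hA : aeval A q = 0)
    (hB : aeval B q = 0) (φ : E₂ →ₗ[S] E₁) : tr A B q (cm A B φ) = 0 := by
  ext v
  have := LinearMap.congr_fun (LinearMap.congr_fun (dd_mul_sub (lop_rop A B) q) φ) v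
  rw [LinearMap.sub_apply, LinearMap.sub_apply, aeval_lop, aeval_rop, hA, hB,
    LinearMap.zero_apply, LinearMap.zero_apply, map_zero, sub_zero] at this
  exact this

variable {F₁ F₂ : Type*} [AddCommGroup F₁] [Module S F₁] [AddCommGroup F₂] [Module S F₂]

theorem tr_comp {A : Module.End S E₁} {B : Module.End S E₂} {A' : Module.End S F₁}
    {B' : Module.End S F₂} {i : E₁ →ₗ[S] F₁} {p : F₂ →ₗ[S] E₂} (hi : ∀ v, i (A v) = A' (i v))
    (hp : ∀ v, p (B' v) = B (p v)) (q : S[X]) (φ : E₂ →ₗ[S] E₁) (v : F₂) :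
    tr A' B' q (i ∘ₗ φ ∘ₗ p) v = i (tr A B q φ (p v)) := by
  simp only [tr_apply, map_sum, map_smul, LinearMap.comp_apply, pow_inter hi, pow_inter hp]

theorem pow_add_sq_zero {Y Z : Module.End S E₁} (h : ∀ (j : ℕ) v, Z ((Y ^ j) (Z v)) = 0) (n : ℕ)
    (v : E₁) : ((Y + Z) ^ n) v =
      (Y ^ n) v + ∑ j ∈ range n, (Y ^ j) (Z ((Y ^ (n - 1 - j)) v)) := by
  induction n with
  | zero => simp
  | succ n ih =>
    rw [pow_succ', Module.End.mul_apply, ih, sum_range_succ', LinearMap.add_apply, map_add,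
      map_add, map_sum, map_sum]
    simp only [h, sum_const_zero, add_zero, pow_zero, Module.End.one_apply, Nat.add_sub_cancel,
      Nat.sub_zero]
    rw [pow_succ', Module.End.mul_apply, add_assoc]
    congr 2
    refine sum_congr rfl fun j _ => ?_
    rw [pow_succ', Module.End.mul_apply, show n - (j + 1) = n - 1 - j by omega]

theorem aeval_add_sq_zero {Y Z : Module.End S E₁} (h : ∀ (j : ℕ) v, Z ((Y ^ j) (Z v)) = 0)
    (q : S[X]) (v : E₁) : aeval (Y + Z) q v = aeval Y q v + tr Y Y q Z v := by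
  simp only [tr_apply, aeval_def, eval₂_eq_sum, Polynomial.sum, LinearMap.sum_apply,
    Module.End.mul_apply, pow_add_sq_zero h, ← sum_add_distrib, Module.algebraMap_end_apply,
    smul_add]

end dd

section herbrand

variable {S : Type*} [CommRing S] {W W₀ : Type*} [AddCommGroup W] [Module S W]
  [AddCommGroup W₀] [Module S W₀]

theorem herbrand_fin {N h : Module.End S W} (hf : Module.length S W ≠ ⊤)
    (hN : ∀ w, h (N w) = 0) (Nh : ∀ w, N (h w) = 0) (e : ∀ w, N w = 0 → ∃ u, h u = w) (w : W)
    (hw : h w = 0) : ∃ u, N u = w := by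
  have len : ∀ f : Module.End S W, Module.length S W =
      Module.length S (LinearMap.ker f) + Module.length S (LinearMap.range f) := fun f =>
    Module.length_eq_add_of_exact (LinearMap.ker f).subtype f.rangeRestrict
      (Submodule.injective_subtype _) f.surjective_rangeRestrict (by
        rw [LinearMap.exact_iff, LinearMap.ker_rangeRestrict, Submodule.range_subtype])
  have e1 : LinearMap.ker N = LinearMap.range h := by
    refine le_antisymm (fun w hw => e w hw) ?_
    rintro _ ⟨u, rfl⟩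
    exact Nh u
  have fin : ∀ P : Submodule S W, Module.length S P ≠ ⊤ := fun P =>
    ne_top_of_le_ne_top hf (Module.length_le_of_injective P.subtype P.injective_subtype)
  have e2 : Module.length S (LinearMap.range N) = Module.length S (LinearMap.ker h) := by
    have a := len N
    rw [e1, len h, add_comm] at a
    exact (WithTop.add_left_cancel (fin _) a).symm
  have le : LinearMap.range N ≤ LinearMap.ker h := by
    rintro _ ⟨u, rfl⟩
    exact hN u
  have e3 := Module.length_eq_add_of_exact (Submodule.inclusion le)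
    (LinearMap.range (Submodule.inclusion le)).mkQ (Submodule.inclusion_injective le)
    (Submodule.mkQ_surjective _) (LinearMap.exact_map_mkQ_range _)
  rw [← e2] at e3
  have e4 : Module.length S (LinearMap.ker h ⧸ LinearMap.range (Submodule.inclusion le)) = 0 := by
    have : Module.length S (LinearMap.range N) + 0 = Module.length S (LinearMap.range N) + _ :=
      (add_zero _).trans e3
    exact (WithTop.add_left_cancel (fin _) this).symm
  rw [Module.length_eq_zero_iff, Submodule.Quotient.subsingleton_iff] at e4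
  obtain ⟨⟨_, u, rfl⟩, hu⟩ : (⟨w, hw⟩ : LinearMap.ker h) ∈
    LinearMap.range (Submodule.inclusion le) := e4 ▸ Submodule.mem_top
  exact ⟨u, congrArg Subtype.val hu⟩

theorem herbrand {N h : Module.End S W} {N₀ h₀ : Module.End S W₀} (α : W →ₗ[S] W₀)
    (inj : Function.Injective α) (aN : ∀ w, α (N w) = N₀ (α w)) (ah : ∀ w, α (h w) = h₀ (α w))
    (hf : Module.length S (W₀ ⧸ LinearMap.range α) ≠ ⊤)
    (hN : ∀ w, h₀ (N₀ w) = 0) (Nh : ∀ w, N₀ (h₀ w) = 0)
    (e₀ : ∀ w, N₀ w = 0 → ∃ u, h₀ u = w) (o : ∀ w, h w = 0 → ∃ u, N u = w) (w : W)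
    (hw : N w = 0) : ∃ u, h u = w := by
  let P := LinearMap.range α
  let N' : Module.End S (W₀ ⧸ P) := P.mapQ P N₀ (by
    rintro _ ⟨u, rfl⟩
    exact ⟨N u, aN u⟩)
  let h' : Module.End S (W₀ ⧸ P) := P.mapQ P h₀ (by
    rintro _ ⟨u, rfl⟩
    exact ⟨h u, ah u⟩)
  have key := herbrand_fin (N := N') (h := h') hf (by
      intro q
      obtain ⟨u, rfl⟩ := P.mkQ_surjective q
      change P.mkQ (h₀ (N₀ u)) = 0
      rw [hN, map_zero]) (by
      intro q
      obtain ⟨u, rfl⟩ := P.mkQ_surjective q
      change P.mkQ (N₀ (h₀ u)) = 0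
      rw [Nh, map_zero]) (by
      intro q hq
      obtain ⟨u, rfl⟩ := P.mkQ_surjective q
      obtain ⟨a, ha⟩ : N₀ u ∈ P := (Submodule.Quotient.mk_eq_zero P).1 hq
      obtain ⟨b, rfl⟩ := o a (inj (by rw [ah, ha, hN, map_zero]))
      obtain ⟨v, hv⟩ := e₀ (u - α b) (by rw [map_sub, ← aN, ha, sub_self])
      refine ⟨P.mkQ v, ?_⟩
      change P.mkQ (h₀ v) = P.mkQ u
      rw [hv, map_sub, sub_eq_self]
      exact (Submodule.Quotient.mk_eq_zero P).2 ⟨b, rfl⟩)
  obtain ⟨v, hv⟩ := e₀ (α w) (by rw [← aN, hw, map_zero])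
  obtain ⟨q, hq⟩ := key (P.mkQ v) (by
    change P.mkQ (h₀ v) = 0
    rw [hv]
    exact (Submodule.Quotient.mk_eq_zero P).2 ⟨w, rfl⟩)
  obtain ⟨u, rfl⟩ := P.mkQ_surjective q
  obtain ⟨b, hb⟩ : v - N₀ u ∈ P := (Submodule.Quotient.eq P).1 hq.symm
  exact ⟨b, inj (by rw [ah, hb, map_sub, hN, sub_zero, hv])⟩

end herbrand

end Pool.Agent.Work.MP_34725c_ag.Tw
end

-- merged part: Pool.Agent.Work.MP_34725c_ag.TwRig
section
/-! Rigid modules, modules with a rank, and flat base change. -/

set_option autoImplicit false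

namespace Pool.Agent.Work.MP_34725c_ag.Tw

open TensorProduct nonZeroDivisors

/-- every self-extension splits -/
def Rigid (R : Type) [CommRing R] (M : Type) [AddCommGroup M] [Module R M] : Prop :=
  ∀ (E : Type) [AddCommGroup E] [Module R E] (f : M →ₗ[R] E) (g : E →ₗ[R] M),
    Function.Injective f → Function.Surjective g → Function.Exact f g →
      ∃ s : M →ₗ[R] E, g.comp s = LinearMap.id

/-- torsion free and isogenous to a finite free module -/
def HasRank (R : Type) [CommRing R] (M : Type) [AddCommGroup M] [Module R M] : Prop :=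
  ∃ (F : Type) (_ : AddCommGroup F) (_ : Module R F) (_ : Module.Free R F)
    (_ : Module.Finite R F) (c : R) (ι : F →ₗ[R] M) (π : M →ₗ[R] F),
    c ∈ R⁰ ∧ Function.Injective π ∧ (∀ m, ι (π m) = c • m) ∧ ∀ v, π (ι v) = c • v

section basic

variable {S : Type*} [CommRing S] {E N P : Type*} [AddCommGroup E] [Module S E]
  [AddCommGroup N] [Module S N] [AddCommGroup P] [Module S P]

theorem factor_inj {i : N →ₗ[S] E} (hi : Function.Injective i) (f : P →ₗ[S] E)
    (h : ∀ x, ∃ n, i n = f x) : ∃ v : P →ₗ[S] N, ∀ x, i (v x) = f x :=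
  ⟨(LinearEquiv.ofInjective i hi).symm.toLinearMap ∘ₗ f.codRestrict (LinearMap.range i) h,
    fun x => by simp⟩

theorem factor_surj {p : E →ₗ[S] P} (hp : Function.Surjective p) (f : E →ₗ[S] N)
    (h : ∀ e, p e = 0 → f e = 0) : ∃ v : P →ₗ[S] N, ∀ e, v (p e) = f e :=
  ⟨(LinearMap.ker p).liftQ f h ∘ₗ (p.quotKerEquivOfSurjective hp).symm.toLinearMap,
    fun e => by simp⟩

end basic

section push

variable {S : Type} [CommRing S] {Ω F M N : Type} [AddCommGroup Ω] [Module S Ω]
  [AddCommGroup F] [Module S F] [AddCommGroup M] [Module S M] [AddCommGroup N] [Module S N]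
  {j : Ω →ₗ[S] F} {q : F →ₗ[S] M}

theorem exists_push (hj : Function.Injective j) (hq : Function.Surjective q)
    (ex : Function.Exact j q) (u : Ω →ₗ[S] N) :
    ∃ (E : Type) (_ : AddCommGroup E) (_ : Module S E) (i : N →ₗ[S] E) (p : E →ₗ[S] M)
      (w : F →ₗ[S] E), Function.Injective i ∧ Function.Surjective p ∧ Function.Exact i p ∧
      (∀ o, w (j o) = i (u o)) ∧ (∀ f, p (w f) = q f) ∧ (∀ e, ∃ n f, e = i n + w f) ∧
      ∀ (a : N →ₗ[S] E) (b : F →ₗ[S] E), (∀ o, b (j o) = a (u o)) →
        ∃ φ : E →ₗ[S] E, (∀ n, φ (i n) = a n) ∧ ∀ f, φ (w f) = b f := by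
  let P : Submodule S (N × F) := LinearMap.range ((-u).prod j)
  let p : ((N × F) ⧸ P) →ₗ[S] M := P.liftQ (q ∘ₗ LinearMap.snd S N F) (by
    rintro _ ⟨o, rfl⟩
    exact ex.apply_apply_eq_zero o)
  have hw : ∀ o, P.mkQ (0, j o) = P.mkQ (u o, 0) := fun o =>
    (Submodule.Quotient.eq P).2 ⟨o, by simp⟩
  have gen : ∀ e : (N × F) ⧸ P, ∃ n f, e = P.mkQ (n, 0) + P.mkQ (0, f) := by
    intro e
    obtain ⟨⟨n, f⟩, rfl⟩ := P.mkQ_surjective e
    exact ⟨n, f, by rw [← map_add]; simp⟩
  refine ⟨(N × F) ⧸ P, inferInstance, inferInstance, P.mkQ ∘ₗ LinearMap.inl S N F, p,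
    P.mkQ ∘ₗ LinearMap.inr S N F, ?_, ?_, ?_, hw, fun f => rfl, gen, ?_⟩
  · rw [injective_iff_map_eq_zero]
    intro n hn
    obtain ⟨o, ho⟩ : (n, (0 : F)) ∈ P := (Submodule.Quotient.mk_eq_zero P).1 hn
    have h2 : j o = 0 := congrArg Prod.snd ho
    have h1 : -u o = n := congrArg Prod.fst ho
    rw [← h1, hj (h2.trans (map_zero j).symm), map_zero, neg_zero]
  · intro m
    obtain ⟨f, rfl⟩ := hq m
    exact ⟨P.mkQ (0, f), rfl⟩
  · intro e
    constructor
    · intro he
      obtain ⟨⟨n, f⟩, rfl⟩ := P.mkQ_surjective e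
      obtain ⟨o, rfl⟩ := (ex f).1 he
      refine ⟨n + u o, ?_⟩
      change P.mkQ (n + u o, 0) = _
      rw [show ((n + u o, 0) : N × F) = (n, 0) + (u o, 0) by simp, map_add, ← hw, ← map_add]
      simp
    · rintro ⟨n, rfl⟩
      exact map_zero q
  · intro a b hab
    refine ⟨P.liftQ (a.coprod b) ?_, fun n => ?_, fun f => ?_⟩
    · rintro _ ⟨o, rfl⟩
      simp [hab]
    · simp
    · simp

theorem extends_of_section {E : Type} [AddCommGroup E] [Module S E] {i : N →ₗ[S] E}
    {p : E →ₗ[S] M} {w : F →ₗ[S] E} {u : Ω →ₗ[S] N} (ex : Function.Exact j q)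
    (hi : Function.Injective i) (ex' : Function.Exact i p) (h1 : ∀ o, w (j o) = i (u o))
    (h2 : ∀ f, p (w f) = q f) (s : M →ₗ[S] E) (hs : ∀ m, p (s m) = m) :
    ∃ v : F →ₗ[S] N, ∀ o, v (j o) = u o := by
  obtain ⟨v, hv⟩ := factor_inj hi (w - s ∘ₗ q) fun f => (ex' _).1 (by simp [h2, hs])
  exact ⟨v, fun o => hi (by simp [hv, h1, ex.apply_apply_eq_zero])⟩

theorem Rigid.extends (h : Rigid S M) (hj : Function.Injective j) (hq : Function.Surjective q)
    (ex : Function.Exact j q) (u : Ω →ₗ[S] M) : ∃ v : F →ₗ[S] M, ∀ o, v (j o) = u o := by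
  obtain ⟨E, _, _, i, p, w, hi, hp, ex', h1, h2, -⟩ := exists_push hj hq ex u
  obtain ⟨s, hs⟩ := h E i p hi hp ex'
  exact extends_of_section ex hi ex' h1 h2 s (LinearMap.congr_fun hs)

theorem rigid_of_extends [Module.Projective S F] (hq : Function.Surjective q)
    (ex : Function.Exact j q) (h : ∀ u : Ω →ₗ[S] M, ∃ v : F →ₗ[S] M, ∀ o, v (j o) = u o) :
    Rigid S M := by
  intro E _ _ i p hi hp ex'
  obtain ⟨w, hw⟩ := Module.projective_lifting_property p q hp
  have hw' : ∀ f, p (w f) = q f := LinearMap.congr_fun hw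
  obtain ⟨u, hu⟩ := factor_inj hi (w ∘ₗ j) fun o => (ex' _).1 (by
    simp [hw', ex.apply_apply_eq_zero])
  obtain ⟨v, hv⟩ := h u
  obtain ⟨s, hs⟩ := factor_surj hq (w - i ∘ₗ v) fun f hf => by
    obtain ⟨o, rfl⟩ := (ex f).1 hf
    simp [hv, hu]
  refine ⟨s, LinearMap.ext fun m => ?_⟩
  obtain ⟨f, rfl⟩ := hq m
  simp [hs, hw', ex'.apply_apply_eq_zero]

end push

section base

variable {R : Type} [CommRing R] (T : Type) [CommRing T] [Algebra R T] [Module.Flat R T]
  {M : Type} [AddCommGroup M] [Module R M]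

theorem Rigid.baseChange [IsNoetherianRing R] [Module.Finite R M] (h : Rigid R M) :
    Rigid T (T ⊗[R] M) := by
  obtain ⟨n, q, hq⟩ := Module.Finite.exists_fin' R M
  let j := (LinearMap.ker q).subtype
  have ex : Function.Exact j q := LinearMap.exact_subtype_ker_map q
  have : Module.FinitePresentation R (LinearMap.ker q) := Module.finitePresentation_of_finite R _
  refine rigid_of_extends (j := j.baseChange T) (q := q.baseChange T)
    (LinearMap.lTensor_surjective T hq) (lTensor_exact T ex hq) fun u => ?_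
  induction u using (Module.FinitePresentation.isBaseChange_map R (LinearMap.ker q) M
      T).inductionOn with
  | zero => exact ⟨0, fun _ => rfl⟩
  | tmul u =>
    obtain ⟨v, hv⟩ := h.extends (Submodule.injective_subtype _) hq ex u
    refine ⟨v.baseChange T, fun o => ?_⟩
    rw [← LinearMap.comp_apply, ← LinearMap.baseChange_comp, show v ∘ₗ j = u from
      LinearMap.ext hv]
    rfl
  | smul t u hu =>
    obtain ⟨v, hv⟩ := hu
    exact ⟨t • v, fun o => by simp [hv]⟩
  | add u u' hu hu' =>
    obtain ⟨v, hv⟩ := hu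
    obtain ⟨v', hv'⟩ := hu'
    exact ⟨v + v', fun o => by simp [hv, hv']⟩

theorem map_mem_nzd {c : R} (hc : c ∈ R⁰) : algebraMap R T c ∈ T⁰ := by
  have := Module.Flat.isSMulRegular_of_nonZeroDivisors (M := T) hc
  rw [mem_nonZeroDivisors_iff_left]
  intro t ht
  exact this (show c • t = c • (0 : T) by rw [smul_zero, Algebra.smul_def, ht])

theorem HasRank.baseChange (h : HasRank R M) : HasRank T (T ⊗[R] M) := by
  obtain ⟨F, _, _, _, _, c, ι, π, hc, hπ, h1, h2⟩ := h
  refine ⟨T ⊗[R] F, inferInstance, inferInstance, inferInstance, inferInstance, algebraMap R T c,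
    ι.baseChange T, π.baseChange T, map_mem_nzd T hc,
    Module.Flat.lTensor_preserves_injective_linearMap π hπ, fun m => ?_, fun m => ?_⟩
  · induction m with
    | zero => simp
    | tmul t m => simp [h1, smul_tmul']
    | add a b ha hb => simp only [map_add, ha, hb, smul_add]
  · induction m with
    | zero => simp
    | tmul t m => simp [h2, smul_tmul']
    | add a b ha hb => simp only [map_add, ha, hb, smul_add]

theorem hasRank_of_domain [IsDomain R] [Module.Finite R M] [NoZeroSMulDivisors R M] :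
    HasRank R M := by
  classical
  obtain ⟨n, s, hs⟩ := Module.Finite.exists_fin (R := R) (M := M)
  obtain ⟨I, hI, hm⟩ := exists_maximal_linearIndepOn R s
  let ι : (I → R) →ₗ[R] M := Fintype.linearCombination R fun i : I => s i
  have hι : Function.Injective ι := linearIndependent_iff_injective_fintypeLinearCombination.1 hI
  have hr : LinearMap.range ι = Submodule.span R (s '' I) := by
    rw [Fintype.range_linearCombination, ← Set.image_eq_range]
  have hm' : ∀ i, ∃ a : R, a ≠ 0 ∧ a • s i ∈ LinearMap.range ι := by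
    intro i
    rw [hr]
    by_cases hi : i ∈ I
    · exact ⟨1, one_ne_zero, by rw [one_smul]; exact Submodule.subset_span ⟨i, hi, rfl⟩⟩
    · exact hm i hi
  choose a ha0 ha using hm'
  have hc : ∏ i, a i ≠ 0 := Finset.prod_ne_zero_iff.2 fun i _ => ha0 i
  obtain ⟨π, hπ⟩ := factor_inj hι ((∏ i, a i) • LinearMap.id) (by
    intro m
    have : m ∈ Submodule.span R (Set.range s) := hs ▸ Submodule.mem_top
    change (∏ i, a i) • m ∈ LinearMap.range ι
    induction this using Submodule.span_induction with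
    | mem x hx =>
      obtain ⟨i, rfl⟩ := hx
      rw [← Finset.prod_erase_mul _ _ (Finset.mem_univ i), mul_smul]
      exact Submodule.smul_mem _ _ (ha i)
    | zero => simp
    | add x y _ _ hx hy => rw [smul_add]; exact add_mem hx hy
    | smul r x _ hx => rw [smul_comm]; exact Submodule.smul_mem _ _ hx)
  refine ⟨I → R, inferInstance, inferInstance, inferInstance, inferInstance, ∏ i, a i, ι, π,
    mem_nonZeroDivisors_of_ne_zero hc, ?_, hπ, fun v => hι (by simp [hπ])⟩
  rw [injective_iff_map_eq_zero]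
  intro m hm
  have := hπ m
  rw [hm, map_zero] at this
  exact (eq_zero_or_eq_zero_of_smul_eq_zero this.symm).resolve_left hc

end base

end Pool.Agent.Work.MP_34725c_ag.Tw
end

-- merged part: Pool.Agent.Work.MP_34725c_ag.TwPar
section
/-! Local rings with a regular parameter, and their simple extensions. -/

set_option autoImplicit false

namespace Pool.Agent.Work.MP_34725c_ag.Tw

open IsLocalRing nonZeroDivisors Polynomial

/-- `x` is a regular parameter of the local ring `S` -/
structure Par (S : Type) [CommRing S] [IsLocalRing S] (x : S) : Prop where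
  reg : x ∈ S⁰
  mem : x ∈ maximalIdeal S
  nil : maximalIdeal S ≤ (Ideal.span {x}).radical

section par

variable {S : Type} [CommRing S] [IsLocalRing S] [IsNoetherianRing S] {x : S}

theorem Par.dim (h : Par S x) : Ring.KrullDimLE 1 S := by
  have hm : maximalIdeal S ∈ (Ideal.span {x}).minimalPrimes := by
    refine ⟨⟨inferInstance, (Ideal.span_singleton_le_iff_mem _).2 h.mem⟩, fun P hP _ => ?_⟩
    exact h.nil.trans (hP.1.radical_le_iff.2 hP.2)
  have := Ideal.height_le_one_of_isPrincipal_of_mem_minimalPrimes _ _ hm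
  rw [Ring.krullDimLE_iff, ← maximalIdeal_height_eq_ringKrullDim]
  exact_mod_cast this

theorem Par.artin (h : Par S x) {c : S} (hc : c ∈ S⁰) : IsArtinian S (S ⧸ Ideal.span {c}) := by
  have := h.dim
  exact (isFiniteLength_iff_isNoetherian_isArtinian.1
    (isFiniteLength_quotient_span_singleton S hc)).2

theorem Par.rad (h : Par S x) {c : S} (hc : c ∈ S⁰) :
    maximalIdeal S ≤ (Ideal.span {c}).radical := by
  have := h.artin hc
  have : IsArtinianRing (S ⧸ Ideal.span {c}) := isArtinian_of_tower S this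
  rw [Ideal.radical_eq_sInf]
  refine le_sInf fun P ⟨hP, hp⟩ => ?_
  have h1 : (P.map (Ideal.Quotient.mk (Ideal.span {c}))).IsPrime :=
    Ideal.map_isPrime_of_surjective Ideal.Quotient.mk_surjective (by rwa [Ideal.mk_ker])
  have h2 := Ideal.comap_isMaximal_of_surjective (Ideal.Quotient.mk (Ideal.span {c}))
    Ideal.Quotient.mk_surjective (K := P.map (Ideal.Quotient.mk (Ideal.span {c})))
    (H := IsArtinianRing.isMaximal_of_isPrime _)
  rw [Ideal.comap_map_of_surjective _ Ideal.Quotient.mk_surjective, ← RingHom.ker_eq_comap_bot,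
    Ideal.mk_ker, sup_eq_left.2 hP] at h2
  exact (eq_maximalIdeal h2).ge

theorem Par.length_ne_top (h : Par S x) {c : S} (hc : c ∈ S⁰) (N : Type*) [AddCommGroup N]
    [Module S N] [Module.Finite S N] (hN : ∀ n : N, c • n = 0) : Module.length S N ≠ ⊤ := by
  have := h.artin hc
  obtain ⟨n, q, hq⟩ := Module.Finite.exists_fin' S N
  let p : (Fin n → S) →ₗ[S] Fin n → S ⧸ Ideal.span {c} :=
    (Submodule.mkQ (Ideal.span {c})).compLeft (Fin n)
  have hp : Function.Surjective p := fun v => by
    choose w hw using fun i => Ideal.Quotient.mk_surjective (v i)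
    exact ⟨w, funext hw⟩
  obtain ⟨v, hv⟩ := factor_surj hp q fun e he => by
    have : ∀ i, ∃ b, b * c = e i := fun i =>
      Ideal.mem_span_singleton'.1 (Ideal.Quotient.eq_zero_iff_mem.1 (congrFun he i))
    choose b hb using this
    rw [show e = c • b from funext fun i => by simp [← hb i, mul_comm], map_smul, hN]
  have : IsArtinian S N := isArtinian_of_surjective _ v fun m => by
    obtain ⟨e, rfl⟩ := hq m
    exact ⟨p e, hv e⟩
  exact Module.length_ne_top

end par

section adjoin

variable {S : Type} [CommRing S] [IsLocalRing S] {g : S[X]}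

theorem root_mem_rad (hg : g.Monic) (hm : ∀ i < g.natDegree, g.coeff i ∈ maximalIdeal S)
    {I : Ideal (AdjoinRoot g)} (hI : ∀ c ∈ maximalIdeal S, AdjoinRoot.of g c ∈ I.radical) :
    AdjoinRoot.root g ∈ I.radical := by
  have h0 : aeval (AdjoinRoot.root g) g = 0 := by rw [AdjoinRoot.aeval_eq, AdjoinRoot.mk_self]
  rw [aeval_eq_sum_range, Finset.sum_range_succ, hg.coeff_natDegree, one_smul, add_comm,
    add_eq_zero_iff_eq_neg] at h0
  refine Ideal.mem_radical_of_pow_mem (m := g.natDegree) ?_
  rw [h0]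
  refine neg_mem (sum_mem fun i hi => ?_)
  rw [Algebra.smul_def]
  exact Ideal.mul_mem_right _ _ (hI _ (hm i (Finset.mem_range.1 hi)))

theorem mk_eq_add (q : S[X]) : AdjoinRoot.mk g q =
    AdjoinRoot.of g (q.coeff 0) + AdjoinRoot.root g * AdjoinRoot.mk g q.divX := by
  conv_lhs => rw [← X_mul_divX_add q]
  rw [map_add, map_mul, AdjoinRoot.mk_X, AdjoinRoot.mk_C, add_comm]

theorem mem_max_iff (hg : g.Monic) (hm : ∀ i < g.natDegree, g.coeff i ∈ maximalIdeal S)
    (P : Ideal (AdjoinRoot g)) [hP : P.IsMaximal] (q : S[X]) :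
    AdjoinRoot.mk g q ∈ P ↔ q.coeff 0 ∈ maximalIdeal S := by
  have := hg.finite_adjoinRoot
  have e : P.comap (algebraMap S (AdjoinRoot g)) = maximalIdeal S :=
    eq_maximalIdeal (Ideal.isMaximal_comap_of_isIntegral_of_isMaximal P)
  have hy : AdjoinRoot.root g ∈ P := by
    rw [← hP.isPrime.radical]
    exact root_mem_rad hg hm fun c hc => Ideal.le_radical (e.ge hc)
  rw [mk_eq_add, Ideal.add_mem_iff_left _ (P.mul_mem_right _ hy), ← e]
  rfl

theorem isLocalRing_adjoin (hg : g.Monic) (hd : 0 < g.natDegree)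
    (hm : ∀ i < g.natDegree, g.coeff i ∈ maximalIdeal S) : IsLocalRing (AdjoinRoot g) := by
  have : Nontrivial (AdjoinRoot g) :=
    ⟨⟨AdjoinRoot.mk g 1, 0, AdjoinRoot.mk_ne_zero_of_natDegree_lt hg one_ne_zero (by simpa)⟩⟩
  obtain ⟨P, hP⟩ := Ideal.exists_maximal (AdjoinRoot g)
  refine IsLocalRing.of_unique_max_ideal ⟨P, hP, fun Q hQ => Ideal.ext fun t => ?_⟩
  obtain ⟨q, rfl⟩ := AdjoinRoot.mk_surjective t
  rw [mem_max_iff hg hm, mem_max_iff hg hm]

theorem Par.adjoin [IsLocalRing (AdjoinRoot g)] {x : S} (h : Par S x) (hg : g.Monic)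
    (hm : ∀ i < g.natDegree, g.coeff i ∈ maximalIdeal S) :
    Par (AdjoinRoot g) (AdjoinRoot.of g x) := by
  have := hg.free_adjoinRoot
  refine ⟨map_mem_nzd (AdjoinRoot g) h.reg, ?_, fun t ht => ?_⟩
  · rw [← AdjoinRoot.mk_C, mem_max_iff hg hm]
    simpa using h.mem
  · obtain ⟨q, rfl⟩ := AdjoinRoot.mk_surjective t
    have key : ∀ c ∈ maximalIdeal S,
        AdjoinRoot.of g c ∈ (Ideal.span {AdjoinRoot.of g x}).radical := by
      intro c hc
      obtain ⟨n, hn⟩ := h.nil hc
      obtain ⟨b, hb⟩ := Ideal.mem_span_singleton'.1 hn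
      exact ⟨n, Ideal.mem_span_singleton'.2 ⟨AdjoinRoot.of g b, by rw [← map_mul, hb, map_pow]⟩⟩
    rw [mem_max_iff hg hm] at ht
    rw [mk_eq_add]
    exact add_mem (key _ ht) (Ideal.mul_mem_right _ _ (root_mem_rad hg hm key))

theorem root_mem_max [IsLocalRing (AdjoinRoot g)] (hg : g.Monic)
    (hm : ∀ i < g.natDegree, g.coeff i ∈ maximalIdeal S) :
    AdjoinRoot.root g ∈ maximalIdeal (AdjoinRoot g) := by
  rw [← AdjoinRoot.mk_X, mem_max_iff hg hm]
  simp

end adjoin

end Pool.Agent.Work.MP_34725c_ag.Tw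
end

-- merged part: Pool.Agent.Work.MP_34725c_ag.TwStep
section
/-! Rigid modules with a rank over a simple extension. -/

set_option autoImplicit false

namespace Pool.Agent.Work.MP_34725c_ag.Tw

open IsLocalRing nonZeroDivisors Polynomial AdjoinRoot

/-- every finite rigid module with a rank is projective -/
def HW (S : Type) [CommRing S] : Prop :=
  ∀ (M : Type) [AddCommGroup M] [Module S M], Module.Finite S M → HasRank S M → Rigid S M →
    Module.Projective S M

theorem sub_pow_mem {A : Type*} [Ring A] (I : Ideal A) {a b : A} {K : ℕ} (ha : a ^ K ∈ I)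
    (hb : b ^ K ∈ I) (h : Commute a b) : (a - b) ^ (K + K - 1) ∈ I := by
  rw [sub_eq_add_neg]
  refine I.add_pow_add_pred_mem_of_pow_mem_of_commute ha ?_ h.neg_right
  rw [neg_pow]
  exact I.mul_mem_left _ hb

section act

variable {S : Type} [CommRing S] (g : S[X])

/-- the action of the adjoined root -/
noncomputable def ya (M : Type) [AddCommGroup M] [Module S M] [Module (AdjoinRoot g) M]
    [IsScalarTower S (AdjoinRoot g) M] : Module.End S M := Algebra.lsmul S S M (root g)

variable {g} {M N : Type} [AddCommGroup M] [Module S M] [Module (AdjoinRoot g) M]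
  [IsScalarTower S (AdjoinRoot g) M] [AddCommGroup N] [Module S N] [Module (AdjoinRoot g) N]
  [IsScalarTower S (AdjoinRoot g) N]

@[simp] theorem ya_apply (m : M) : ya g M m = root g • m := rfl

theorem aeval_ya (q : S[X]) (m : M) : aeval (ya g M) q m = mk g q • m := by
  rw [ya, aeval_algHom_apply, aeval_eq]
  rfl

theorem aeval_ya_self : aeval (ya g M) g = 0 :=
  LinearMap.ext fun m => by rw [aeval_ya, mk_self, zero_smul, LinearMap.zero_apply]

theorem ya_pow (n : ℕ) (m : M) : (ya g M ^ n) m = root g ^ n • m := by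
  rw [ya, ← map_pow]
  rfl

theorem exists_lin (f : M →ₗ[S] N) (h : ∀ m, f (root g • m) = root g • f m) :
    ∃ f' : M →ₗ[AdjoinRoot g] N, ∀ m, f' m = f m :=
  ⟨{ toFun := f
     map_add' := f.map_add
     map_smul' := fun t m => by
       obtain ⟨q, rfl⟩ := mk_surjective t
       rw [RingHom.id_apply, ← aeval_ya, ← aeval_ya]
       exact aeval_inter (L := ya g M) (L' := ya g N) h q m }, fun _ => rfl⟩

theorem exists_module {E : Type} [AddCommGroup E] [Module S E] (Y : Module.End S E)
    (hY : aeval Y g = 0) : ∃ (_ : Module (AdjoinRoot g) E) (_ : IsScalarTower S (AdjoinRoot g) E),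
      ∀ e, root g • e = Y e := by
  let φ : AdjoinRoot g →+* Module.End S E :=
    Ideal.Quotient.lift (Ideal.span {g}) (aeval Y).toRingHom fun a ha => by
      obtain ⟨b, rfl⟩ := Ideal.mem_span_singleton'.1 ha
      simp [hY]
  let _ : Module (AdjoinRoot g) E := Module.compHom E φ
  have key : ∀ (q : S[X]) (e : E), mk g q • e = aeval Y q e := fun _ _ => rfl
  refine ⟨inferInstance, IsScalarTower.of_algebraMap_smul fun c e => ?_, fun e => ?_⟩
  · rw [AdjoinRoot.algebraMap_eq, ← mk_C, key, aeval_C, Module.algebraMap_end_apply]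
  · rw [← mk_X, key, aeval_X]

theorem split_of_rigid (h : Rigid (AdjoinRoot g) M) {E : Type} [AddCommGroup E] [Module S E]
    {i : M →ₗ[S] E} {p : E →ₗ[S] M} (hi : Function.Injective i) (hp : Function.Surjective p)
    (ex : Function.Exact i p) {Y : Module.End S E} (hY : aeval Y g = 0)
    (Yi : ∀ m, i (root g • m) = Y (i m)) (Yp : ∀ e, p (Y e) = root g • p e) :
    ∃ s : M →ₗ[S] E, (∀ m, p (s m) = m) ∧ ∀ m, s (root g • m) = Y (s m) := by
  obtain ⟨_, _, hr⟩ := exists_module Y hY
  obtain ⟨i', hi'⟩ := exists_lin i fun m => by rw [hr, Yi]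
  obtain ⟨p', hp'⟩ := exists_lin p fun e => by rw [hr, Yp]
  have e1 : (i' : M → E) = i := funext hi'
  have e2 : (p' : E → M) = p := funext hp'
  obtain ⟨s, hs⟩ := h E i' p' (e1 ▸ hi) (e2 ▸ hp) (e1 ▸ e2 ▸ ex)
  exact ⟨s.restrictScalars S, fun m => (hp' _).symm.trans (LinearMap.congr_fun hs m),
    fun m => by rw [← hr]; exact s.map_smul _ m⟩

theorem ker_tr_le (h : Rigid (AdjoinRoot g) M) (φ : M →ₗ[S] M)
    (hφ : tr (ya g M) (ya g M) g φ = 0) : ∃ σ, cm (ya g M) (ya g M) σ = φ := by
  let Y : Module.End S (M × M) := (ya g M).prodMap (ya g M)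
  let Z : Module.End S (M × M) := LinearMap.inl S M M ∘ₗ φ ∘ₗ LinearMap.snd S M M
  have hi : ∀ v, LinearMap.inl S M M (ya g M v) = Y (LinearMap.inl S M M v) := fun v => by
    simp [Y]
  have hp : ∀ v, LinearMap.snd S M M (Y v) = ya g M (LinearMap.snd S M M v) := fun v => rfl
  have hp' : ∀ v, LinearMap.fst S M M (Y v) = ya g M (LinearMap.fst S M M v) := fun v => rfl
  have hY : aeval (Y + Z) g = 0 := by
    refine LinearMap.ext fun v => ?_
    rw [aeval_add_sq_zero (fun j v => by
      simp only [Z, LinearMap.comp_apply, ← pow_inter hi]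
      simp), tr_comp hi hp, hφ]
    refine Prod.ext ?_ ?_
    · have := aeval_inter hp' g v
      rw [aeval_ya_self] at this
      simpa using this
    · have := aeval_inter hp g v
      rw [aeval_ya_self] at this
      simpa using this
  obtain ⟨s, h1, h2⟩ := split_of_rigid h LinearMap.inl_injective LinearMap.snd_surjective
    Function.Exact.inl_snd hY (fun m => by simp [Y, Z]) (fun e => by simp [Y, Z])
  refine ⟨-(LinearMap.fst S M M ∘ₗ s), LinearMap.ext fun m => ?_⟩
  have h3 : (s m).2 = m := h1 m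
  simp [h2, Y, Z, h3]

theorem tr_lin (φ : M →ₗ[S] N) :
    ∃ f : M →ₗ[AdjoinRoot g] N, ∀ m, f m = tr (ya g N) (ya g M) g φ m :=
  exists_lin _ fun m => by
    have := LinearMap.congr_fun (cm_tr (A := ya g N) (B := ya g M) aeval_ya_self aeval_ya_self φ) m
    rw [cm_apply, LinearMap.zero_apply, sub_eq_zero] at this
    exact this.symm

theorem tr_ring (hg : g.Monic) (hd : 0 < g.natDegree) :
    ∃ ψ : AdjoinRoot g →ₗ[S] AdjoinRoot g, ∀ t, tr (ya g _) (ya g _) g ψ t = t := by
  have : Nontrivial S := Nontrivial.of_polynomial_ne (ne_zero_of_natDegree_gt hd)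
  let ψ : AdjoinRoot g →ₗ[S] AdjoinRoot g :=
    Algebra.linearMap S _ ∘ₗ lcoeff S (g.natDegree - 1) ∘ₗ modByMonicHom hg
  have hψ : ∀ m < g.natDegree, ψ (root g ^ m) = if g.natDegree - 1 = m then 1 else 0 := by
    intro m hm
    have : root g ^ m = mk g (X ^ m) := by simp
    simp only [ψ, LinearMap.comp_apply, this, modByMonicHom_mk, lcoeff_apply]
    rw [(modByMonic_eq_self_iff hg).2 (degree_lt_degree (by simpa using hm)), coeff_X_pow]
    split_ifs <;> simp
  obtain ⟨f, hf⟩ := tr_lin (g := g) ψ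
  have h1 : f 1 = 1 := by
    rw [hf, tr_apply, Finset.sum_eq_single g.natDegree]
    · rw [hg.coeff_natDegree, one_smul, Finset.sum_eq_single 0]
      · simp only [ya_pow, smul_eq_mul, mul_one]
        rw [hψ _ (by omega)]
        simp
      · intro j hj hj0
        rw [Finset.mem_range] at hj
        simp only [ya_pow, smul_eq_mul, mul_one]
        rw [hψ _ (by omega), if_neg (by omega), mul_zero]
      · intro h
        exact absurd (Finset.mem_range.2 hd) h
    · intro n hn hne
      have := le_natDegree_of_mem_supp n hn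
      rw [Finset.sum_eq_zero, smul_zero]
      intro j hj
      rw [Finset.mem_range] at hj
      simp only [ya_pow, smul_eq_mul, mul_one]
      rw [hψ _ (by omega), if_neg (by omega), mul_zero]
    · intro h
      exact absurd (natDegree_mem_support_of_nonzero hg.ne_zero) h
  exact ⟨ψ, fun t => by rw [← hf, ← mul_one t, ← smul_eq_mul, map_smul, h1]⟩

theorem tr_free (hg : g.Monic) (hd : 0 < g.natDegree) [Module.Free (AdjoinRoot g) M]
    [Module.Finite (AdjoinRoot g) M] :
    ∃ ψ : M →ₗ[S] M, ∀ m, tr (ya g M) (ya g M) g ψ m = m := by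
  obtain ⟨ψ, hψ⟩ := tr_ring hg hd
  let b := Module.Free.chooseBasis (AdjoinRoot g) M
  refine ⟨∑ k, (LinearMap.toSpanSingleton _ M (b k)).restrictScalars S ∘ₗ ψ ∘ₗ
    (b.coord k).restrictScalars S, fun m => ?_⟩
  rw [map_sum, LinearMap.sum_apply]
  conv_rhs => rw [← b.sum_repr m]
  refine Finset.sum_congr rfl fun k _ => ?_
  rw [tr_comp (A := ya g _) (B := ya g _) (fun v => by simp [mul_smul]) (fun v => by simp), hψ]
  simp

theorem tr_of_id {ψ : M →ₗ[S] M} (hψ : ∀ m, tr (ya g M) (ya g M) g ψ m = m) (θ : M →ₗ[S] N)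
    (hθ : ∀ m, θ (root g • m) = root g • θ m) (m : M) :
    tr (ya g N) (ya g M) g (θ ∘ₗ ψ) m = θ m := by
  have := tr_comp (A := ya g M) (B := ya g M) (A' := ya g N) (B' := ya g M) (i := θ)
    (p := LinearMap.id) hθ (fun _ => rfl) g ψ m
  rwa [LinearMap.comp_id, LinearMap.id_apply, hψ] at this

theorem projective_of_tr [Module.Finite (AdjoinRoot g) M] [Module.Projective S M]
    {ψ : M →ₗ[S] M} (hψ : ∀ m, tr (ya g M) (ya g M) g ψ m = m) :
    Module.Projective (AdjoinRoot g) M := by
  obtain ⟨n, q, hq⟩ := Module.Finite.exists_fin' (AdjoinRoot g) M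
  obtain ⟨s, hs⟩ := Module.projective_lifting_property (q.restrictScalars S) ψ hq
  obtain ⟨f, hf⟩ := tr_lin (g := g) s
  refine Module.Projective.of_split f q (LinearMap.ext fun m => ?_)
  have := tr_comp (A := ya g _) (B := ya g M) (A' := ya g M) (B' := ya g M)
    (i := q.restrictScalars S) (p := LinearMap.id) (fun v => by simp) (fun _ => rfl) g s m
  rw [LinearMap.comp_id, hs, hψ] at this
  rw [LinearMap.comp_apply, hf]
  exact this.symm

theorem split_of_tr (h : Rigid (AdjoinRoot g) M) {ψ : M →ₗ[S] M}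
    (hψ : ∀ m, tr (ya g M) (ya g M) g ψ m = m) {E : Type} [AddCommGroup E] [Module S E]
    {i : M →ₗ[S] E} {p : E →ₗ[S] M} (hi : Function.Injective i) (hp : Function.Surjective p)
    (ex : Function.Exact i p) {Y : Module.End S E}
    (Yi : ∀ m, i (root g • m) = Y (i m)) (Yp : ∀ e, p (Y e) = root g • p e) :
    ∃ s : M →ₗ[S] E, ∀ m, p (s m) = m := by
  have Yi' : ∀ m, i (ya g M m) = Y (i m) := Yi
  have Yp' : ∀ e, p (Y e) = ya g M (p e) := Yp
  obtain ⟨v, hv⟩ := factor_inj hi (aeval Y g) fun e => (ex _).1 (by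
    rw [aeval_inter Yp', aeval_ya_self, LinearMap.zero_apply])
  obtain ⟨θ, hθ⟩ := factor_surj hp v fun e he => hi (by
    obtain ⟨m, rfl⟩ := (ex e).1 he
    rw [hv, ← aeval_inter Yi', aeval_ya_self, LinearMap.zero_apply])
  have hc : ∀ m, θ (root g • m) = root g • θ m := fun m => by
    obtain ⟨e, rfl⟩ := hp m
    refine hi ?_
    rw [← Yp, hθ, hθ, Yi, hv, hv]
    exact (aeval_inter (α := Y) (L := Y) (L' := Y) (fun _ => rfl) g e).symm
  have hY : aeval (Y + i ∘ₗ (-(θ ∘ₗ ψ)) ∘ₗ p) g = 0 := by
    refine LinearMap.ext fun e => ?_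
    rw [aeval_add_sq_zero (fun j v => by
      simp only [LinearMap.comp_apply, ← pow_inter Yi', ex.apply_apply_eq_zero, map_zero]),
      tr_comp Yi' Yp', map_neg, LinearMap.neg_apply, tr_of_id hψ θ hc, hθ, map_neg, hv,
      add_neg_cancel, LinearMap.zero_apply]
  obtain ⟨s, hs, -⟩ := split_of_rigid h hi hp ex hY
    (fun m => by simp [Yi, ex.apply_apply_eq_zero]) (fun e => by simp [Yp, ex.apply_apply_eq_zero])
  exact ⟨s, hs⟩

theorem rigid_base [IsNoetherianRing S] (hg : g.Monic) [Module.Finite (AdjoinRoot g) M]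
    (h : Rigid (AdjoinRoot g) M) {ψ : M →ₗ[S] M} (hψ : ∀ m, tr (ya g M) (ya g M) g ψ m = m)
    [Module.Projective (AdjoinRoot g) N] {c : S} (ι : N →ₗ[AdjoinRoot g] M)
    (π : M →ₗ[AdjoinRoot g] N) (hc : ∀ m, ι (π m) = c • m) {K : ℕ} {t : AdjoinRoot g}
    (hK : root g ^ K = c • t) : Rigid S M := by
  have := hg.free_adjoinRoot
  obtain ⟨n, q, hq⟩ := Module.Finite.exists_fin' (AdjoinRoot g) M
  let F := Fin n → AdjoinRoot g
  let Ω := LinearMap.ker q
  let j : Ω →ₗ[S] F := Ω.subtype.restrictScalars S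
  have hj : Function.Injective j := Subtype.val_injective
  have ex : Function.Exact j (q.restrictScalars S) := LinearMap.exact_subtype_ker_map q
  let B : Submodule S (Ω →ₗ[S] M) := LinearMap.range (LinearMap.lcomp S M j)
  have hB : ∀ u : Ω →ₗ[S] M, u ∈ B ↔ ∃ v : F →ₗ[S] M, ∀ o, v (j o) = u o := fun u =>
    ⟨fun ⟨v, hv⟩ => ⟨v, LinearMap.congr_fun hv⟩, fun ⟨v, hv⟩ => ⟨v, LinearMap.ext hv⟩⟩
  have inj : ∀ u, cm (ya g M) (ya g Ω) u ∈ B → u ∈ B := by
    intro u hu
    obtain ⟨v, hv⟩ := (hB _).1 hu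
    obtain ⟨E, _, _, i, p, w, hi, hp, ex', h1, h2, gen, lift⟩ :=
      exists_push hj (q := q.restrictScalars S) hq ex u
    obtain ⟨Y, Y1, Y2⟩ := lift (i ∘ₗ ya g M) (w ∘ₗ ya g F + i ∘ₗ v) fun o => by
      have : ya g F (j o) = j (ya g Ω o) := rfl
      simp only [LinearMap.add_apply, LinearMap.comp_apply, this, h1, hv, cm_apply, map_sub,
        add_sub_cancel]
    obtain ⟨s, hs⟩ := split_of_tr h hψ hi hp ex' (Y := Y) (fun m => (Y1 m).symm) fun e => by
      obtain ⟨m, f, rfl⟩ := gen e
      have : q (ya g F f) = root g • q f := q.map_smul _ f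
      simp [Y1, Y2, h2, ex'.apply_apply_eq_zero, this]
    exact (hB _).2 (extends_of_section ex hi ex' h1 h2 s hs)
  have inj' : ∀ (k : ℕ) u, (cm (ya g M) (ya g Ω) ^ k) u ∈ B → u ∈ B := by
    intro k
    induction k with
    | zero => exact fun u hu => hu
    | succ k ih => exact fun u hu => inj u (ih _ (by rwa [pow_succ] at hu))
  have kill : ∀ u : Ω →ₗ[S] M, c • u ∈ B := by
    intro u
    obtain ⟨l, hl⟩ := Module.projective_lifting_property q ι hq
    have hl' : ∀ v, q (l v) = ι v := LinearMap.congr_fun hl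
    obtain ⟨r, hr⟩ := factor_inj hj (c • LinearMap.id - (l ∘ₗ π ∘ₗ q).restrictScalars S)
      fun f => (ex _).1 (by simp [hl', hc])
    refine (hB _).2 ⟨u ∘ₗ r, fun o => ?_⟩
    have : r (j o) = c • o := hj (by
      have h0 : q (j o) = 0 := o.2
      simp [hr, h0])
    simp [this]
  let I : Ideal (Module.End S (Ω →ₗ[S] M)) := Ideal.span {algebraMap S _ c}
  have hL : lop Ω (ya g M) ^ K ∈ I := Ideal.mem_span_singleton'.2
    ⟨lop Ω (Algebra.lsmul S S M t), by
      refine LinearMap.ext fun u => LinearMap.ext fun o => ?_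
      rw [lop_pow, ya_pow, hK, smul_assoc, smul_comm]
      rfl⟩
  have hR : rop M (ya g Ω) ^ K ∈ I := by
    refine Ideal.mem_span_singleton'.2 ⟨rop M (Algebra.lsmul S S Ω t), ?_⟩
    refine LinearMap.ext fun u => LinearMap.ext fun o => ?_
    rw [rop_pow, ya_pow, hK, smul_assoc, map_smul]
    rfl
  obtain ⟨χ, hχ⟩ := Ideal.mem_span_singleton'.1 (sub_pow_mem I hL hR (lop_rop _ _))
  refine rigid_of_extends (j := j) (q := q.restrictScalars S) hq ex fun u => (hB u).1 ?_
  refine inj' (K + K - 1) u ?_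
  rw [cm, ← hχ, Module.End.mul_apply, Module.algebraMap_end_apply, map_smul]
  exact kill _

end act

theorem HW.adjoin {S : Type} [CommRing S] [IsLocalRing S] [IsNoetherianRing S] {x : S}
    (hx : Par S x) (hS : HW S) {g : S[X]} (hg : g.Monic) (hd : 0 < g.natDegree)
    (hm : ∀ i < g.natDegree, g.coeff i ∈ maximalIdeal S) : HW (AdjoinRoot g) := by
  intro M _ _ hM ⟨F, _, _, _, _, c₀, ι₀, π, hc₀, hπ, h1, h2⟩ h
  have := hg.free_adjoinRoot
  have := hg.finite_adjoinRoot
  have := isLocalRing_adjoin hg hd hm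
  have hx' := hx.adjoin hg hm
  let _ : Module S M := Module.compHom M (algebraMap S (AdjoinRoot g))
  have : IsScalarTower S (AdjoinRoot g) M := IsScalarTower.of_compHom S _ M
  let _ : Module S F := Module.compHom F (algebraMap S (AdjoinRoot g))
  have : IsScalarTower S (AdjoinRoot g) F := IsScalarTower.of_compHom S _ F
  have : Module.Free S F := Module.Free.trans (S := AdjoinRoot g)
  have : Module.Finite S F := Module.Finite.trans (AdjoinRoot g) F
  have fin : Module.Finite S M := Module.Finite.trans (AdjoinRoot g) M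
  obtain ⟨n, hn⟩ := hx'.rad hc₀ hx'.mem
  obtain ⟨b, hb⟩ := Ideal.mem_span_singleton'.1 hn
  let c := x ^ n
  have hc : c ∈ S⁰ := pow_mem hx.reg n
  have hbc : b * c₀ = algebraMap S _ c := by rw [hb, map_pow]; rfl
  let ι := b • ι₀
  have k1 : ∀ m, ι (π m) = c • m := fun m => by
    rw [LinearMap.smul_apply, h1, ← mul_smul, hbc, algebraMap_smul]
  have k2 : ∀ v, π (ι v) = c • v := fun v => by
    rw [LinearMap.smul_apply, map_smul, h2, ← mul_smul, hbc, algebraMap_smul]
  have reg : ∀ m : M, c • m = 0 → m = 0 := fun m hm => hπ <|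
    Module.Flat.isSMulRegular_of_nonZeroDivisors (M := F) hc (show c • π m = c • π 0 by
      rw [← π.map_smul_of_tower, hm, map_zero, smul_zero])
  let α : (M →ₗ[S] M) →ₗ[S] (F →ₗ[S] F) :=
    LinearMap.llcomp S F M F (π.restrictScalars S) ∘ₗ LinearMap.lcomp S M (ι.restrictScalars S)
  obtain ⟨ψ₀, hψ₀⟩ := tr_free (M := F) hg hd
  obtain ⟨ψ, hψ⟩ := herbrand (N := cm (ya g M) (ya g M)) (h := tr (ya g M) (ya g M) g)
    (N₀ := cm (ya g F) (ya g F)) (h₀ := tr (ya g F) (ya g F) g) α
    (by
      rw [injective_iff_map_eq_zero]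
      refine fun φ hφ => LinearMap.ext fun m => reg _ (hπ ?_)
      rw [← map_smul, ← k1, map_zero]
      exact LinearMap.congr_fun hφ (π m))
    (fun φ => LinearMap.ext fun v => by simp [α])
    (fun φ => LinearMap.ext fun v => (tr_comp (i := π.restrictScalars S)
      (p := ι.restrictScalars S) (fun v => by simp) (fun v => by simp) g φ v).symm)
    (hx.length_ne_top (mul_mem hc hc) _ fun w => by
      obtain ⟨w, rfl⟩ := Submodule.mkQ_surjective _ w
      rw [← map_smul]
      refine (Submodule.Quotient.mk_eq_zero _).2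
        ⟨ι.restrictScalars S ∘ₗ w ∘ₗ π.restrictScalars S, LinearMap.ext fun v => ?_⟩
      change π (ι (w (π (ι v)))) = _
      simp [k2, mul_smul])
    (tr_cm aeval_ya_self aeval_ya_self) (cm_tr aeval_ya_self aeval_ya_self)
    (fun w hw => ⟨w ∘ₗ ψ₀, LinearMap.ext (tr_of_id hψ₀ w fun m => by
      have := LinearMap.congr_fun hw m
      rw [cm_apply, LinearMap.zero_apply, sub_eq_zero] at this
      exact this.symm)⟩)
    (ker_tr_le h) LinearMap.id (LinearMap.ext fun m => by simp)
  have hψ' : ∀ m, tr (ya g M) (ya g M) g ψ m = m := LinearMap.congr_fun hψ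
  obtain ⟨K, hK⟩ := hx'.rad (map_mem_nzd (AdjoinRoot g) hc) (root_mem_max hg hm)
  obtain ⟨t, ht⟩ := Ideal.mem_span_singleton'.1 hK
  have := hS M fin ⟨F, inferInstance, inferInstance, inferInstance, inferInstance, c,
    ι.restrictScalars S, π.restrictScalars S, hc, hπ, k1, k2⟩
    (rigid_base hg h hψ' ι π k1 (K := K) (t := t) (by rw [← ht, Algebra.smul_def, mul_comm]))
  exact projective_of_tr hψ'

end Pool.Agent.Work.MP_34725c_ag.Tw
end

-- merged part: Pool.Agent.Work.MP_34725c_ag.TwPencil
section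
/-! Pencils of commuting operators and centralisers of nilpotent elements. -/

set_option autoImplicit false

namespace Pool.Agent.Work.MP_34725c_ag.Tw

open Polynomial Finset Module

section pencil

variable {K W : Type*} [Field K] [AddCommGroup W] [Module K W]

theorem finrank_ker_mul_le [FiniteDimensional K W] (f g : End K W) :
    finrank K (LinearMap.ker (f * g)) ≤
      finrank K (LinearMap.ker f) + finrank K (LinearMap.ker g) := by
  let r : LinearMap.ker (f * g) →ₗ[K] LinearMap.ker f := g.restrict fun _ hx => hx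
  rw [← r.finrank_range_add_finrank_ker]
  refine add_le_add (Submodule.finrank_le _) ?_
  let j : LinearMap.ker r →ₗ[K] LinearMap.ker g :=
    ((LinearMap.ker (f * g)).subtype ∘ₗ (LinearMap.ker r).subtype).codRestrict _
      fun x => congrArg Subtype.val x.2
  exact LinearMap.finrank_le_finrank_of_injective (f := j)
    fun a b h => Subtype.ext (Subtype.ext (Subtype.ext_iff.1 h :))

/-- homogeneous evaluation -/
noncomputable def hev (L R : End K W) (n : ℕ) : K[X] →ₗ[K] End K W :=
  lsum fun i => LinearMap.toSpanSingleton K _ (L ^ i * R ^ (n - i))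

theorem hev_monomial (L R : End K W) (n i : ℕ) (c : K) :
    hev L R n (monomial i c) = c • (L ^ i * R ^ (n - i)) := by
  simp [hev, lsum_apply, sum_monomial_index]

theorem hev_mul {L R : End K W} (h : Commute L R) {n : ℕ} {p : K[X]} (hp : p.natDegree < n + 1)
    (z : K) : hev L R (n + 1) ((X - C z) * p) = (L - z • R) * hev L R n p := by
  rw [p.as_sum_range' (n + 1) hp, mul_sum, map_sum, map_sum, mul_sum]
  refine sum_congr rfl fun i hi => ?_
  rw [mem_range] at hi
  rw [sub_mul, X_mul_monomial, C_mul_monomial, map_sub, hev_monomial, hev_monomial, hev_monomial,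
    show n + 1 - (i + 1) = n - i by omega, show n + 1 - i = n - i + 1 by omega, mul_smul_comm,
    sub_mul, smul_sub, ← mul_assoc, ← pow_succ', smul_mul_assoc, ← mul_assoc,
    (h.symm.pow_right i).eq, mul_assoc, ← pow_succ', smul_smul, mul_comm z]

theorem finrank_ker_hev [FiniteDimensional K W] {L R : End K W} (h : Commute L R) {m : ℕ}
    (s : Multiset K) (hs : ∀ z ∈ s, finrank K (LinearMap.ker (L - z • R)) ≤ m) :
    finrank K (LinearMap.ker (hev L R s.card (s.map fun z => X - C z).prod)) ≤ s.card * m := by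
  induction s using Multiset.induction_on with
  | empty =>
    rw [Multiset.map_zero, Multiset.prod_zero, ← monomial_zero_one, hev_monomial]
    rw [pow_zero, Multiset.card_zero, Nat.sub_zero, pow_zero, mul_one, one_smul,
      Module.End.one_eq_id, LinearMap.ker_id]
    simp
  | cons z s ih =>
    rw [Multiset.map_cons, Multiset.prod_cons, Multiset.card_cons,
      hev_mul h (by rw [natDegree_multiset_prod_X_sub_C_eq_card]; omega), add_mul, one_mul,
      add_comm]
    exact (finrank_ker_mul_le _ _).trans (add_le_add (hs z (Multiset.mem_cons_self z s))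
      (ih fun w hw => hs w (Multiset.mem_cons_of_mem hw)))

/-- the divided difference of a pure power -/
def geo {A : Type*} [Semiring A] (L R : A) (a : ℕ) : A := ∑ j ∈ range a, L ^ j * R ^ (a - 1 - j)

theorem core [FiniteDimensional K W] {L R : End K W} (h : Commute L R) {a m : ℕ} (ha : 0 < a)
    (hLR : L ^ a = R ^ a) {s : Multiset K}
    (hs : (s.map fun z => X - C z).prod = ∑ j ∈ range a, X ^ j)
    (hm : ∀ z ∈ s, finrank K (LinearMap.ker (L - z • R)) ≤ m)
    (h1 : finrank K (LinearMap.ker (L - R)) ≤ m) :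
    finrank K W ≤ a * m ∧ (a * m ≤ finrank K W → finrank K (LinearMap.ker (L - R)) = m ∧
      LinearMap.ker (L - R) ≤ LinearMap.range (geo L R a)) := by
  have hc : s.card = a - 1 := by
    have e := congrArg natDegree (geom_sum_mul (X : K[X]) a)
    rw [← hs, ← C_1, (monic_multiset_prod_of_monic _ _ fun z _ => monic_X_sub_C z).natDegree_mul
      (monic_X_sub_C 1), natDegree_multiset_prod_X_sub_C_eq_card, natDegree_X_sub_C,
      natDegree_X_pow_sub_C] at e
    omega
  have k := finrank_ker_hev h s hm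
  have e : hev L R s.card (∑ j ∈ range a, X ^ j) = geo L R a := by
    rw [map_sum, hc]
    exact sum_congr rfl fun j _ => by rw [← monomial_one_right_eq_X_pow, hev_monomial, one_smul]
  rw [hs, e, hc] at k
  have le : LinearMap.range (geo L R a) ≤ LinearMap.ker (L - R) := by
    rintro _ ⟨w, rfl⟩
    rw [LinearMap.mem_ker, ← Module.End.mul_apply, geo, h.mul_geom_sum₂, hLR, sub_self,
      LinearMap.zero_apply]
  have r := (geo L R a).finrank_range_add_finrank_ker
  have l := Submodule.finrank_mono le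
  obtain ⟨b, rfl⟩ : ∃ b, a = b + 1 := ⟨a - 1, by omega⟩
  rw [Nat.add_sub_cancel] at k
  rw [add_mul, one_mul]
  refine ⟨by omega, fun hW => ⟨by omega, ?_⟩⟩
  exact (Submodule.eq_of_le_of_finrank_le le (by omega)).ge

/-- polynomial families of vectors -/
def PF (K W : Type*) [Field K] [AddCommGroup W] [Module K W] : Submodule K (K → W) :=
  Submodule.span K {f | ∃ (i : ℕ) (w : W), f = fun s => s ^ i • w}

theorem PF.zero_mem [Infinite K] {f : K → W} (hf : f ∈ PF K W) {J : Submodule K W}
    (h : {s | f s ∉ J}.Finite) : f 0 ∈ J := by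
  by_contra hn
  obtain ⟨φ, h0, hφ⟩ := Submodule.exists_le_ker_of_notMem hn
  obtain ⟨q, hq⟩ : ∃ q : K[X], ∀ s, φ (f s) = q.eval s := by
    clear h hn h0
    induction hf using Submodule.span_induction with
    | mem f hf =>
      obtain ⟨i, w, rfl⟩ := hf
      exact ⟨monomial i (φ w), fun s => by simp [mul_comm]⟩
    | zero => exact ⟨0, fun s => by simp⟩
    | add f g _ _ hf hg =>
      obtain ⟨p, hp⟩ := hf
      obtain ⟨q, hq⟩ := hg
      exact ⟨p + q, fun s => by simp [hp, hq]⟩
    | smul c f _ hf =>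
      obtain ⟨p, hp⟩ := hf
      exact ⟨C c * p, fun s => by simp [hp]⟩
  have : q = 0 := q.eq_zero_of_infinite_isRoot (h.infinite_compl.mono fun s hs => by
    rw [Set.mem_ofPred_eq, IsRoot, ← hq]
    exact hφ (not_not.1 hs))
  exact h0 (by rw [hq, this, eval_zero])

theorem PF.mul {E : Type*} [Ring E] [Algebra K E] {f g : K → E} (hf : f ∈ PF K E)
    (hg : g ∈ PF K E) : f * g ∈ PF K E := by
  induction hf using Submodule.span_induction with
  | mem f hf =>
    obtain ⟨i, w, rfl⟩ := hf
    induction hg using Submodule.span_induction with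
    | mem g hg =>
      obtain ⟨j, v, rfl⟩ := hg
      exact Submodule.subset_span ⟨i + j, w * v, funext fun s => by
        simp [pow_add, smul_smul, mul_comm]⟩
    | zero => simp
    | add g g' _ _ h h' => rw [mul_add]; exact add_mem h h'
    | smul c g _ h => rw [mul_smul_comm]; exact Submodule.smul_mem _ _ h
  | zero => simp
  | add f f' _ _ h h' => rw [add_mul]; exact add_mem h h'
  | smul c f _ h => rw [smul_mul_assoc]; exact Submodule.smul_mem _ _ h

theorem resolvent [FiniteDimensional K W] (B : End K W) : ∃ (q : K[X]) (D : K → End K W),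
    q.eval 0 = 1 ∧ (∀ s, D s * (1 - s • B) = q.eval s • 1) ∧ ∀ w, (fun s => D s w) ∈ PF K W := by
  obtain ⟨p, hp, h0⟩ : IsIntegral K B := Algebra.IsIntegral.isIntegral B
  rw [← aeval_def, aeval_eq_sum_range] at h0
  refine ⟨∑ i ∈ range (p.natDegree + 1), monomial (p.natDegree - i) (p.coeff i),
    fun s => ∑ i ∈ range (p.natDegree + 1), (p.coeff i * s ^ (p.natDegree - i)) •
      ∑ j ∈ range i, (s • B) ^ j, ?_, fun s => ?_, fun w => ?_⟩
  · rw [eval_finsetSum, sum_range_succ, sum_eq_zero, eval_monomial]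
    · simp [hp.leadingCoeff]
    · intro i hi
      rw [mem_range] at hi
      rw [eval_monomial, zero_pow (by omega), mul_zero]
  · rw [sum_mul]
    simp only [smul_mul_assoc, geom_sum_mul_neg]
    simp only [smul_sub, sum_sub_distrib, eval_finsetSum, eval_monomial, sum_smul]
    rw [sub_eq_self, ← smul_zero (s ^ p.natDegree), ← h0, smul_sum]
    refine sum_congr rfl fun i hi => ?_
    rw [mem_range] at hi
    rw [_root_.smul_pow, smul_smul, smul_smul, mul_assoc, ← pow_add,
      show p.natDegree - i + i = p.natDegree by omega, mul_comm]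
  · have : (fun s : K => (∑ i ∈ range (p.natDegree + 1), (p.coeff i * s ^ (p.natDegree - i)) •
        ∑ j ∈ range i, (s • B) ^ j) w) = ∑ i ∈ range (p.natDegree + 1), ∑ j ∈ range i,
        fun s : K => s ^ (p.natDegree - i + j) • (p.coeff i • (B ^ j) w) := by
      funext s
      simp only [LinearMap.sum_apply, LinearMap.smul_apply, Finset.sum_apply, smul_sum, _root_.smul_pow,
        smul_smul]
      exact sum_congr rfl fun i _ => sum_congr rfl fun j _ => by ring_nf
    rw [this]
    exact sum_mem fun i _ => sum_mem fun j _ => Submodule.subset_span ⟨_, _, rfl⟩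

theorem semicont [FiniteDimensional K W] (N R : End K W) : ∃ (q : K[X]) (D : K → End K W),
    q.eval 0 = 1 ∧ D 0 = 1 ∧ (∀ w, (fun s => D s w) ∈ PF K W) ∧ ∀ s, q.eval s ≠ 0 →
      finrank K (LinearMap.ker (N + s • R)) ≤ finrank K (LinearMap.ker N) ∧
      (finrank K (LinearMap.ker (N + s • R)) = finrank K (LinearMap.ker N) →
        ∀ w ∈ LinearMap.ker N, D s w ∈ LinearMap.ker (N + s • R)) := by
  obtain ⟨g, hg⟩ := N.rangeRestrict.exists_rightInverse_of_surjective N.range_rangeRestrict
  obtain ⟨G, hG⟩ := g.exists_extend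
  have key : ∀ w, N (G (N w)) = N w := fun w => by
    have h1 : G (N w) = g ⟨N w, w, rfl⟩ := LinearMap.congr_fun hG ⟨N w, w, rfl⟩
    rw [h1]
    exact congrArg Subtype.val (LinearMap.congr_fun hg ⟨N w, w, rfl⟩)
  obtain ⟨q, D, h0, hD, hP⟩ := resolvent (-(G * R))
  refine ⟨q, D, h0, by simpa [h0] using hD 0, hP, fun s hs => ?_⟩
  have hU : ∀ w, D s ((1 - s • -(G * R)) w) = q.eval s • w := fun w =>
    LinearMap.congr_fun (hD s) w
  let U : LinearMap.ker (N + s • R) →ₗ[K] LinearMap.ker N :=
    (1 - s • -(G * R)).restrict fun w hw => by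
      have e : s • R w = -N w := eq_neg_of_add_eq_zero_right hw
      simp [← map_smul, e, key]
  have inj : Function.Injective U := by
    rw [injective_iff_map_eq_zero]
    intro w hw
    have := hU w
    rw [show (1 - s • -(G * R)) w = 0 from congrArg Subtype.val hw, map_zero] at this
    exact Subtype.ext ((smul_eq_zero.1 this.symm).resolve_left hs)
  refine ⟨LinearMap.finrank_le_finrank_of_injective inj, fun e w hw => ?_⟩
  obtain ⟨v, hv⟩ := (LinearMap.injective_iff_surjective_of_finrank_eq_finrank e).1 inj ⟨w, hw⟩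
  rw [show w = (1 - s • -(G * R)) v from (congrArg Subtype.val hv).symm, hU]
  exact Submodule.smul_mem _ _ v.2

theorem pencil [IsAlgClosed K] [FiniteDimensional K W] {L R : End K W} (h : Commute L R) {a : ℕ}
    (ha : 0 < a) (hL : L ^ a = 0) (hR : R ^ a = 0) :
    finrank K W ≤ a * finrank K (LinearMap.ker (L - R)) ∧
      (a * finrank K (LinearMap.ker (L - R)) ≤ finrank K W → ∀ w ∈ LinearMap.ker (L - R),
        ∃ e ∈ PF K W, e 0 = w ∧ {s | ¬ (e s ∈ LinearMap.ker (L - (1 - s) • R) ∧
          e s ∈ LinearMap.range (geo L ((1 - s) • R) a))}.Finite) := by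
  obtain ⟨q, D, h0, D0, hP, hq⟩ := semicont (L - R) R
  have hq0 : q ≠ 0 := fun e => by simp [e] at h0
  let γ : K[X] := ∑ j ∈ range a, X ^ j
  have hγ : γ.Monic := monic_geom_sum_X ha.ne'
  have fin : {s | ¬ (q.eval s ≠ 0 ∧ ∀ z ∈ γ.roots, q.eval (1 - z * (1 - s)) ≠ 0)}.Finite := by
    refine ((finite_setOfPred_isRoot hq0).union (γ.roots.finite_toSet.biUnion
      (t := fun z => (fun s => 1 - z * (1 - s)) ⁻¹' {s | q.IsRoot s}) fun z hz => ?_)).subset ?_
    · refine (finite_setOfPred_isRoot hq0).preimage fun s _ s' _ e => ?_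
      have hz0 : z ≠ 0 := by
        rintro rfl
        have := isRoot_of_mem_roots hz
        simp [γ, eval_finsetSum, ha.ne'] at this
      simpa [hz0] using e
    · intro s hs
      by_cases h1 : q.eval s = 0
      · exact Or.inl h1
      · simp only [Set.mem_ofPred_eq, not_and, not_forall, not_not] at hs
        obtain ⟨z, hz, e⟩ := hs h1
        exact Or.inr (Set.mem_biUnion hz e)
  have eq : ∀ s : K, L - R + s • R = L - (1 - s) • R := fun s => by module
  have main := fun s (hs : q.eval s ≠ 0 ∧ ∀ z ∈ γ.roots, q.eval (1 - z * (1 - s)) ≠ 0) =>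
    core (h.smul_right (1 - s)) (m := finrank K (LinearMap.ker (L - R))) ha
      (by rw [_root_.smul_pow, hL, hR, smul_zero])
      ((IsAlgClosed.splits γ).eq_prod_roots_of_monic hγ).symm
      (fun z hz => by
        have := (hq _ (hs.2 z hz)).1
        rwa [eq, sub_sub_cancel, mul_smul] at this)
      (eq s ▸ (hq s hs.1).1)
  obtain ⟨s₀, hs₀⟩ := fin.infinite_compl.nonempty
  refine ⟨(main s₀ (not_not.1 hs₀)).1, fun hW w hw => ⟨_, hP w, by simp [D0],
    fin.subset fun s hs hs' => hs ?_⟩⟩
  obtain ⟨e, le⟩ := (main s hs').2 hW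
  have := (hq s hs'.1).2 (by rw [eq, e]) w hw
  rw [eq] at this
  exact ⟨this, le this⟩

end pencil

section alg

open LinearMap TensorProduct

theorem finrank_ker_base {k K : Type*} [Field k] [Field K] [Algebra k K] {M N : Type*}
    [AddCommGroup M] [AddCommGroup N] [Module k M] [Module k N] [Module K N]
    [IsScalarTower k K N] (h : M →ₗ[k] N) (g : M →ₗ[k] M) (g' : N →ₗ[K] N)
    (comm : ∀ x, h (g x) = g' (h x)) (b : IsBaseChange K h) :
    finrank K (ker g') = finrank k (ker g) := by
  let h₁ : ker g →ₗ[k] ker g' :=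
    { toFun := fun x => ⟨h x, by rw [mem_ker, ← comm, show g x = 0 from x.2, map_zero]⟩
      map_add' := fun a b => Subtype.ext (by simp)
      map_smul' := fun a b => Subtype.ext (by simp) }
  have b₁ : IsBaseChange K h₁ :=
    IsBaseChange.of_left_exact K h₁ h h (f := (ker g).subtype) (g := g) (f' := (ker g').subtype)
      (g' := g') (LinearMap.ext fun x => rfl) (LinearMap.ext comm) b b
      (exact_subtype_ker_map g) (Submodule.injective_subtype _)
      (exact_subtype_ker_map g') (Submodule.injective_subtype _)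
  rw [← b₁.equiv.finrank_eq, finrank_baseChange]

variable {k E : Type*} [Field k] [Ring E] [Algebra k E]

/-- the centraliser bound, with its equality case -/
def Cent (k : Type*) {E : Type*} [Field k] [Ring E] [Algebra k E] (y : E) (a : ℕ) : Prop :=
  finrank k E ≤ a * finrank k (ker (mulLeft k y - mulRight k y)) ∧
    (a * finrank k (ker (mulLeft k y - mulRight k y)) ≤ finrank k E →
      ∃ ψ : E, ∑ j ∈ range a, y ^ j * (ψ * y ^ (a - 1 - j)) = 1)

theorem geo_mul (y z ψ : E) (a : ℕ) : geo (A := End k E) (mulLeft k y) (mulRight k z) a ψ =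
    ∑ j ∈ range a, y ^ j * (ψ * z ^ (a - 1 - j)) := by
  simp [geo, LinearMap.sum_apply]

theorem cent_closed [IsAlgClosed k] [FiniteDimensional k E] {y : E} {a : ℕ} (ha : 0 < a)
    (hy : y ^ a = 0) : Cent k y a := by
  have hc : Commute (mulLeft k y : End k E) (mulRight k y) := commute_mulLeft_right y y
  have hL : (mulLeft k y : End k E) ^ a = 0 := by rw [pow_mulLeft, hy, mulLeft_zero_eq_zero]
  have hR : (mulRight k y : End k E) ^ a = 0 := by rw [pow_mulRight, hy, mulRight_zero_eq_zero]
  obtain ⟨h1, h2⟩ := pencil hc ha hL hR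
  obtain ⟨-, h3⟩ := pencil hc.symm ha hR hL
  rw [← neg_sub, ker_neg] at h3
  refine ⟨h1, fun hW => ?_⟩
  obtain ⟨e, pe, e0, fe⟩ := h2 hW 1 (by simp)
  obtain ⟨e', pe', e0', fe'⟩ := h3 hW 1 (by simp)
  have := PF.zero_mem (PF.mul pe pe')
    (J := LinearMap.range (geo (A := End k E) (mulLeft k y) (mulRight k y) a))
    ((fe.union fe').subset fun s hs => by
      by_contra hn
      simp only [Set.mem_union, Set.mem_ofPred_eq, not_or, not_not] at hn
      obtain ⟨⟨-, ψ, hψ⟩, k1, -⟩ := hn
      have k2 : SemiconjBy (e' s) y ((1 - s) • y) := by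
        simpa [SemiconjBy, sub_eq_zero] using k1
      refine hs ⟨ψ * e' s, ?_⟩
      rw [show (1 - s) • (mulRight k y : End k E) = mulRight k ((1 - s) • y) from
        LinearMap.ext fun v => by simp, geo_mul] at hψ
      rw [geo_mul, Pi.mul_apply, ← hψ, sum_mul]
      exact sum_congr rfl fun j _ => by rw [mul_assoc, (k2.pow_right _).eq, mul_assoc, mul_assoc])
  rw [Pi.mul_apply, e0, e0', mul_one] at this
  obtain ⟨ψ, hψ⟩ := this
  exact ⟨ψ, by rwa [geo_mul] at hψ⟩

theorem cent_descend (K : Type*) [Field K] [Algebra k K] {y : E} {a : ℕ}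
    (h : Cent K ((1 : K) ⊗ₜ[k] y) a) : Cent k y a := by
  obtain ⟨h1, h2⟩ := h
  rw [finrank_ker_base (mk k K E 1) (mulLeft k y - mulRight k y) _ (fun x => by simp [tmul_sub])
    (isBaseChange k E K), finrank_baseChange] at h1 h2
  refine ⟨h1, fun hW => ?_⟩
  obtain ⟨ψ, hψ⟩ := h2 hW
  obtain ⟨ρ, hρ⟩ := (Algebra.linearMap k K).exists_leftInverse_of_injective
    (ker_eq_bot.2 (algebraMap k K).injective)
  have hρ1 : ρ 1 = 1 := by simpa using LinearMap.congr_fun hρ 1
  let r : K ⊗[k] E →ₗ[k] E := (TensorProduct.lid k E).toLinearMap ∘ₗ ρ.rTensor E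
  have hr : ∀ (u v : E) (z : K ⊗[k] E), r ((1 : K) ⊗ₜ[k] u * (z * (1 : K) ⊗ₜ[k] v)) =
      u * (r z * v) := fun u v z => by
    induction z with
    | zero => simp
    | tmul c w => simp [r]
    | add z z' h h' => simp only [add_mul, mul_add, map_add, h, h']
  refine ⟨r ψ, ?_⟩
  have := congrArg r hψ
  simp only [map_sum, Algebra.TensorProduct.tmul_pow, one_pow, hr] at this
  rw [this, Algebra.TensorProduct.one_def]
  simp [r, hρ1]

theorem cent_nil [FiniteDimensional k E] {y : E} {a : ℕ} (ha : 0 < a) (hy : y ^ a = 0) :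
    Cent k y a :=
  cent_descend (AlgebraicClosure k) (cent_closed ha (by
    rw [Algebra.TensorProduct.tmul_pow, hy, tmul_zero]))

theorem cent_frob [FiniteDimensional k E] {y : E} {e : ℕ}
    (hy : ∀ z, y ^ ringExpChar k ^ e * z = z * y ^ ringExpChar k ^ e) :
    Cent k y (ringExpChar k ^ e) := by
  have ha : 0 < ringExpChar k ^ e := expChar_pow_pos k _ e
  obtain ⟨h1, h2⟩ := core (L := (mulLeft k y : End k E)) (R := mulRight k y)
    (commute_mulLeft_right y y) (m := finrank k (ker (mulLeft k y - mulRight k y))) ha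
    (by rw [pow_mulLeft, pow_mulRight]; exact LinearMap.ext hy)
    (s := Multiset.replicate (ringExpChar k ^ e - 1) 1)
    (by
      refine mul_right_cancel₀ (X_sub_C_ne_zero (1 : k)) ?_
      rw [Multiset.map_replicate, Multiset.prod_replicate, ← pow_succ, Nat.sub_add_cancel ha,
        C_1, geom_sum_mul, sub_pow_expChar_pow, one_pow])
    (fun z hz => by rw [Multiset.eq_of_mem_replicate hz, one_smul]) le_rfl
  refine ⟨h1, fun hW => ?_⟩
  obtain ⟨ψ, hψ⟩ := (h2 hW).2 (show (1 : E) ∈ _ by simp)
  exact ⟨ψ, by rwa [geo_mul] at hψ⟩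

end alg

end Pool.Agent.Work.MP_34725c_ag.Tw
end

-- merged part: Pool.Agent.Work.MP_34725c_ag.TwMono
section
/-! Endomorphism rings over truncated polynomial rings, and their deformations. -/

set_option autoImplicit false

namespace Pool.Agent.Work.MP_34725c_ag.Tw

open IsLocalRing nonZeroDivisors Polynomial AdjoinRoot Module Pointwise

/-- lower bound for endomorphism rings, attained only by projective modules -/
def XP (k A : Type) [Field k] [CommRing A] [Algebra k A] : Prop :=
  Nontrivial A ∧ Module.Finite k A ∧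
    ∀ (V : Type) [AddCommGroup V] [Module A V] [Module k V] [IsScalarTower k A V],
      Module.Finite A V → finrank k V ^ 2 ≤ finrank k A * finrank k (V →ₗ[A] V) ∧
        (finrank k A * finrank k (V →ₗ[A] V) ≤ finrank k V ^ 2 → Module.Projective A V)

theorem XP.field (k : Type) [Field k] : XP k k := by
  refine ⟨inferInstance, inferInstance, fun V _ i1 i2 t hV => ⟨?_, fun _ => ?_⟩⟩
  · obtain rfl : i1 = i2 := Module.ext' _ _ fun c v => by
      have := t.smul_assoc c 1 v
      rwa [smul_eq_mul, mul_one, @one_smul k V _ i1.toDistribMulAction.toMulAction] at this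
    rw [finrank_self, one_mul, finrank_linearMap, sq]
  · exact @Module.Projective.of_free k _ V _ i1 (@Module.Free.of_divisionRing k V _ _ i1)

theorem dd_X_pow_sub_C {S W : Type*} [CommRing S] [AddCommGroup W] [Module S W]
    (L R : Module.End S W) (a : ℕ) (c : S) : dd L R (X ^ a - C c) = geo L R a := by
  rw [dd, sub_eq_add_neg, ← C_neg, ← monomial_one_right_eq_X_pow, ← monomial_zero_left,
    sum_add_index, sum_monomial_index, sum_monomial_index]
  · simp [geo]
  all_goals simp [add_smul]

theorem XP.step {k A : Type} [Field k] [CommRing A] [Algebra k A] (h : XP k A) {a : ℕ} {c : A}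
    (ha : 0 < a) (hc : c = 0 ∨ ∃ e, a = ringExpChar k ^ e) :
    XP k (AdjoinRoot (X ^ a - C c)) := by
  obtain ⟨_, _, h⟩ := h
  have hg : (X ^ a - C c).Monic := monic_X_pow_sub_C c ha.ne'
  have hd : (X ^ a - C c).natDegree = a := natDegree_X_pow_sub_C
  generalize hG : X ^ a - C c = g at hg hd
  have hr : root g ^ a = algebraMap A _ c := by
    have := (congrArg (mk g) hG).trans mk_self
    rwa [map_sub, map_pow, mk_X, mk_C, sub_eq_zero] at this
  have := hg.free_adjoinRoot
  have := hg.finite_adjoinRoot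
  refine ⟨⟨⟨mk g 1, 0, mk_ne_zero_of_natDegree_lt hg one_ne_zero (by simpa [hd])⟩⟩,
    Module.Finite.trans A _, fun V _ _ _ _ hV => ?_⟩
  let _ : Module A V := Module.compHom V (algebraMap A (AdjoinRoot g))
  have : IsScalarTower A (AdjoinRoot g) V := IsScalarTower.of_compHom A _ V
  have : IsScalarTower k A V := IsScalarTower.of_algebraMap_smul fun r v => by
    rw [← algebraMap_smul (AdjoinRoot g), ← IsScalarTower.algebraMap_apply, algebraMap_smul]
  have fin : Module.Finite A V := Module.Finite.trans (AdjoinRoot g) V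
  have : Module.Finite k V := Module.Finite.trans A V
  have : Module.Finite k (End A V) := Module.Finite.of_injective
    (LinearMap.restrictScalarsₗ k A V V k) (LinearMap.restrictScalars_injective k)
  have : Module.Finite k (V →ₗ[AdjoinRoot g] V) := Module.Finite.of_injective
    (LinearMap.restrictScalarsₗ k (AdjoinRoot g) V V k) (LinearMap.restrictScalars_injective k)
  have hy : ya g V ^ a = algebraMap A _ c := LinearMap.ext fun v => by
    rw [ya_pow, hr, algebraMap_smul, Module.algebraMap_end_apply]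
  obtain ⟨c1, c2⟩ : Cent k (ya g V) a := by
    rcases hc with rfl | ⟨e, rfl⟩
    · exact cent_nil ha (by rw [hy, map_zero])
    · exact cent_frob fun z => by rw [hy, Algebra.commutes]
  have le : finrank k (LinearMap.ker (LinearMap.mulLeft k (ya g V) - LinearMap.mulRight k (ya g V)))
      ≤ finrank k (V →ₗ[AdjoinRoot g] V) := by
    refine (Submodule.finrank_mono (t := LinearMap.range
      (LinearMap.restrictScalarsₗ A (AdjoinRoot g) V V k)) fun f hf => ?_).trans
      (LinearMap.finrank_range_le _)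
    obtain ⟨f', hf'⟩ := exists_lin (g := g) f fun m =>
      (sub_eq_zero.1 (LinearMap.congr_fun (LinearMap.mem_ker.1 hf) m)).symm
    exact ⟨f', LinearMap.ext hf'⟩
  obtain ⟨h1, h2⟩ := h V fin
  have e : finrank k (AdjoinRoot g) = finrank k A * a := by
    rw [← finrank_mul_finrank k A, (powerBasis' hg).finrank, powerBasis'_dim, hd]
  have pos : 0 < finrank k A := finrank_pos
  have c3 := c1.trans (Nat.mul_le_mul_left a le)
  have c4 := Nat.mul_le_mul_left (finrank k A) c3
  rw [e, mul_assoc]
  refine ⟨h1.trans c4, fun h3 => ?_⟩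
  have := h2 (c4.trans h3)
  obtain ⟨ψ, hψ⟩ := c2 ((Nat.mul_le_mul_left a le).trans
    (Nat.le_of_mul_le_mul_left (h3.trans h1) pos))
  refine projective_of_tr (ψ := ψ) fun m => ?_
  have := LinearMap.congr_fun hψ m
  rw [tr, (congrArg (dd _ _) hG).symm.trans (dd_X_pow_sub_C _ _ a c), geo]
  simpa only [LinearMap.sum_apply, Module.End.mul_apply, lop_pow, rop_pow,
    Module.End.one_apply] using this

theorem XP.length {k A : Type} [Field k] [CommRing A] [Algebra k A] [IsLocalRing A] (h : XP k A)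
    (V : Type) [AddCommGroup V] [Module A V] [Module.Finite A V]
    (hV : Module.length A A * Module.length A (V →ₗ[A] V) ≤ Module.length A V ^ 2) :
    Module.Free A V := by
  obtain ⟨_, _, h⟩ := h
  let _ : Module k V := Module.compHom V (algebraMap k A)
  have : IsScalarTower k A V := IsScalarTower.of_compHom k A V
  have : Module.Finite k V := Module.Finite.trans A V
  have : Module.Finite k (V →ₗ[A] V) := Module.Finite.of_injective
    (LinearMap.restrictScalarsₗ k A V V k) (LinearMap.restrictScalars_injective k)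
  have := (h V inferInstance).2 (by
    rw [← Nat.cast_le (α := ℕ∞)]
    push_cast
    simp only [← length_eq_finrank, length_restrictScalars k A]
    rw [mul_mul_mul_comm, mul_pow, sq (Module.length (ResidueField k) _)]
    exact mul_le_mul_left hV _)
  exact Module.free_of_flat_of_isLocalRing

section len

variable {T : Type} [CommRing T]

theorem length_coker_comp {A B C : Type} [AddCommGroup A] [Module T A] [AddCommGroup B]
    [Module T B] [AddCommGroup C] [Module T C] (f : A →ₗ[T] B) {g : B →ₗ[T] C}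
    (hg : Function.Injective g) : Module.length T (C ⧸ LinearMap.range (g ∘ₗ f)) =
      Module.length T (B ⧸ LinearMap.range f) + Module.length T (C ⧸ LinearMap.range g) := by
  refine length_eq_add_of_exact ((LinearMap.range f).mapQ _ g (by
    rintro _ ⟨a, rfl⟩
    exact ⟨a, rfl⟩)) (Submodule.factor (LinearMap.range_comp_le_range f g)) ?_
    (Submodule.factor_surjective _) fun q => ?_
  · rw [injective_iff_map_eq_zero]
    intro q hq
    obtain ⟨b, rfl⟩ := Submodule.mkQ_surjective _ q
    obtain ⟨a, ha⟩ := (Submodule.Quotient.mk_eq_zero _).1 hq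
    exact (Submodule.Quotient.mk_eq_zero _).2 ⟨a, hg ha⟩
  · obtain ⟨c, rfl⟩ := Submodule.mkQ_surjective _ q
    constructor
    · intro h
      obtain ⟨b, rfl⟩ := (Submodule.Quotient.mk_eq_zero _).1 h
      exact ⟨Submodule.mkQ _ b, rfl⟩
    · rintro ⟨q, hq⟩
      obtain ⟨b, rfl⟩ := Submodule.mkQ_surjective _ q
      rw [← hq]
      exact (Submodule.Quotient.mk_eq_zero _).2 ⟨b, rfl⟩

theorem range_lsmul (x : T) (N : Type) [AddCommGroup N] [Module T N] :
    LinearMap.range (LinearMap.lsmul T N x) = x • (⊤ : Submodule T N) := by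
  ext v
  simp [Submodule.mem_smul_pointwise_iff_exists]

theorem Par.length_quot [IsLocalRing T] [IsNoetherianRing T] {x : T} (hx : Par T x) {N F : Type}
    [AddCommGroup N] [Module T N] [AddCommGroup F] [Module T F] [Module.Free T F]
    [Module.Finite T F] {π : N →ₗ[T] F} (hπ : Function.Injective π) {c : T} (hc : c ∈ T⁰)
    (h : ∀ v, c • v ∈ LinearMap.range π) : Module.length T (QuotSMulTop x N) =
      finrank T F * Module.length T (T ⧸ Ideal.span {x}) := by
  have : Nontrivial (T ⧸ Ideal.span {x}) := Ideal.Quotient.nontrivial_iff.2 (by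
    rw [Ne, Ideal.span_singleton_eq_top]
    exact hx.mem)
  have hs : Function.Surjective (algebraMap T (T ⧸ Ideal.span {x})) := Ideal.Quotient.mk_surjective
  have e1 := length_coker_comp (LinearMap.lsmul T N x) hπ
  have e2 := length_coker_comp π (g := LinearMap.lsmul T F x)
    (Module.Flat.isSMulRegular_of_nonZeroDivisors hx.reg)
  rw [show LinearMap.lsmul T F x ∘ₗ π = π ∘ₗ LinearMap.lsmul T N x from
    LinearMap.ext fun n => by simp, e1, range_lsmul, range_lsmul, add_comm] at e2
  have fin := hx.length_ne_top hc (F ⧸ LinearMap.range π) fun v => by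
    obtain ⟨v, rfl⟩ := Submodule.mkQ_surjective _ v
    rw [← map_smul]
    exact (Submodule.Quotient.mk_eq_zero _).2 (h v)
  have : Module.Finite (T ⧸ Ideal.span {x}) (QuotSMulTop x F) :=
    Module.Finite.of_restrictScalars_finite T _ _
  rw [WithTop.add_left_cancel fin e2, length_eq_of_surjective hs, length_eq_of_surjective hs,
    length_of_free_of_finite,
    ((QuotSMulTop.equivQuotTensor x F).extendScalarsOfSurjective hs).finrank_eq,
    finrank_baseChange]

theorem Rigid.lift {M : Type} [AddCommGroup M] [Module T M] (h : Rigid T M) {x : T}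
    (hx : IsSMulRegular M x) : Function.Surjective (QuotSMulTop.map x : (M →ₗ[T] M) → _) := by
  intro a
  let q : M →ₗ[T] QuotSMulTop x M := Submodule.mkQ _
  have hq : ∀ v, q v = 0 ↔ ∃ u, x • u = v := fun v => by
    simp [q, Submodule.mem_smul_pointwise_iff_exists]
  let E : Submodule T (M × M) :=
    LinearMap.ker (q ∘ₗ LinearMap.fst T M M - a ∘ₗ q ∘ₗ LinearMap.snd T M M)
  have hE : ∀ p : M × M, p ∈ E ↔ q p.1 = a (q p.2) := fun p =>
    (sub_eq_zero (a := q p.1) (b := a (q p.2)))
  let f : M →ₗ[T] E := LinearMap.codRestrict E ((LinearMap.lsmul T M x).prod 0) (fun m => by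
    rw [hE]
    change q (x • m) = a (q 0)
    rw [map_zero, map_zero]
    exact (hq _).2 ⟨m, rfl⟩)
  obtain ⟨s, hs⟩ := h E f (LinearMap.snd T M M ∘ₗ E.subtype)
    (fun m m' hm => hx (congrArg (fun p : E => p.1.1) hm)) (by
      intro m
      obtain ⟨u, hu⟩ := Submodule.mkQ_surjective _ (a (q m))
      exact ⟨⟨(u, m), (hE _).2 hu⟩, rfl⟩) (by
      rintro ⟨⟨u, m⟩, hp⟩
      constructor
      · intro h
        obtain rfl : m = 0 := h
        obtain ⟨w, rfl⟩ := (hq u).1 (by simpa using (hE _).1 hp)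
        exact ⟨w, rfl⟩
      · rintro ⟨w, hw⟩
        rw [← hw]
        rfl)
  refine ⟨LinearMap.fst T M M ∘ₗ E.subtype ∘ₗ s, LinearMap.ext fun v => ?_⟩
  obtain ⟨m, rfl⟩ := Submodule.mkQ_surjective _ v
  have h1 := (hE _).1 (s m).2
  have h2 : (s m).1.2 = m := LinearMap.congr_fun hs m
  rw [h2] at h1
  exact h1

end len

section base

variable {T k A : Type} [CommRing T] [IsLocalRing T] [IsNoetherianRing T] [Field k] [CommRing A]
  [Algebra k A] {x : T}

omit [IsNoetherianRing T] in
theorem XP.par (h : XP k A) (hx : x ∈ T⁰) (e : (T ⧸ Ideal.span {x}) ≃+* A) : Par T x := by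
  obtain ⟨_, _, -⟩ := h
  have : Nontrivial (T ⧸ Ideal.span {x}) := e.nontrivial_congr.2 inferInstance
  have : IsArtinianRing A := IsArtinianRing.of_finite k A
  have : IsArtinianRing (T ⧸ Ideal.span {x}) := e.symm.isArtinianRing
  refine ⟨hx, fun hu => Ideal.Quotient.nontrivial_iff.1 ‹_› (Ideal.span_singleton_eq_top.2 hu), ?_⟩
  rw [Ideal.radical_eq_sInf]
  refine le_sInf fun P ⟨hP, hp⟩ => ?_
  have h1 : (P.map (Ideal.Quotient.mk (Ideal.span {x}))).IsPrime :=
    Ideal.map_isPrime_of_surjective Ideal.Quotient.mk_surjective (by rwa [Ideal.mk_ker])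
  have h2 := Ideal.comap_isMaximal_of_surjective (Ideal.Quotient.mk (Ideal.span {x}))
    Ideal.Quotient.mk_surjective (K := P.map (Ideal.Quotient.mk (Ideal.span {x})))
    (H := IsArtinianRing.isMaximal_of_isPrime _)
  rw [Ideal.comap_map_of_surjective _ Ideal.Quotient.mk_surjective, ← RingHom.ker_eq_comap_bot,
    Ideal.mk_ker, sup_eq_left.2 hP] at h2
  exact (eq_maximalIdeal h2).ge

theorem XP.hw (h : XP k A) (hx₀ : x ∈ T⁰) (e : (T ⧸ Ideal.span {x}) ≃+* A) : HW T := by
  intro M _ _ hM ⟨F, _, _, _, _, c, ι, π, hc, hπ, h1, h2⟩ hr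
  have hx := h.par hx₀ e
  have reg : ∀ {r : T}, r ∈ T⁰ → IsSMulRegular M r := fun hr m m' hm => hπ <|
    Module.Flat.isSMulRegular_of_nonZeroDivisors (M := F) hr (by simpa using congrArg π hm)
  let α : (M →ₗ[T] M) →ₗ[T] (F →ₗ[T] F) := LinearMap.llcomp T F M F π ∘ₗ LinearMap.lcomp T M ι
  have l1 := hx.length_quot hπ hc fun v => ⟨ι v, h2 v⟩
  have l2 := hx.length_quot (π := α) (by
      rw [injective_iff_map_eq_zero]
      refine fun φ hφ => LinearMap.ext fun m => reg hc (hπ ?_)
      have : π (φ (ι (π m))) = 0 := LinearMap.congr_fun hφ (π m)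
      simpa [h1] using this) (mul_mem hc hc) fun w =>
    ⟨ι ∘ₗ w ∘ₗ π, LinearMap.ext fun v => by
      change π (ι (w (π (ι v)))) = _
      simp [h2, mul_smul]⟩
  let V := QuotSMulTop x M
  have l3 : Module.length T (V →ₗ[T] V) ≤ Module.length T (QuotSMulTop x (M →ₗ[T] M)) := by
    refine Module.length_le_of_surjective
      ((x • (⊤ : Submodule T (M →ₗ[T] M))).liftQ (QuotSMulTop.map x) ?_) ?_
    · intro f hf
      obtain ⟨w, -, rfl⟩ := (Submodule.mem_smul_pointwise_iff_exists _ _ _).1 hf
      rw [LinearMap.mem_ker, map_smul]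
      refine LinearMap.ext fun v => ?_
      exact Module.mem_annihilator.1 (QuotSMulTop.mem_annihilator M x) _
    · intro a
      obtain ⟨f, hf⟩ := hr.lift (reg hx₀) a
      exact ⟨Submodule.Quotient.mk f, hf⟩
  let _ : Algebra T A := (e.toRingHom.comp (Ideal.Quotient.mk _)).toAlgebra
  have hs : Function.Surjective (algebraMap T A) := e.surjective.comp Ideal.Quotient.mk_surjective
  let _ : Module A V := Module.compHom V e.symm.toRingHom
  have : IsScalarTower T A V := IsScalarTower.of_algebraMap_smul fun t v => by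
    change e.symm (e (Ideal.Quotient.mk _ t)) • v = _
    rw [e.symm_apply_apply]
    exact algebraMap_smul (T ⧸ Ideal.span {x}) t v
  have : Module.Finite A V := Module.Finite.of_restrictScalars_finite T _ _
  have := h.1
  have : IsLocalRing A := IsLocalRing.of_surjective' _ hs
  have l4 : Module.length T (V →ₗ[A] V) ≤ Module.length T (V →ₗ[T] V) :=
    Module.length_le_of_injective (LinearMap.restrictScalarsₗ T A V V T)
      (LinearMap.restrictScalars_injective T)
  have l5 : Module.length T (T ⧸ Ideal.span {x}) = Module.length T A :=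
    (AlgEquiv.ofRingEquiv (R := T) (f := e) fun _ => rfl).toLinearEquiv.length_eq
  have := h.length V (by
    simp only [← length_eq_of_surjective hs]
    rw [l1, ← l5]
    refine (mul_le_mul_right (l4.trans l3) _).trans_eq ?_
    rw [l2, finrank_linearMap]
    push_cast
    ring)
  have := RingHomInvPair.of_ringEquiv e
  have := RingHomInvPair.of_ringEquiv_symm e
  have fr : Module.Free (T ⧸ Ideal.span {x}) V := Module.Free.of_equiv
    (σ := (e.symm : A →+* T ⧸ Ideal.span {x})) (σ' := (e : (T ⧸ Ideal.span {x}) →+* A))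
    { AddEquiv.refl V with map_smul' := fun _ _ => rfl }
  have : Module.FinitePresentation T M := Module.finitePresentation_of_finite T M
  have := (Module.free_quotSMulTop_iff_free T M (maximalIdeal_le_jacobson ⊥ hx.mem)
    (reg hx₀)).1 fr
  infer_instance

end base

section descent

variable {R T : Type} [CommRing R] [IsLocalRing R] [IsNoetherianRing R] [CommRing T]
  [Algebra R T] [Module.FaithfullyFlat R T]

theorem HW.descend (h : HW T) : HW R := by
  intro M _ _ hM h1 h2
  have := h _ inferInstance (h1.baseChange T) (h2.baseChange T)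
  have : Module.Flat R M := Module.Flat.of_flat_tensorProduct R M T
  have : Module.Free R M := Module.free_of_flat_of_isLocalRing
  infer_instance

omit [IsNoetherianRing R] in
theorem Par.descend [IsLocalRing T] [IsNoetherianRing T] {y : T} (h : Par T y) {x : R}
    (hx : x ∈ R⁰) (hu : ¬ IsUnit x) : Par R x := by
  refine ⟨hx, hu, fun r hr => ?_⟩
  have hm : (maximalIdeal R).map (algebraMap R T) ≠ ⊤ := fun e => by
    have := Ideal.comap_map_eq_self_of_faithfullyFlat (B := T) (maximalIdeal R)
    rw [e, Ideal.comap_top] at this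
    exact (maximalIdeal.isMaximal R).ne_top this.symm
  obtain ⟨n, hn⟩ := h.rad (map_mem_nzd T hx) (le_maximalIdeal hm (Ideal.mem_map_of_mem _ hr))
  refine ⟨n, ?_⟩
  rw [← Ideal.comap_map_eq_self_of_faithfullyFlat (B := T) (Ideal.span {x}), Ideal.mem_comap,
    Ideal.map_span, Set.image_singleton, map_pow]
  exact hn

end descent

end Pool.Agent.Work.MP_34725c_ag.Tw
end
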